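import Pool.Agent.H29.LG.Targets

set_option autoImplicit false

/-!
# Row RES: the residue fields of the fields generated by a root of unity of order a power of `p`
-/

open NumberField Height Finset Polynomial Pool.Agent.H24.RD Pool.Agent.H23.RDD Pool.Agent.H29.RQ
  Pool.Agent.H29.SX Pool.Agent.H29.LG

namespace Pool.Agent.H27.LG

section residue

variable {M : Type} [Field M] (w : AbsoluteValue M ℝ) (hna : IsNonarchimedean w)

/-- the valuation ring -/
private def R0 : Subring M where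
  carrier := {y | w y ≤ 1}
  mul_mem' := by
    intro a b ha hb
    show w (a * b) ≤ 1
    rw [w.map_mul]
    exact mul_le_one₀ ha (w.nonneg b) hb
  one_mem' := by
    show w 1 ≤ 1
    rw [w.map_one]
  add_mem' := by
    intro a b ha hb
    exact le_trans (hna a b) (max_le ha hb)
  zero_mem' := by
    show w 0 ≤ 1
    rw [w.map_zero]
    exact zero_le_one
  neg_mem' := by
    intro a ha
    show w (-a) ≤ 1
    rw [w.map_neg]
    exact ha

/-- the maximal ideal -/
private def m0 : Ideal (R0 w hna) where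
  carrier := {y | w (y : M) < 1}
  add_mem' := by
    intro a b ha hb
    show w ((a : M) + (b : M)) < 1
    exact lt_of_le_of_lt (hna _ _) (max_lt ha hb)
  zero_mem' := by
    show w (0 : M) < 1
    rw [w.map_zero]
    exact zero_lt_one
  smul_mem' := by
    intro a b hb
    show w ((a : M) * (b : M)) < 1
    rw [w.map_mul]
    exact mul_lt_one_of_nonneg_of_lt_one_right a.2 (w.nonneg _) hb

private theorem mem_m0 (y : R0 w hna) : y ∈ m0 w hna ↔ w (y : M) < 1 := Iff.rfl

private theorem m0_max : (m0 w hna).IsMaximal := by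
  rw [Ideal.isMaximal_iff]
  constructor
  · rw [mem_m0]
    show ¬ w (1 : M) < 1
    rw [w.map_one]
    exact lt_irrefl 1
  · intro J y _ hy hyJ
    rw [mem_m0, not_lt] at hy
    have h1 : w (y : M) = 1 := le_antisymm y.2 hy
    have h0 : (y : M) ≠ 0 := by
      intro h
      rw [h, w.map_zero] at h1
      exact zero_ne_one h1
    have h2 : w ((y : M)⁻¹) ≤ 1 := by
      rw [map_inv₀, h1, inv_one]
    have h3 : (⟨(y : M)⁻¹, h2⟩ : R0 w hna) * y = 1 := Subtype.ext (inv_mul_cancel₀ h0)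
    rw [← h3]
    exact J.mul_mem_left _ hyJ

include hna in
theorem residue_pow (p : ℕ) (hp : p.Prime) (hwp : w (p : M) < 1) (n : ℕ) (x : M) (hx : w x ≤ 1)
    (c : Fin (n + 1) → ℤ) (hc : ∃ i, ¬ (p : ℤ) ∣ c i)
    (hsum : w (∑ i, (c i : M) * x ^ (i : ℕ)) < 1) : w (x ^ (p ^ n.factorial) - x) < 1 := by
  have : (m0 w hna).IsMaximal := m0_max w hna
  let _ : Field (R0 w hna ⧸ m0 w hna) := Ideal.Quotient.field (m0 w hna)
  have : Fact p.Prime := ⟨hp⟩
  have hpc : ((p : ℕ) : R0 w hna ⧸ m0 w hna) = 0 := by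
    have : ((p : ℕ) : R0 w hna ⧸ m0 w hna) = Ideal.Quotient.mk (m0 w hna) (p : R0 w hna) := by
      rw [map_natCast]
    rw [this, Ideal.Quotient.eq_zero_iff_mem, mem_m0]
    exact hwp
  have : CharP (R0 w hna ⧸ m0 w hna) p := (CharP.charP_iff_prime_eq_zero hp).2 hpc
  let _ : Algebra (ZMod p) (R0 w hna ⧸ m0 w hna) := ZMod.algebra _ p
  set y : R0 w hna ⧸ m0 w hna := Ideal.Quotient.mk (m0 w hna) ⟨x, hx⟩ with hy
  set P : (ZMod p)[X] := ∑ i : Fin (n + 1), C ((c i : ℤ) : ZMod p) * X ^ (i : ℕ) with hP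
  have hcoeff : ∀ i : Fin (n + 1), P.coeff (i : ℕ) = ((c i : ℤ) : ZMod p) := by
    intro i
    rw [hP, Polynomial.finsetSum_coeff, Finset.sum_eq_single i]
    · rw [Polynomial.coeff_C_mul, Polynomial.coeff_X_pow, if_pos rfl, mul_one]
    · intro j _ hj
      rw [Polynomial.coeff_C_mul, Polynomial.coeff_X_pow, if_neg, mul_zero]
      intro h
      exact hj (Fin.ext h.symm)
    · intro h
      exact absurd (Finset.mem_univ i) h
  have hP0 : P ≠ 0 := by
    obtain ⟨i, hi⟩ := hc
    intro h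
    have h1 := hcoeff i
    rw [h, Polynomial.coeff_zero] at h1
    exact hi ((ZMod.intCast_zmod_eq_zero_iff_dvd (c i) p).1 h1.symm)
  have hdeg : P.natDegree ≤ n := by
    rw [hP]
    refine Polynomial.natDegree_sum_le_of_forall_le _ _ fun i _ => ?_
    exact (Polynomial.natDegree_C_mul_X_pow_le _ _).trans (Nat.lt_succ_iff.1 i.2)
  have haev : Polynomial.aeval y P = 0 := by
    rw [hP, map_sum]
    have h1 : ∀ i : Fin (n + 1), Polynomial.aeval y (C ((c i : ℤ) : ZMod p) * X ^ (i : ℕ)) =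
        Ideal.Quotient.mk (m0 w hna) (((c i : ℤ) : R0 w hna) * ⟨x, hx⟩ ^ (i : ℕ)) := by
      intro i
      rw [map_mul, Polynomial.aeval_C, map_pow, Polynomial.aeval_X, map_mul, map_pow, map_intCast,
        map_intCast]
    rw [Finset.sum_congr rfl fun i _ => h1 i, ← map_sum, Ideal.Quotient.eq_zero_iff_mem, mem_m0]
    push_cast
    exact hsum
  have halg : IsAlgebraic (ZMod p) y := ⟨P, hP0, haev⟩
  have hint : IsIntegral (ZMod p) y := halg.isIntegral
  have hmin : (minpoly (ZMod p) y).natDegree ≤ n :=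
    (Polynomial.natDegree_le_natDegree (minpoly.degree_le_of_ne_zero (ZMod p) y hP0 haev)).trans
      hdeg
  set f := (minpoly (ZMod p) y).natDegree with hf
  have hf1 : 0 < f := minpoly.natDegree_pos hint
  have : FiniteDimensional (ZMod p) (IntermediateField.adjoin (ZMod p) {y}) :=
    IntermediateField.adjoin.finiteDimensional hint
  have : Finite (IntermediateField.adjoin (ZMod p) {y}) := Module.finite_of_finite (ZMod p)
  let _ : Fintype (IntermediateField.adjoin (ZMod p) {y}) := Fintype.ofFinite _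
  have hcard : Fintype.card (IntermediateField.adjoin (ZMod p) {y}) = p ^ f := by
    rw [Module.card_eq_pow_finrank (K := ZMod p), ZMod.card, IntermediateField.adjoin.finrank hint]
  obtain ⟨e, he⟩ := Nat.dvd_factorial hf1 hmin
  have hpow := FiniteField.pow_card_pow e (IntermediateField.AdjoinSimple.gen (ZMod p) y)
  rw [hcard, ← pow_mul, ← he] at hpow
  have hpow2 : y ^ (p ^ n.factorial) = y := by
    have := congrArg (algebraMap (IntermediateField.adjoin (ZMod p) {y})
      (R0 w hna ⧸ m0 w hna)) hpow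
    rw [map_pow, IntermediateField.AdjoinSimple.algebraMap_gen] at this
    exact this
  have h3 : Ideal.Quotient.mk (m0 w hna) ((⟨x, hx⟩ : R0 w hna) ^ (p ^ n.factorial) - ⟨x, hx⟩) =
      0 := by
    rw [map_sub, map_pow, ← hy, hpow2, sub_self]
  rw [Ideal.Quotient.eq_zero_iff_mem, mem_m0] at h3
  exact h3

end residue

/-- the value of an integer vector -/
theorem row_val {M : Type} [Field M] (w : AbsoluteValue M ℝ) (p : ℕ) (hp : p.Prime)
    (hcop : ∀ m : ℕ, ¬ p ∣ m → w (m : M) = 1) (n : ℕ) (x : M)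
    (key : ∀ c : Fin (n + 1) → ℤ, (∃ i, ¬ (p : ℤ) ∣ c i) →
      w (∑ i, (c i : M) * x ^ (i : ℕ)) = 1)
    (c : Fin (n + 1) → ℤ) (hc : ∃ i, c i ≠ 0) :
    ∃ k : ℕ, w (∑ i, (c i : M) * x ^ (i : ℕ)) = w (p : M) ^ k := by
  obtain ⟨c', hc', hg⟩ := Finset.extract_gcd c (s := (Finset.univ : Finset (Fin (n + 1))))
    Finset.univ_nonempty
  set g := (Finset.univ : Finset (Fin (n + 1))).gcd c with hgdef
  have hg0 : g ≠ 0 := by
    intro h
    obtain ⟨i, hi⟩ := hc
    apply hi
    rw [hc' i (Finset.mem_univ i), h, zero_mul]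
  have hnd : ∃ i, ¬ (p : ℤ) ∣ c' i := by
    by_contra hcon
    push Not at hcon
    have h1 : (p : ℤ) ∣ (Finset.univ : Finset (Fin (n + 1))).gcd c' :=
      Finset.dvd_gcd fun i _ => hcon i
    rw [hg] at h1
    have h2 := Int.eq_one_of_dvd_one (by positivity) h1
    exact hp.one_lt.ne' (by exact_mod_cast h2)
  have h1 : ∑ i, (c i : M) * x ^ (i : ℕ) = (g : M) * ∑ i, (c' i : M) * x ^ (i : ℕ) := by
    rw [Finset.mul_sum]
    refine Finset.sum_congr rfl fun i _ => ?_
    rw [hc' i (Finset.mem_univ i)]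
    push_cast
    ring
  have hgn : g.natAbs ≠ 0 := Int.natAbs_ne_zero.2 hg0
  obtain ⟨k, m, hm, hkm⟩ := Nat.exists_eq_pow_mul_and_not_dvd hgn p hp.one_lt.ne'
  refine ⟨k, ?_⟩
  rw [h1, w.map_mul, key c' hnd, mul_one]
  have h2 : w (g : M) = w ((g.natAbs : ℕ) : M) := by
    rcases Int.natAbs_eq g with h | h
    · rw [h]
      push_cast
      simp
    · rw [h]
      push_cast
      rw [w.map_neg]
      simp
  rw [h2, hkm]
  push_cast
  rw [w.map_mul, w.map_pow, hcop m hm, mul_one]

theorem pf_RES (h1 : T_VB) (_h2 : T_RS) : T_RES := by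
  intro F M _ _ _ _ _ p v hp w hw ζ hζ x hx hwx
  obtain ⟨hna, hp0, hint, hcop, -, hcyc, -⟩ := h1 M p hp w hw
  by_contra hcon
  have hn1 : 0 < Module.finrank ℚ F := Module.finrank_pos
  obtain ⟨n, hn⟩ : ∃ n, n = Module.finrank ℚ F := ⟨_, rfl⟩
  rw [← hn] at hcon hn1
  have : FiniteDimensional F M := FiniteDimensional.right ℚ F M
  -- values of integer vectors
  have hle1 : ∀ m : ℤ, w.1 (m : M) ≤ 1 := fun m => hint _ (by
    have := isIntegral_algebraMap (R := ℤ) (A := M) (x := m)
    simpa using this)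
  have key : ∀ c : Fin (n + 1) → ℤ, (∃ i, ¬ (p : ℤ) ∣ c i) →
      w.1 (∑ i, (c i : M) * x ^ (i : ℕ)) = 1 := by
    intro c hc
    by_contra hne
    have hle : w.1 (∑ i, (c i : M) * x ^ (i : ℕ)) ≤ 1 := by
      obtain ⟨b, -, hb⟩ := hna.finset_image_add_of_nonempty
        (fun i : Fin (n + 1) => (c i : M) * x ^ (i : ℕ)) Finset.univ_nonempty
      refine hb.trans ?_
      rw [w.1.map_mul, w.1.map_pow]
      exact mul_le_one₀ (hle1 _) (by positivity) (pow_le_one₀ (w.1.nonneg _) hwx)
    exact hcon (residue_pow w.1 hna p hp hw n x hwx c hc (lt_of_le_of_ne hle hne))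
  -- the powers of the uniformizer
  obtain ⟨φ, hφ⟩ : ∃ φ, φ = Nat.totient (p ^ v) := ⟨_, rfl⟩
  have hφ0 : 0 < φ := by
    rw [hφ]
    exact Nat.totient_pos.2 (pow_pos hp.pos v)
  have hφR : (0 : ℝ) < φ := by exact_mod_cast hφ0
  have hlogp : Real.log (w.1 (p : M)) < 0 := Real.log_neg hp0 hw
  have hπ : ∀ j : ℕ, j < φ → w.1 ((1 - ζ) ^ j) = Real.exp (Real.log (w.1 (p : M)) * (j / φ)) := by
    intro j hj
    rcases Nat.eq_zero_or_pos v with hv | hv
    · have : φ = 1 := by rw [hφ, hv, pow_zero, Nat.totient_one]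
      have hj0 : j = 0 := by omega
      rw [hj0]
      simp
    · have hc := hcyc v ζ hv hζ
      have hφ' : (φ : ℝ) = (p : ℝ) ^ (v - 1) * (p - 1) := by
        rw [hφ, Nat.totient_prime_pow hp hv]
        have : 1 ≤ p := hp.one_lt.le
        push_cast [Nat.cast_sub this]
        ring
      rw [← hφ'] at hc
      unfold wv at hc
      have hlog : Real.log (w.1 (1 - ζ)) = Real.log (w.1 (p : M)) / φ := by
        rw [div_eq_iff hlogp.ne] at hc
        rw [hc]
        ring
      have hpos : 0 < w.1 (1 - ζ) := by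
        rcases (w.1.nonneg (1 - ζ)).lt_or_eq with h | h
        · exact h
        · exfalso
          rw [← h, Real.log_zero] at hlog
          have : Real.log (w.1 (p : M)) / φ < 0 := div_neg_of_neg_of_pos hlogp hφR
          linarith
      rw [w.1.map_pow, ← Real.exp_log hpos, hlog, ← Real.exp_nat_mul]
      congr 1
      ring
  -- the family
  set K := IntermediateField.adjoin F {ζ} with hK
  have hζK : ζ ∈ K := IntermediateField.mem_adjoin_simple_self F ζ
  set x' : K := ⟨x, hx⟩ with hx'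
  set π' : K := 1 - ⟨ζ, hζK⟩ with hπ'
  have hli : LinearIndependent ℤ (fun k : Fin (n + 1) × Fin φ =>
      x' ^ (k.1 : ℕ) * π' ^ (k.2 : ℕ)) := by
    rw [Fintype.linearIndependent_iff]
    intro g hg
    by_contra hne
    push Not at hne
    obtain ⟨⟨i₀, j₀⟩, hij⟩ := hne
    -- the relation in `M`
    set r : Fin φ → M := fun j => ∑ i : Fin (n + 1), ((g (i, j) : ℤ) : M) * x ^ (i : ℕ) with hr
    have hrel : ∑ j : Fin φ, r j * (1 - ζ) ^ (j : ℕ) = 0 := by
      have h := congrArg (algebraMap K M) hg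
      rw [map_sum, map_zero, Fintype.sum_prod_type, Finset.sum_comm] at h
      rw [← h]
      refine Finset.sum_congr rfl fun j _ => ?_
      rw [hr, Finset.sum_mul]
      refine Finset.sum_congr rfl fun i _ => ?_
      rw [zsmul_eq_mul, map_mul, map_intCast, map_mul, map_pow, map_pow, hπ', map_sub, map_one]
      rw [mul_assoc]
      rfl
    have hval : ∀ j : Fin φ, (∃ i, g (i, j) ≠ 0) → ∃ k : ℕ,
        w.1 (r j * (1 - ζ) ^ (j : ℕ)) =
          Real.exp (Real.log (w.1 (p : M)) * (k + ((j : ℕ) : ℝ) / φ)) := by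
      intro j hj
      obtain ⟨k, hk⟩ := row_val w.1 p hp hcop n x key (fun i => g (i, j)) hj
      refine ⟨k, ?_⟩
      rw [w.1.map_mul, hk, hπ j j.2, mul_add, Real.exp_add]
      congr 1
      rw [mul_comm, Real.exp_nat_mul, Real.exp_log hp0]
    have hzero : ∀ j : Fin φ, (¬ ∃ i, g (i, j) ≠ 0) → r j = 0 := by
      intro j hj
      push Not at hj
      rw [hr]
      exact Finset.sum_eq_zero fun i _ => by rw [hj i, Int.cast_zero, zero_mul]
    -- the largest term
    classical
    set S := (Finset.univ : Finset (Fin φ)).filter fun j => ∃ i, g (i, j) ≠ 0 with hS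
    have hSne : S.Nonempty := ⟨j₀, by rw [hS, Finset.mem_filter]; exact ⟨mem_univ _, i₀, hij⟩⟩
    obtain ⟨j₁, hj₁, hmax⟩ := S.exists_max_image
      (fun j => w.1 (r j * (1 - ζ) ^ (j : ℕ))) hSne
    have hj₁' : ∃ i, g (i, j₁) ≠ 0 := by
      rw [hS, Finset.mem_filter] at hj₁
      exact hj₁.2
    obtain ⟨k₁, hk₁⟩ := hval j₁ hj₁'
    have hlt : ∀ j ∈ (Finset.univ : Finset (Fin φ)), j ≠ j₁ →
        w.1 (r j * (1 - ζ) ^ (j : ℕ)) < w.1 (r j₁ * (1 - ζ) ^ (j₁ : ℕ)) := by
      intro j _ hj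
      by_cases h : ∃ i, g (i, j) ≠ 0
      · have hjS : j ∈ S := by
          rw [hS, Finset.mem_filter]
          exact ⟨mem_univ _, h⟩
        refine lt_of_le_of_ne (hmax j hjS) ?_
        intro heq
        obtain ⟨k, hk⟩ := hval j h
        have heq' : w.1 (r j * (1 - ζ) ^ (j : ℕ)) = w.1 (r j₁ * (1 - ζ) ^ (j₁ : ℕ)) := heq
        rw [hk, hk₁] at heq'
        have h2 := Real.exp_injective heq'
        have h3 := mul_left_cancel₀ hlogp.ne h2
        have h4 : (φ : ℝ) * k + (j : ℕ) = (φ : ℝ) * k₁ + (j₁ : ℕ) := by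
          have h5 := congrArg (fun t : ℝ => (φ : ℝ) * t) h3
          simp only [mul_add] at h5
          rw [mul_div_cancel₀ _ hφR.ne', mul_div_cancel₀ _ hφR.ne'] at h5
          exact h5
        have h6 : φ * k + (j : ℕ) = φ * k₁ + (j₁ : ℕ) := by exact_mod_cast h4
        have h7 : (j : ℕ) = (j₁ : ℕ) := by
          have h8 := congrArg (· % φ) h6
          simp only [Nat.mul_add_mod] at h8
          rwa [Nat.mod_eq_of_lt j.2, Nat.mod_eq_of_lt j₁.2] at h8
        exact hj (Fin.ext h7)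
      · rw [hzero j h, zero_mul, w.1.map_zero, hk₁]
        exact Real.exp_pos _
    have hfin := hna.apply_sum_eq_of_lt (fun a => (w.1.map_neg a).symm)
      (l := fun j : Fin φ => r j * (1 - ζ) ^ (j : ℕ)) (Finset.mem_univ j₁) hlt
    rw [hrel, w.1.map_zero, hk₁] at hfin
    exact (Real.exp_pos _).ne hfin
  -- the dimension
  have hliQ : LinearIndependent ℚ (fun k : Fin (n + 1) × Fin φ =>
      x' ^ (k.1 : ℕ) * π' ^ (k.2 : ℕ)) := (LinearIndependent.iff_fractionRing ℤ ℚ).1 hli
  have hcard := hliQ.fintype_card_le_finrank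
  rw [Fintype.card_prod, Fintype.card_fin, Fintype.card_fin] at hcard
  have hintζ : IsIntegral F ζ := Algebra.IsIntegral.isIntegral ζ
  have hfr : Module.finrank F K ≤ φ := by
    rw [hK, IntermediateField.adjoin.finrank hintζ, hφ, ← Polynomial.natDegree_cyclotomic (p ^ v) F]
    refine Polynomial.natDegree_le_of_dvd (minpoly.dvd F ζ ?_) (Polynomial.cyclotomic_ne_zero _ F)
    have : NeZero ((p ^ v : ℕ) : M) := ⟨by exact_mod_cast (pow_pos hp.pos v).ne'⟩
    have h := hζ.isRoot_cyclotomic (pow_pos hp.pos v)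
    rw [Polynomial.IsRoot.def] at h
    rw [Polynomial.aeval_def, Polynomial.eval₂_eq_eval_map, Polynomial.map_cyclotomic]
    exact h
  have htot : Module.finrank ℚ K = n * Module.finrank F K := by
    rw [hn, Module.finrank_mul_finrank ℚ F K]
  rw [htot] at hcard
  have := Nat.mul_le_mul_left n hfr
  nlinarith

end Pool.Agent.H27.LG
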