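import Pool.Agent.H29.LG.Targets

set_option autoImplicit false

/-!
# Row WLD: the wild step
-/

open NumberField Height Finset Polynomial Pool.Agent.H24.RD Pool.Agent.H23.RDD Pool.Agent.H29.RQ
  Pool.Agent.H29.SX Pool.Agent.H29.LG

namespace Pool.Agent.H27.LG

section lv

variable {F Ω : Type} [Field F] [Field Ω] [Algebra F Ω] {r : ℕ} (γ : Fin r → F) (N K : ℕ)

private theorem lv_map (τ : Ω ≃ₐ[F] Ω) : ∀ z ∈ Lv F Ω γ N K, τ z ∈ Lv F Ω γ N K := by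
  intro z hz
  unfold Lv at hz ⊢
  refine IntermediateField.adjoin_induction F
    (p := fun z _ => τ z ∈ IntermediateField.adjoin F
      {z : Ω | z ^ N = 1 ∨ ∃ i, z ^ K = algebraMap F Ω (γ i)}) ?_ ?_ ?_ ?_ ?_ hz
  · intro x hx
    apply IntermediateField.subset_adjoin
    rcases hx with h | ⟨i, h⟩
    · left
      rw [← map_pow, h, map_one]
    · right
      refine ⟨i, ?_⟩
      rw [← map_pow, h, AlgEquiv.commutes]
  · intro x
    rw [AlgEquiv.commutes]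
    exact IntermediateField.algebraMap_mem _ x
  · intro x y _ _ hx hy
    rw [map_add]
    exact add_mem hx hy
  · intro x _ hx
    rw [map_inv₀]
    exact inv_mem hx
  · intro x y _ _ hx hy
    rw [map_mul]
    exact mul_mem hx hy

private theorem lv_fix (σ : Ω ≃ₐ[F] Ω) (h1 : ∀ z : Ω, z ^ N = 1 → σ z = z)
    (h2 : ∀ (z : Ω) (i : Fin r), z ^ K = algebraMap F Ω (γ i) → σ z = z) :
    ∀ z ∈ Lv F Ω γ N K, σ z = z := by
  intro z hz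
  unfold Lv at hz
  refine IntermediateField.adjoin_induction F (p := fun z _ => σ z = z) ?_ ?_ ?_ ?_ ?_ hz
  · intro x hx
    rcases hx with h | ⟨i, h⟩
    · exact h1 x h
    · exact h2 x i h
  · intro x
    exact σ.commutes x
  · intro x y _ _ hx hy
    rw [map_add, hx, hy]
  · intro x _ hx
    rw [map_inv₀, hx]
  · intro x y _ _ hx hy
    rw [map_mul, hx, hy]

private theorem root_mem {z : Ω} (h : z ^ N = 1) : z ∈ Lv F Ω γ N K :=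
  IntermediateField.subset_adjoin _ _ (Or.inl h)

private theorem kth_mem {z : Ω} (i : Fin r) (h : z ^ K = algebraMap F Ω (γ i)) :
    z ∈ Lv F Ω γ N K :=
  IntermediateField.subset_adjoin _ _ (Or.inr ⟨i, h⟩)

/-- an automorphism which fixes a primitive `N`-th root of unity fixes all of them -/
private theorem fix_roots {n : ℕ} [NeZero n] {ζ : Ω} (hζ : IsPrimitiveRoot ζ n) (σ : Ω ≃ₐ[F] Ω)
    (h : σ ζ = ζ) (z : Ω) (hz : z ^ n = 1) : σ z = z := by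
  obtain ⟨i, -, hi⟩ := hζ.eq_pow_of_pow_eq_one hz
  rw [← hi, map_pow, h]

end lv

theorem pf_WLD (h1 : T_LVB) (h2 : T_VIS) (h3 : T_VCL) (h4 : T_KEL) : T_WLD := by
  intro F Ω _ _ _ _ _ _ _ r γ hγ p hgood N K d hN hKN hpK hp2 hd hlog α hα hh
  classical
  obtain ⟨β, hβ0, hCj, hRed, g, hg, hαg⟩ := hα
  have hp : p.Prime := hgood.1
  have hK0 : 0 < K := Nat.pos_of_dvd_of_pos hKN hN
  have hpN : p ∣ N := dvd_trans (dvd_pow_self p (by norm_num)) hp2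
  have hNp : 0 < N / p := Nat.div_pos (Nat.le_of_dvd hN hpN) hp.pos
  have hpNp : p ∣ N / p := by
    obtain ⟨c, hc⟩ := hp2
    refine ⟨c, ?_⟩
    rw [hc, pow_two, mul_assoc, Nat.mul_div_cancel_left _ hp.pos]
  have hdiv : N / p ∣ N := Nat.div_dvd_of_dvd hpN
  have hKNp : K ∣ N / p := by
    have h5 : Nat.Coprime K p := (Nat.Coprime.symm ((Nat.Prime.coprime_iff_not_dvd hp).2 hpK))
    have h6 : K ∣ p * (N / p) := by rwa [Nat.mul_div_cancel' hpN]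
    exact h5.dvd_of_dvd_mul_left h6
  obtain ⟨hfd, hgal, ⟨ζ', hζ'⟩, -, -, -⟩ := h1 F Ω r γ hγ N K hN hK0
  have hlev := (h1 F Ω r γ hγ (N / p) K hNp hK0).2.2.2.2.2
  have hle : Lv F Ω γ (N / p) K ≤ Lv F Ω γ N K := hlev N K hdiv (dvd_refl K) hKN hN
  obtain ⟨hr0, hrp, hrd, hcomm⟩ := h3 F Ω r γ hγ p hp N K hN hKN hpK hpN
  have hdvd := hrd hp2
  obtain ⟨hg0, n, hn, x, hgx⟩ := hg
  obtain ⟨B, hB1, hB2, hB3, hB4⟩ := h4 F Ω p hp (Lv F Ω γ (N / p) K) (Lv F Ω γ N K) hle hfd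
    (fun τ => lv_map γ N K τ) (fun τ => lv_map γ (N / p) K τ) hrp
    (fun σ hσ τ _ z hz => hcomm σ hσ τ z hz)
    (fun σ hσ M _ hM w hw y y' hy hy' =>
      h2 F Ω r γ hγ p hgood N K hN hKN hpK hpN σ hσ M hM w hw y y' hy hy')
    d β g hd hβ0 hg0 hCj hRed
    ⟨n, ∏ i, γ i ^ x i, hn, by rw [hgx, map_prod]; simp only [map_zpow₀], by
      intro w hw
      rw [map_prod]
      refine Finset.prod_eq_one fun i _ => ?_
      rw [map_zpow₀, (hgood.2 w hw).2 i, one_zpow]⟩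
  -- the subgroup is everything
  have hlogp : 0 < Real.log p := Real.log_pos (by exact_mod_cast hp.one_lt)
  have hBlt : B.relIndex (Lv F Ω γ (N / p) K).fixingSubgroup < p := by
    rw [← hαg] at hB4
    have h5 : ((B.relIndex (Lv F Ω γ (N / p) K).fixingSubgroup : ℝ) - 1) * Real.log p <
        ((p : ℝ) - 1) * Real.log p := by linarith
    have h6 := lt_of_mul_lt_mul_right h5 hlogp.le
    have h7 : (B.relIndex (Lv F Ω γ (N / p) K).fixingSubgroup : ℝ) < p := by linarith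
    exact_mod_cast h7
  have hBdvd : B.relIndex (Lv F Ω γ (N / p) K).fixingSubgroup ∣ p := by
    refine dvd_trans ?_ hdvd
    rw [← Subgroup.relIndex_mul_relIndex _ _ _ hB1 hB2]
    exact dvd_mul_left _ _
  have hB1' : B.relIndex (Lv F Ω γ (N / p) K).fixingSubgroup = 1 := by
    rcases (Nat.dvd_prime hp).1 hBdvd with h | h
    · exact h
    · omega
  have hBtop : (Lv F Ω γ (N / p) K).fixingSubgroup ≤ B := Subgroup.relIndex_eq_one.1 hB1'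
  have hmain : ∀ τ : Ω ≃ₐ[F] Ω, (∀ z ∈ Lv F Ω γ (N / p) K, τ z = z) →
      ∃ τ' : Ω ≃ₐ[F] Ω, (∀ z ∈ Lv F Ω γ N K, τ' z = τ z) ∧ (τ' β) ^ p = β ^ p := by
    intro τ hτ
    exact hB3 τ (hBtop ((IntermediateField.mem_fixingSubgroup_iff _ _).2 hτ))
  by_cases hcase : ∀ τ : Ω ≃ₐ[F] Ω, (∀ z ∈ Lv F Ω γ (N / p) K, τ z = z) →
      ∀ z ∈ Lv F Ω γ N K, τ z = z
  · -- the two groups are the same
    refine ⟨β, hβ0, ?_, ?_, g, ⟨hg0, n, hn, x, hgx⟩, hαg⟩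
    · obtain ⟨s, hs, hs2⟩ := hCj
      exact ⟨s, hs, fun σ hσ => hs2 σ (hcase σ hσ)⟩
    · intro σ hσ k hk hpow
      exact hRed σ (hcase σ hσ) k hk hpow
  push Not at hcase
  obtain ⟨τ₀, hτ₀, z₀, hz₀, hne⟩ := hcase
  -- the root of unity
  have hNZ : NeZero N := ⟨hN.ne'⟩
  obtain ⟨ζ, hζdef⟩ : ∃ ζ : Ω, ζ = (ζ' : Ω) := ⟨_, rfl⟩
  have hζ : IsPrimitiveRoot ζ N := by
    rw [hζdef]
    exact hζ'.map_of_injective (f := algebraMap (Lv F Ω γ N K) Ω)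
      (algebraMap (Lv F Ω γ N K) Ω).injective
  have hζE : ζ ∈ Lv F Ω γ N K := root_mem γ N K hζ.pow_eq_one
  have hζ0 : ζ ≠ 0 := hζ.ne_zero hN.ne'
  -- the automorphisms over `E₀` move it by `p`-th roots of unity
  have hquot : ∀ σ : Ω ≃ₐ[F] Ω, (∀ z ∈ Lv F Ω γ (N / p) K, σ z = z) → (σ ζ / ζ) ^ p = 1 := by
    intro σ hσ
    have h5 : σ (ζ ^ p) = ζ ^ p := by
      apply hσ
      apply root_mem
      rw [← pow_mul, Nat.mul_div_cancel' hpN, hζ.pow_eq_one]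
    rw [div_pow, ← map_pow, h5, div_self (pow_ne_zero _ hζ0)]
  obtain ⟨ω, hω⟩ : ∃ ω : Ω, ω = τ₀ ζ / ζ := ⟨_, rfl⟩
  have hωp : ω ^ p = 1 := by rw [hω]; exact hquot τ₀ hτ₀
  have hτζ : τ₀ ζ = ω * ζ := by rw [hω, div_mul_cancel₀ _ hζ0]
  have hω1 : ω ≠ 1 := by
    intro h
    rw [h, one_mul] at hτζ
    apply hne
    refine lv_fix γ N K τ₀ (fix_roots hζ τ₀ hτζ) (fun z i hz => ?_) z₀ hz₀
    exact hτ₀ z (kth_mem γ (N / p) K i hz)
  have hωprim : IsPrimitiveRoot ω p := by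
    rw [IsPrimitiveRoot.iff_orderOf]
    have : Fact p.Prime := ⟨hp⟩
    exact orderOf_eq_prime hωp hω1
  have hωE : ω ∈ Lv F Ω γ (N / p) K := by
    apply root_mem
    obtain ⟨c, hc⟩ := hpNp
    rw [hc, pow_mul, hωp, one_pow]
  have hpNZ : NeZero p := ⟨hp.ne_zero⟩
  obtain ⟨τ', hτ'E, hτ'β⟩ := hmain τ₀ hτ₀
  have hτ'0 : ∀ z ∈ Lv F Ω γ (N / p) K, τ' z = z := by
    intro z hz
    rw [hτ'E z (hle hz)]
    exact hτ₀ z hz
  have hτ'ζ : τ' ζ = ω * ζ := by rw [hτ'E ζ hζE]; exact hτζ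
  -- the correction
  obtain ⟨j, hj⟩ : ∃ j : ℕ, τ' β / β * ω ^ j = 1 := by
    have h5 : (τ' β / β) ^ p = 1 := by
      rw [div_pow, hτ'β, div_self (pow_ne_zero _ hβ0)]
    obtain ⟨i, hi, hi2⟩ := hωprim.eq_pow_of_pow_eq_one h5
    refine ⟨p - i, ?_⟩
    rw [← hi2, ← pow_add, Nat.add_sub_cancel' hi.le, hωp]
  have hτ'βj : τ' (β * ζ ^ j) = β * ζ ^ j := by
    rw [map_mul, map_pow, hτ'ζ, mul_pow]
    have h5 : τ' β * (ω ^ j * ζ ^ j) = (τ' β / β * ω ^ j) * (β * ζ ^ j) := by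
      field_simp
    rw [h5, hj, one_mul]
  have hiter : ∀ k : ℕ, (τ' ^ k) (β * ζ ^ j) = β * ζ ^ j ∧ (τ' ^ k) ζ = ω ^ k * ζ ∧
      ∀ z ∈ Lv F Ω γ (N / p) K, (τ' ^ k) z = z := by
    intro k
    induction k with
    | zero =>
      refine ⟨rfl, ?_, fun z _ => rfl⟩
      rw [pow_zero, pow_zero, one_mul]
      rfl
    | succ k ih =>
      obtain ⟨i1, i2, i3⟩ := ih
      refine ⟨?_, ?_, ?_⟩
      · rw [pow_succ, AlgEquiv.mul_apply, hτ'βj, i1]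
      · rw [pow_succ, AlgEquiv.mul_apply, hτ'ζ, map_mul, i2, i3 ω hωE, pow_succ]
        ring
      · intro z hz
        rw [pow_succ, AlgEquiv.mul_apply, hτ'0 z hz, i3 z hz]
  have hσ1 : ∀ σ : Ω ≃ₐ[F] Ω, (∀ z ∈ Lv F Ω γ (N / p) K, σ z = z) →
      ∃ σ₁ : Ω ≃ₐ[F] Ω, (∀ z ∈ Lv F Ω γ N K, σ₁ z = z) ∧
        σ (β * ζ ^ j) = σ₁ β * ζ ^ j := by
    intro σ hσ
    obtain ⟨k, hk, hk2⟩ := hωprim.eq_pow_of_pow_eq_one (hquot σ hσ)
    have hσζ : σ ζ = ω ^ k * ζ := by rw [hk2, div_mul_cancel₀ _ hζ0]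
    obtain ⟨i1, i2, i3⟩ := hiter k
    have hinv : ∀ y z : Ω, (τ' ^ k) y = z → (τ' ^ k)⁻¹ z = y := by
      intro y z hyz
      rw [← hyz, ← AlgEquiv.mul_apply, inv_mul_cancel]
      rfl
    have hωk : ω ^ k ≠ 0 := pow_ne_zero _ (hωprim.ne_zero hp.ne_zero)
    have hωkE : ω ^ k ∈ Lv F Ω γ (N / p) K := pow_mem hωE k
    have hσ₁ζ : (σ * (τ' ^ k)⁻¹) ζ = ζ := by
      rw [AlgEquiv.mul_apply]
      have h5 : (τ' ^ k)⁻¹ ζ = (ω ^ k)⁻¹ * ζ := by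
        apply hinv
        rw [map_mul, i2, i3 _ (inv_mem hωkE), inv_mul_cancel_left₀ hωk]
      rw [h5, map_mul, hσζ, hσ _ (inv_mem hωkE), inv_mul_cancel_left₀ hωk]
    have hσ₁E : ∀ z ∈ Lv F Ω γ N K, (σ * (τ' ^ k)⁻¹) z = z := by
      refine lv_fix γ N K _ (fix_roots hζ _ hσ₁ζ) (fun z i hz => ?_)
      have hzE := kth_mem γ (N / p) K i hz
      rw [AlgEquiv.mul_apply, hinv z z (i3 z hzE), hσ z hzE]
    refine ⟨σ * (τ' ^ k)⁻¹, hσ₁E, ?_⟩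
    have h5 : σ (β * ζ ^ j) = (σ * (τ' ^ k)⁻¹) (β * ζ ^ j) := by
      rw [AlgEquiv.mul_apply, hinv _ _ i1]
    rw [h5, map_mul, map_pow, hσ₁ζ]
  have hζj : ζ ^ j ≠ 0 := pow_ne_zero _ hζ0
  refine ⟨β * ζ ^ j, mul_ne_zero hβ0 hζj, ?_, ?_, g / ζ ^ j, ⟨div_ne_zero hg0 hζj, n * N,
    Nat.mul_pos hn hN, fun i => x i * N, ?_⟩, ?_⟩
  · obtain ⟨s, hs, hs2⟩ := hCj
    refine ⟨s.image fun y => y * ζ ^ j, Finset.card_image_le.trans hs, fun σ hσ => ?_⟩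
    obtain ⟨σ₁, hσ₁, he⟩ := hσ1 σ hσ
    rw [he]
    exact Finset.mem_image_of_mem _ (hs2 σ₁ hσ₁)
  · intro σ hσ l hl hpow
    obtain ⟨σ₁, hσ₁, he⟩ := hσ1 σ hσ
    rw [he, mul_pow, mul_pow] at hpow
    have h5 := mul_right_cancel₀ (pow_ne_zero l hζj) hpow
    rw [he, hRed σ₁ hσ₁ l hl h5]
  · rw [div_pow, pow_mul, hgx, ← pow_mul, mul_comm n N, ← mul_assoc, mul_comm j N, mul_assoc,
      pow_mul ζ N, hζ.pow_eq_one, one_pow, div_one, ← Finset.prod_pow]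
    refine Finset.prod_congr rfl fun i _ => ?_
    rw [zpow_mul, zpow_natCast]
  · rw [hαg]
    field_simp

end Pool.Agent.H27.LG
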