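import Pool.Agent.H27.LG.Chart

/-! Galois action on the points of a commutative group scheme, and descent (MP_6b5a9a_nt). -/

open AlgebraicGeometry CategoryTheory
open scoped MonObj TensorProduct

noncomputable section

namespace Pool.H27.LG

variable {F : Type} [Field F]

section
variable {A : Over (Spec (.of F))}

/-- a point with values in a field lies in an affine chart -/
theorem exists_chart_point (A : Over (Spec (.of F))) [LocallyOfFiniteType A.hom] {K : Type} [Field K]
    [Algebra F K] (a : SO F K ⟶ A) : ∃ (B : Type) (_ : CommRing B) (_ : Algebra F B)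
      (j : SO F B ⟶ A), IsOpenImmersion j.left ∧ Algebra.FiniteType F B ∧
      ∃ φ : B →ₐ[F] K, SOm φ ≫ j = a := by
  let pt : (SO F K).left := (⊥ : PrimeSpectrum K)
  have hsub : ∀ x : (SO F K).left, x = pt := by
    intro x
    have hs : Subsingleton (PrimeSpectrum K) := inferInstance
    exact hs.elim x pt
  obtain ⟨B, _, _, j, hj, ha, hft⟩ := exists_chart A (a.left pt)
  refine ⟨B, inferInstance, inferInstance, j, hj, hft inferInstance, ?_⟩
  apply exists_lift
  rintro _ ⟨y, rfl⟩
  rw [hsub y]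
  exact ha

/-- field extensions are injective on points -/
theorem point_inj {K L : Type} [Field K] [Field L] [Algebra F K] [Algebra F L]
    [LocallyOfFiniteType A.hom] (i : K →ₐ[F] L) {b b' : SO F K ⟶ A}
    (h : SOm i ≫ b = SOm i ≫ b') : b = b' := by
  obtain ⟨B, _, _, j, hj, -, φ, hφ⟩ := exists_chart_point A b
  let pt : (SO F K).left := (⊥ : PrimeSpectrum K)
  have hsub : ∀ x : (SO F K).left, x = pt := by
    intro x
    have hs : Subsingleton (PrimeSpectrum K) := inferInstance
    exact hs.elim x pt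
  let ptL : (SO F L).left := (⊥ : PrimeSpectrum L)
  have h1 : (SOm i).left ≫ b.left = (SOm i).left ≫ b'.left := congrArg (fun m => m.left) h
  have h2 : b'.left pt = b.left pt := by
    have h3 := congrArg (fun m : (SO F L).left ⟶ A.left => m ptL) h1
    simp only [Scheme.Hom.comp_apply] at h3
    rw [hsub ((SOm i).left ptL)] at h3
    exact h3.symm
  obtain ⟨φ', hφ'⟩ := exists_lift j b' (by
    rintro _ ⟨y, rfl⟩
    rw [hsub y, h2, ← hφ]
    exact ⟨(SOm φ).left pt, by rw [← Scheme.Hom.comp_apply]; rfl⟩)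
  rw [← hφ, ← hφ', ← Category.assoc, ← Category.assoc, SOm_comp, SOm_comp] at h
  have h4 := pt_inj j h
  have h5 : φ = φ' := by
    ext x
    exact i.toRingHom.injective (congrArg (fun t : B →ₐ[F] L => t x) h4)
  rw [← hφ, ← hφ', h5]

end

section
variable (A : Over (Spec (.of F))) [GrpObj A] [IsCommMonObj A] (Ω : Type) [Field Ω] [Algebra F Ω]

/-- the additive group of points with values in Ω -/
abbrev Pts : Type := Additive (SO F Ω ⟶ A)

/-- the Galois group acts on the points -/
instance galAction : DistribMulAction (Ω ≃ₐ[F] Ω) (Pts A Ω) where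
  smul τ a := Additive.ofMul (SOm (τ : Ω →ₐ[F] Ω) ≫ a.toMul)
  one_smul a := by
    change Additive.ofMul (SOm ((1 : Ω ≃ₐ[F] Ω) : Ω →ₐ[F] Ω) ≫ a.toMul) = a
    have : ((1 : Ω ≃ₐ[F] Ω) : Ω →ₐ[F] Ω) = AlgHom.id F Ω := rfl
    rw [this, SOm_id, Category.id_comp]
    rfl
  mul_smul τ τ' a := by
    change Additive.ofMul (SOm ((τ * τ' : Ω ≃ₐ[F] Ω) : Ω →ₐ[F] Ω) ≫ a.toMul) =
      Additive.ofMul (SOm (τ : Ω →ₐ[F] Ω) ≫ (SOm (τ' : Ω →ₐ[F] Ω) ≫ a.toMul))
    rw [← Category.assoc, SOm_comp]
    rfl
  smul_zero τ := by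
    change Additive.ofMul (SOm (τ : Ω →ₐ[F] Ω) ≫ (1 : SO F Ω ⟶ A)) = Additive.ofMul 1
    rw [MonObj.comp_one]
  smul_add τ a b := by
    change Additive.ofMul (SOm (τ : Ω →ₐ[F] Ω) ≫ (a.toMul * b.toMul)) =
      Additive.ofMul ((SOm (τ : Ω →ₐ[F] Ω) ≫ a.toMul) * (SOm (τ : Ω →ₐ[F] Ω) ≫ b.toMul))
    rw [MonObj.comp_mul]

lemma smul_def (τ : Ω ≃ₐ[F] Ω) (a : Pts A Ω) :
    τ • a = Additive.ofMul (SOm (τ : Ω →ₐ[F] Ω) ≫ a.toMul) := rfl

theorem disc [LocallyOfFiniteType A.hom] [Algebra.IsAlgebraic F Ω] (a : Pts A Ω) :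
    ∃ E : IntermediateField F Ω, FiniteDimensional F E ∧ ∀ τ ∈ E.fixingSubgroup, τ • a = a := by
  obtain ⟨B, _, _, j, hj, hft, φ, hφ⟩ := exists_chart_point A a.toMul
  obtain ⟨s, hs⟩ := hft.out
  refine ⟨IntermediateField.adjoin F (φ '' (s : Set B)), ?_, ?_⟩
  · have : Finite (φ '' (s : Set B)) := (s.finite_toSet.image φ)
    exact IntermediateField.finiteDimensional_adjoin
      (fun x _ => (Algebra.IsAlgebraic.isAlgebraic (R := F) x).isIntegral)
  · intro τ hτ
    rw [smul_def]
    have h1 : (τ : Ω →ₐ[F] Ω).comp φ = φ := by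
      apply AlgHom.ext_of_adjoin_eq_top hs
      intro x hx
      exact (IntermediateField.mem_fixingSubgroup_iff _ τ).mp hτ (φ x)
        (IntermediateField.subset_adjoin F _ ⟨x, hx, rfl⟩)
    rw [← hφ, ← Category.assoc, SOm_comp, h1, hφ]
    rfl

variable {A Ω}

/-- descent of a point fixed by a subgroup of the Galois group -/
theorem descent [LocallyOfFiniteType A.hom] (H : Subgroup (Ω ≃ₐ[F] Ω)) (a : Pts A Ω)
    (ha : ∀ τ ∈ H, τ • a = a) :
    ∃ b : SO F (IntermediateField.fixedField H) ⟶ A,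
      SOm (IntermediateField.fixedField H).val ≫ b = a.toMul := by
  obtain ⟨B, _, _, j, hj, hft, φ, hφ⟩ := exists_chart_point A a.toMul
  have h1 : ∀ x : B, φ x ∈ IntermediateField.fixedField H := by
    intro x
    rw [IntermediateField.mem_fixedField_iff]
    intro τ hτ
    have h2 : SOm (τ : Ω →ₐ[F] Ω) ≫ a.toMul = a.toMul := congrArg Additive.toMul (ha τ hτ)
    rw [← hφ, ← Category.assoc, SOm_comp] at h2
    have h3 := pt_inj j h2
    exact congrArg (fun t : B →ₐ[F] Ω => t x) h3
  let φ' : B →ₐ[F] IntermediateField.fixedField H :=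
    AlgHom.codRestrict φ (IntermediateField.fixedField H).toSubalgebra h1
  refine ⟨SOm φ' ≫ j, ?_⟩
  rw [← Category.assoc, SOm_comp, ← hφ]
  rfl

/-- points over the fixed field are the fixed points -/
def fixedEquiv [LocallyOfFiniteType A.hom] (H : Subgroup (Ω ≃ₐ[F] Ω)) :
    Additive (SO F (IntermediateField.fixedField H) ⟶ A) ≃+
      FixedPoints.addSubgroup H (Pts A Ω) :=
  AddEquiv.ofBijective
    ({ toFun := fun b => ⟨Additive.ofMul (SOm (IntermediateField.fixedField H).val ≫ b.toMul), by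
          intro τ
          change Additive.ofMul (SOm ((τ : Ω ≃ₐ[F] Ω) : Ω →ₐ[F] Ω) ≫
            (SOm (IntermediateField.fixedField H).val ≫ b.toMul)) = _
          rw [← Category.assoc, SOm_comp]
          congr 3
          ext x
          exact (IntermediateField.mem_fixedField_iff H x.1).mp x.2 τ.1 τ.2⟩
       map_zero' := by
          apply Subtype.ext
          change Additive.ofMul (SOm (IntermediateField.fixedField H).val ≫
            (1 : SO F (IntermediateField.fixedField H) ⟶ A)) = Additive.ofMul 1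
          rw [MonObj.comp_one]
       map_add' := fun b b' => by
          apply Subtype.ext
          change Additive.ofMul (SOm (IntermediateField.fixedField H).val ≫
            (b.toMul * b'.toMul)) = Additive.ofMul (_ * _)
          rw [MonObj.comp_mul]
          rfl } :
      Additive (SO F (IntermediateField.fixedField H) ⟶ A) →+ FixedPoints.addSubgroup H (Pts A Ω))
    (by
      constructor
      · intro b b' h
        have h1 := congrArg Subtype.val h
        exact point_inj _ h1
      · rintro ⟨a, ha⟩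
        obtain ⟨b, hb⟩ := descent H a (fun τ hτ => ha ⟨τ, hτ⟩)
        exact ⟨Additive.ofMul b, Subtype.ext hb⟩)

theorem rank_transfer [LocallyOfFiniteType A.hom] (H : Subgroup (Ω ≃ₐ[F] Ω))
    (h : ¬ FiniteDimensional ℚ (ℚ ⊗[ℤ] FixedPoints.addSubgroup H (Pts A Ω))) :
    ¬ FiniteDimensional ℚ (ℚ ⊗[ℤ] Additive (SO F (IntermediateField.fixedField H) ⟶ A)) := by
  intro h1
  apply h
  exact LinearEquiv.finiteDimensional
    (LinearEquiv.baseChange ℤ ℚ _ _ (fixedEquiv H).toIntLinearEquiv)

end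

end Pool.H27.LG
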