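import Pool.Agent.H27.LG.Bound

/-! The coordinate ring of the curve y^l = f(x) near a root of f (MP_6b5a9a_nt). -/

open Polynomial

noncomputable section

namespace Pool.H27.LG

section
variable {K : Type} [Field K] (f : K[X]) (l : ℕ)

/-- the coordinate ring of y^l = f(x) -/
abbrev CR : Type := AdjoinRoot ((X : K[X][X]) ^ l - C f)

/-- the two coordinate functions, centered at (x₀, 0) -/
def uC (x₀ : K) : Bool → CR f l
  | true => AdjoinRoot.of _ (X - C x₀)
  | false => AdjoinRoot.root _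

lemma adjoin_uC (x₀ : K) : Algebra.adjoin K (Set.range (uC f l x₀)) = ⊤ := by
  rw [eq_top_iff]
  intro z _
  set S := Algebra.adjoin K (Set.range (uC f l x₀)) with hS
  have hX0 : AdjoinRoot.of ((X : K[X][X]) ^ l - C f) (X - C x₀) ∈ S :=
    Algebra.subset_adjoin ⟨true, rfl⟩
  have hY : AdjoinRoot.root ((X : K[X][X]) ^ l - C f) ∈ S := Algebra.subset_adjoin ⟨false, rfl⟩
  have hc : ∀ c : K, AdjoinRoot.of ((X : K[X][X]) ^ l - C f) (C c) ∈ S := fun c =>
    S.algebraMap_mem c
  have hX : AdjoinRoot.of ((X : K[X][X]) ^ l - C f) X ∈ S := by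
    have := S.add_mem hX0 (hc x₀)
    rwa [← map_add, sub_add_cancel] at this
  have hpol : ∀ p : K[X], AdjoinRoot.of ((X : K[X][X]) ^ l - C f) p ∈ S := by
    intro p
    induction p using Polynomial.induction_on' with
    | add p q hp hq => rw [map_add]; exact S.add_mem hp hq
    | monomial n a =>
      rw [← C_mul_X_pow_eq_monomial, map_mul, map_pow]
      exact S.mul_mem (hc a) (S.pow_mem hX n)
  obtain ⟨p, rfl⟩ := AdjoinRoot.mk_surjective z
  induction p using Polynomial.induction_on' with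
  | add p q hp hq => rw [map_add]; exact S.add_mem (hp trivial) (hq trivial)
  | monomial n a =>
    rw [← C_mul_X_pow_eq_monomial, map_mul, map_pow, AdjoinRoot.mk_X]
    exact S.mul_mem (hpol a) (S.pow_mem hY n)

variable {f l} in
/-- evaluation at a point of the curve -/
def evC (x y : K) (h : y ^ l = f.eval x) : CR f l →ₐ[K] K :=
  AdjoinRoot.liftAlgHom _ (aeval x) y (by
    rw [eval₂_sub, eval₂_pow, eval₂_X, eval₂_C]
    change y ^ l - aeval x f = 0
    rw [coe_aeval_eq_eval, h, sub_self])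

@[simp] lemma evC_of (x y : K) (h : y ^ l = f.eval x) (p : K[X]) :
    evC x y h (AdjoinRoot.of _ p) = p.eval x := by
  rw [evC, AdjoinRoot.liftAlgHom_of, coe_aeval_eq_eval]

@[simp] lemma evC_root (x y : K) (h : y ^ l = f.eval x) :
    evC x y h (AdjoinRoot.root _) = y := by
  rw [evC, AdjoinRoot.liftAlgHom_root]

lemma CR_algHom_ext {R : Type} [CommRing R] [Algebra K R] {π π' : CR f l →ₐ[K] R}
    (h1 : π (AdjoinRoot.of _ X) = π' (AdjoinRoot.of _ X))
    (h2 : π (AdjoinRoot.root _) = π' (AdjoinRoot.root _)) : π = π' := by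
  apply AlgHom.ext_of_adjoin_eq_top (adjoin_uC f l 0)
  rintro _ ⟨b, rfl⟩
  cases b
  · exact h2
  · change π (AdjoinRoot.of _ (X - C 0)) = π' (AdjoinRoot.of _ (X - C 0))
    rw [C_0, sub_zero]
    exact h1

/-- a nonzero function vanishes only above finitely many points of the line -/
lemma exists_poly (hl : 0 < l) [IsDomain (CR f l)] (h : CR f l) (h0 : h ≠ 0) :
    ∃ P : K[X], P ≠ 0 ∧ ∀ (x y : K) (hxy : y ^ l = f.eval x), evC x y hxy h = 0 →
      P.eval x = 0 := by
  have hm : ((X : K[X][X]) ^ l - C f).Monic := monic_X_pow_sub_C f hl.ne'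
  have hfin : Module.Finite K[X] (CR f l) := hm.finite_adjoinRoot
  have hint : IsIntegral K[X] h := Algebra.IsIntegral.isIntegral h
  have h1 := Ideal.comap_ne_bot_of_integral_mem (I := Ideal.span {h}) h0
    (Ideal.mem_span_singleton_self h) hint
  obtain ⟨P, hP, hP0⟩ := Submodule.exists_mem_ne_zero_of_ne_bot h1
  refine ⟨P, hP0, ?_⟩
  intro x y hxy hev
  rw [Ideal.mem_comap, Ideal.mem_span_singleton'] at hP
  obtain ⟨a, ha⟩ := hP
  have h2 : evC x y hxy (AdjoinRoot.of _ P) = P.eval x := evC_of f l x y hxy P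
  have h3 : AdjoinRoot.of ((X : K[X][X]) ^ l - C f) P = a * h := ha.symm
  rw [← h2, h3, map_mul, hev, mul_zero]

end

section
variable {K : Type} [Field K] {Γ₀ : Type} [LinearOrderedCommGroupWithZero Γ₀] (v : Valuation K Γ₀)

lemma exists_min_fin {ι : Type} [Finite ι] (C : ι → K) (hC : ∀ i, C i ≠ 0) :
    ∃ E : K, E ≠ 0 ∧ ∀ i, v E ≤ v (C i) := by
  obtain ⟨E, hE, h⟩ := exists_max_fin v (fun i => (C i)⁻¹) (fun i => inv_ne_zero (hC i))
  refine ⟨E⁻¹, inv_ne_zero hE, fun i => ?_⟩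
  have h1 := h i
  rw [map_inv₀] at h1 ⊢
  have h2 : 0 < v (C i) := (Valuation.pos_iff v).mpr (hC i)
  have h3 : 0 < v E := (Valuation.pos_iff v).mpr hE
  exact inv_le_of_inv_le₀ h2 h1

/-- a nonzero polynomial has no zero in a punctured neighbourhood -/
lemma exists_nonzero_near (P : K[X]) (hP : P ≠ 0) (x₀ : K) :
    ∃ c : K, c ≠ 0 ∧ ∀ x, x ≠ x₀ → v (x - x₀) < v c → P.eval x ≠ 0 := by
  classical
  obtain ⟨c, hc, h⟩ := exists_min_fin v
    (fun r : {r // r ∈ P.roots.toFinset.filter (fun r => r ≠ x₀)} => (r : K) - x₀) (by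
      rintro ⟨r, hr⟩
      exact sub_ne_zero.mpr (Finset.mem_filter.mp hr).2)
  refine ⟨c, hc, fun x hx hlt h0 => ?_⟩
  have h1 := h ⟨x, by
    rw [Finset.mem_filter, Multiset.mem_toFinset, mem_roots hP]
    exact ⟨h0, hx⟩⟩
  exact absurd hlt (not_lt.mpr h1)

/-- a polynomial vanishing at x₀ is small near x₀ -/
lemma exists_lip (P : K[X]) (x₀ : K) (h0 : P.eval x₀ = 0) :
    ∃ C : K, C ≠ 0 ∧ ∀ x, v (x - x₀) ≤ 1 → v (P.eval x) ≤ v C * v (x - x₀) := by
  have hgen : Algebra.adjoin K (Set.range (fun _ : Unit => (X - C x₀ : K[X]))) = ⊤ := by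
    rw [eq_top_iff]
    intro p _
    set S := Algebra.adjoin K (Set.range (fun _ : Unit => (X - C x₀ : K[X]))) with hS
    have h1 : (X - C x₀ : K[X]) ∈ S := Algebra.subset_adjoin ⟨(), rfl⟩
    have hc : ∀ c : K, C c ∈ S := fun c => S.algebraMap_mem c
    have hX : (X : K[X]) ∈ S := by
      have := S.add_mem h1 (hc x₀)
      rwa [sub_add_cancel] at this
    induction p using Polynomial.induction_on' with
    | add p q hp hq => exact S.add_mem (hp trivial) (hq trivial)
    | monomial n a =>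
      rw [← C_mul_X_pow_eq_monomial]
      exact S.mul_mem (hc a) (S.pow_mem hX n)
  obtain ⟨C', hC', h⟩ := bound v (aeval x₀ : K[X] →ₐ[K] K) (fun _ : Unit => (X - C x₀ : K[X])) hgen
    (by intro i; simp) P
  refine ⟨C', hC', fun x hx => ?_⟩
  have h1 := (h (aeval x) (v (x - x₀)) hx (by intro i; simp)).1
  rw [coe_aeval_eq_eval, coe_aeval_eq_eval, h0] at h1
  simpa using h1

/-- on the curve, closeness of x to x₀ makes the point close to (x₀, 0) -/
lemma exists_close (f : K[X]) (l : ℕ) (hl : 0 < l) (x₀ : K) (hx₀ : f.eval x₀ = 0) (d : K)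
    (hd : d ≠ 0) : ∃ c : K, c ≠ 0 ∧ ∀ x y : K, y ^ l = f.eval x → v (x - x₀) < v c →
      v (x - x₀) < v d ∧ v y < v d := by
  obtain ⟨C', hC', h⟩ := exists_lip v f x₀ hx₀
  have hCp : 0 < v C' := (Valuation.pos_iff v).mpr hC'
  obtain ⟨c, hc, hmin⟩ := exists_min_fin v
    (fun i : Fin 3 => (![1, d, d ^ l / C'] : Fin 3 → K) i) (by
      intro i
      fin_cases i
      · exact one_ne_zero
      · exact hd
      · exact div_ne_zero (pow_ne_zero _ hd) hC')
  have h1 : v c ≤ 1 := by simpa using hmin 0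
  have h2 : v c ≤ v d := by simpa using hmin 1
  have h3 : v c ≤ v (d ^ l / C') := by simpa using hmin 2
  refine ⟨c, hc, fun x y hxy hlt => ⟨hlt.trans_le h2, ?_⟩⟩
  have h4 := h x (hlt.trans_le h1).le
  rw [← hxy, map_pow] at h4
  have h5 : v y ^ l < v d ^ l := by
    refine lt_of_le_of_lt h4 ?_
    refine lt_of_lt_of_le (mul_lt_mul_of_pos_left (hlt.trans_le h3) hCp) ?_
    rw [map_div₀, map_pow, mul_div_cancel₀ _ hCp.ne']
  exact lt_of_pow_lt_pow_left₀ l zero_le h5

end

end Pool.H27.LG
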