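import Mathlib

/-! Points of schemes over a field with values in algebras: basic facts (MP_6b5a9a_nt). -/

open AlgebraicGeometry CategoryTheory MonObj

noncomputable section

namespace Pool.H27.LG

variable (F : Type) [Field F]

/-- the F-scheme Spec R of an F-algebra R -/
abbrev SO (R : Type) [CommRing R] [Algebra F R] : Over (Spec (.of F)) :=
  Over.mk (Spec.map (CommRingCat.ofHom (algebraMap F R)))

variable {F}

section
variable {R S T : Type} [CommRing R] [CommRing S] [CommRing T] [Algebra F R] [Algebra F S] [Algebra F T]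

/-- the morphism of F-schemes given by a homomorphism of F-algebras -/
def SOm (f : R →ₐ[F] S) : SO F S ⟶ SO F R :=
  Over.homMk (Spec.map (CommRingCat.ofHom f.toRingHom)) (by
    change Spec.map _ ≫ Spec.map _ = Spec.map _
    rw [← Spec.map_comp, ← CommRingCat.ofHom_comp]
    congr 2
    exact f.comp_algebraMap)

lemma SOm_left (f : R →ₐ[F] S) : (SOm f).left = Spec.map (CommRingCat.ofHom f.toRingHom) := rfl

lemma SOm_comp (f : R →ₐ[F] S) (g : S →ₐ[F] T) : SOm g ≫ SOm f = SOm (g.comp f) := by
  apply Over.OverMorphism.ext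
  change Spec.map _ ≫ Spec.map _ = Spec.map _
  rw [← Spec.map_comp, ← CommRingCat.ofHom_comp]
  rfl

lemma SOm_id : SOm (AlgHom.id F R) = 𝟙 (SO F R) := by
  apply Over.OverMorphism.ext
  change Spec.map _ = 𝟙 _
  exact Spec.map_id _

lemma SOm_inj {f g : R →ₐ[F] S} (h : SOm f = SOm g) : f = g := by
  have h1 : Spec.map (CommRingCat.ofHom f.toRingHom) = Spec.map (CommRingCat.ofHom g.toRingHom) :=
    congrArg (fun m => m.left) h
  have h2 := Spec.map_injective h1
  have h3 : f.toRingHom = g.toRingHom := congrArg CommRingCat.Hom.hom h2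
  ext x
  exact congrArg (fun m : R →+* S => m x) h3

lemma SOm_surj (m : SO F S ⟶ SO F R) : ∃ f : R →ₐ[F] S, SOm f = m := by
  have hw : m.left ≫ Spec.map (CommRingCat.ofHom (algebraMap F R)) =
      Spec.map (CommRingCat.ofHom (algebraMap F S)) := Over.w m
  let φ : CommRingCat.of R ⟶ CommRingCat.of S := Spec.preimage m.left
  have hφ : Spec.map φ = m.left := Spec.map_preimage m.left
  rw [← hφ, ← Spec.map_comp] at hw
  have h2 := Spec.map_injective hw
  have h3 : ∀ r : F, φ.hom (algebraMap F R r) = algebraMap F S r := fun r => by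
    have := congrArg (fun t => t.hom r) h2
    simpa using this
  refine ⟨{ φ.hom with commutes' := h3 }, ?_⟩
  apply Over.OverMorphism.ext
  rw [← hφ]
  rfl

end

end Pool.H27.LG
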