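import Mathlib

/-! Estimates for points near the identity (MP_6b5a9a_nt). -/

open scoped TensorProduct
open Algebra.TensorProduct

noncomputable section

namespace Pool.H27.LG

section
variable {F Ω : Type} [Field F] [Field Ω] [Algebra F Ω] {Γ₀ : Type}
  [LinearOrderedCommGroupWithZero Γ₀] (v : Valuation Ω Γ₀)

lemma exists_max {C D : Ω} (hC : C ≠ 0) (hD : D ≠ 0) : ∃ E : Ω, E ≠ 0 ∧ v C ≤ v E ∧ v D ≤ v E := by
  rcases le_total (v C) (v D) with h | h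
  · exact ⟨D, hD, h, le_refl _⟩
  · exact ⟨C, hC, le_refl _, h⟩

lemma exists_max_fin {ι : Type} [Finite ι] (C : ι → Ω) (hC : ∀ i, C i ≠ 0) :
    ∃ E : Ω, E ≠ 0 ∧ ∀ i, v (C i) ≤ v E := by
  classical
  have := Fintype.ofFinite ι
  have key : ∀ s : Finset ι, ∃ E : Ω, E ≠ 0 ∧ ∀ i ∈ s, v (C i) ≤ v E := by
    intro s
    induction s using Finset.induction_on with
    | empty => exact ⟨1, one_ne_zero, by simp⟩
    | insert a s ha ih =>
      obtain ⟨E, hE, h⟩ := ih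
      obtain ⟨E', hE', h1, h2⟩ := exists_max v hE (hC a)
      refine ⟨E', hE', ?_⟩
      intro i hi
      rcases Finset.mem_insert.mp hi with rfl | hi
      · exact h2
      · exact (h i hi).trans h1
  obtain ⟨E, hE, h⟩ := key Finset.univ
  exact ⟨E, hE, fun i => h i (Finset.mem_univ i)⟩

variable {B : Type} [CommRing B] [Algebra F B] (ε : B →ₐ[F] F) {ι : Type} (u : ι → B)

/-- all coordinates have value at most ρ -/
def Sm (φ : B →ₐ[F] Ω) (ρ : Γ₀) : Prop := ∀ i, v (φ (u i)) ≤ ρ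

variable (hu : Algebra.adjoin F (Set.range u) = ⊤) (hε : ∀ i, ε (u i) = 0)

include hu hε in
theorem bound (b : B) : ∃ C : Ω, C ≠ 0 ∧ ∀ (φ : B →ₐ[F] Ω) (ρ : Γ₀), ρ ≤ 1 → Sm v u φ ρ →
    v (φ b - algebraMap F Ω (ε b)) ≤ v C * ρ ∧ v (φ b) ≤ v C := by
  have hb : b ∈ Algebra.adjoin F (Set.range u) := by rw [hu]; trivial
  -- first without the second estimate
  have step : ∀ b : B, (∃ C : Ω, C ≠ 0 ∧ ∀ (φ : B →ₐ[F] Ω) (ρ : Γ₀), ρ ≤ 1 → Sm v u φ ρ →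
      v (φ b - algebraMap F Ω (ε b)) ≤ v C * ρ) → ∃ C : Ω, C ≠ 0 ∧ ∀ (φ : B →ₐ[F] Ω) (ρ : Γ₀),
      ρ ≤ 1 → Sm v u φ ρ → v (φ b - algebraMap F Ω (ε b)) ≤ v C * ρ ∧ v (φ b) ≤ v C := by
    rintro b ⟨C, hC, h⟩
    obtain ⟨D, hD, h1⟩ : ∃ D : Ω, D ≠ 0 ∧ v (algebraMap F Ω (ε b)) ≤ v D := by
      by_cases h0 : algebraMap F Ω (ε b) = 0
      · exact ⟨1, one_ne_zero, by rw [h0]; simp⟩
      · exact ⟨_, h0, le_refl _⟩
    obtain ⟨E, hE, h2, h3⟩ := exists_max v hC hD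
    refine ⟨E, hE, fun φ ρ hρ hφ => ⟨(h φ ρ hρ hφ).trans (mul_le_mul_left h2 ρ), ?_⟩⟩
    have h4 : φ b = (φ b - algebraMap F Ω (ε b)) + algebraMap F Ω (ε b) := by ring
    rw [h4]
    refine (v.map_add _ _).trans (max_le ?_ (h1.trans h3))
    refine (h φ ρ hρ hφ).trans ((mul_le_mul_left h2 ρ).trans ?_)
    exact mul_le_of_le_one_right' hρ
  apply step
  induction hb using Algebra.adjoin_induction with
  | mem x hx =>
    obtain ⟨i, rfl⟩ := hx
    refine ⟨1, one_ne_zero, fun φ ρ hρ hφ => ?_⟩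
    rw [hε i, map_zero, sub_zero, map_one, one_mul]
    exact hφ i
  | algebraMap r =>
    refine ⟨1, one_ne_zero, fun φ ρ hρ hφ => ?_⟩
    rw [AlgHom.commutes, AlgHom.commutes]
    simp
  | add x y hx hy ihx ihy =>
    obtain ⟨C, hC, h1⟩ := ihx
    obtain ⟨D, hD, h2⟩ := ihy
    obtain ⟨E, hE, h3, h4⟩ := exists_max v hC hD
    refine ⟨E, hE, fun φ ρ hρ hφ => ?_⟩
    have h5 : φ (x + y) - algebraMap F Ω (ε (x + y)) =
        (φ x - algebraMap F Ω (ε x)) + (φ y - algebraMap F Ω (ε y)) := by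
      rw [map_add, map_add, map_add]; ring
    rw [h5]
    exact (v.map_add _ _).trans (max_le ((h1 φ ρ hρ hφ).trans (mul_le_mul_left h3 ρ))
      ((h2 φ ρ hρ hφ).trans (mul_le_mul_left h4 ρ)))
  | mul x y hx hy ihx ihy =>
    obtain ⟨C, hC, h1⟩ := step x ihx
    obtain ⟨D, hD, h2⟩ := step y ihy
    obtain ⟨D', hD', h1'⟩ : ∃ D : Ω, D ≠ 0 ∧ v (algebraMap F Ω (ε y)) ≤ v D := by
      by_cases h0 : algebraMap F Ω (ε y) = 0
      · exact ⟨1, one_ne_zero, by rw [h0]; simp⟩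
      · exact ⟨_, h0, le_refl _⟩
    obtain ⟨E, hE, h3, h4⟩ := exists_max v (mul_ne_zero hC hD) (mul_ne_zero hC hD')
    refine ⟨E, hE, fun φ ρ hρ hφ => ?_⟩
    have h5 : φ (x * y) - algebraMap F Ω (ε (x * y)) =
        φ x * (φ y - algebraMap F Ω (ε y)) + (φ x - algebraMap F Ω (ε x)) * algebraMap F Ω (ε y) := by
      rw [map_mul, map_mul, map_mul]; ring
    rw [h5]
    refine (v.map_add _ _).trans (max_le ?_ ?_)
    · rw [map_mul]
      refine (mul_le_mul' (h1 φ ρ hρ hφ).2 (h2 φ ρ hρ hφ).1).trans ?_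
      rw [← mul_assoc, ← map_mul]
      exact mul_le_mul_left h3 ρ
    · rw [map_mul]
      refine (mul_le_mul' (h1 φ ρ hρ hφ).1 h1').trans ?_
      rw [mul_right_comm, ← map_mul]
      exact mul_le_mul_left h4 ρ

include hu hε in
theorem bound_tmul (w : B ⊗[F] B) : ∃ C : Ω, C ≠ 0 ∧ ∀ (φ ψ : B →ₐ[F] Ω) (ρ : Γ₀), ρ ≤ 1 →
    Sm v u φ ρ → Sm v u ψ ρ →
    v (productMap φ ψ w - algebraMap F Ω (productMap ε ε w)) ≤ v C * ρ := by
  induction w using TensorProduct.induction_on with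
  | zero => exact ⟨1, one_ne_zero, fun φ ψ ρ _ _ _ => by simp⟩
  | tmul x y =>
    obtain ⟨C, hC, h1⟩ := bound v ε u hu hε x
    obtain ⟨D, hD, h2⟩ := bound v ε u hu hε y
    obtain ⟨D', hD', h1'⟩ : ∃ D : Ω, D ≠ 0 ∧ v (algebraMap F Ω (ε y)) ≤ v D := by
      by_cases h0 : algebraMap F Ω (ε y) = 0
      · exact ⟨1, one_ne_zero, by rw [h0]; simp⟩
      · exact ⟨_, h0, le_refl _⟩
    obtain ⟨E, hE, h3, h4⟩ := exists_max v (mul_ne_zero hC hD) (mul_ne_zero hC hD')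
    refine ⟨E, hE, fun φ ψ ρ hρ hφ hψ => ?_⟩
    rw [productMap_apply_tmul, productMap_apply_tmul]
    have h5 : φ x * ψ y - algebraMap F Ω (ε x * ε y) =
        φ x * (ψ y - algebraMap F Ω (ε y)) + (φ x - algebraMap F Ω (ε x)) * algebraMap F Ω (ε y) := by
      rw [map_mul]; ring
    rw [h5]
    refine (v.map_add _ _).trans (max_le ?_ ?_)
    · rw [map_mul]
      refine (mul_le_mul' (h1 φ ρ hρ hφ).2 (h2 ψ ρ hρ hψ).1).trans ?_
      rw [← mul_assoc, ← map_mul]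
      exact mul_le_mul_left h3 ρ
    · rw [map_mul]
      refine (mul_le_mul' (h1 φ ρ hρ hφ).1 h1').trans ?_
      rw [mul_right_comm, ← map_mul]
      exact mul_le_mul_left h4 ρ
  | add x y ihx ihy =>
    obtain ⟨C, hC, h1⟩ := ihx
    obtain ⟨D, hD, h2⟩ := ihy
    obtain ⟨E, hE, h3, h4⟩ := exists_max v hC hD
    refine ⟨E, hE, fun φ ψ ρ hρ hφ hψ => ?_⟩
    have h5 : productMap φ ψ (x + y) - algebraMap F Ω (productMap ε ε (x + y)) =
        (productMap φ ψ x - algebraMap F Ω (productMap ε ε x)) +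
        (productMap φ ψ y - algebraMap F Ω (productMap ε ε y)) := by
      rw [map_add, map_add, map_add]; ring
    rw [h5]
    exact (v.map_add _ _).trans (max_le ((h1 φ ψ ρ hρ hφ hψ).trans (mul_le_mul_left h3 ρ))
      ((h2 φ ψ ρ hρ hφ hψ).trans (mul_le_mul_left h4 ρ)))

/-- the base point with values in Ω -/
abbrev eO (Ω : Type) [Field Ω] [Algebra F Ω] : B →ₐ[F] Ω := (Algebra.ofId F Ω).comp ε

include hu hε in
theorem bound_bil (w : B ⊗[F] B) : ∃ C : Ω, C ≠ 0 ∧ ∀ (φ ψ : B →ₐ[F] Ω) (ρ σ : Γ₀), ρ ≤ 1 →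
    σ ≤ 1 → Sm v u φ ρ → Sm v u ψ σ →
    v (productMap φ ψ w - productMap φ (eO ε Ω) w - productMap (eO ε Ω) ψ w +
      productMap (eO ε Ω) (eO ε Ω) w) ≤ v C * (ρ * σ) := by
  induction w using TensorProduct.induction_on with
  | zero => exact ⟨1, one_ne_zero, fun φ ψ ρ σ _ _ _ _ => by simp⟩
  | tmul x y =>
    obtain ⟨C, hC, h1⟩ := bound v ε u hu hε x
    obtain ⟨D, hD, h2⟩ := bound v ε u hu hε y
    refine ⟨C * D, mul_ne_zero hC hD, fun φ ψ ρ σ hρ hσ hφ hψ => ?_⟩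
    simp only [productMap_apply_tmul]
    have h5 : φ x * ψ y - φ x * (eO ε Ω) y - (eO ε Ω) x * ψ y + (eO ε Ω) x * (eO ε Ω) y =
        (φ x - algebraMap F Ω (ε x)) * (ψ y - algebraMap F Ω (ε y)) := by
      have e1 : ∀ z, (eO ε Ω) z = algebraMap F Ω (ε z) := fun _ => rfl
      rw [e1, e1]; ring
    rw [h5, map_mul, map_mul]
    refine (mul_le_mul' (h1 φ ρ hρ hφ).1 (h2 ψ σ hσ hψ).1).trans (le_of_eq ?_)
    exact mul_mul_mul_comm _ _ _ _
  | add x y ihx ihy =>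
    obtain ⟨C, hC, h1⟩ := ihx
    obtain ⟨D, hD, h2⟩ := ihy
    obtain ⟨E, hE, h3, h4⟩ := exists_max v hC hD
    refine ⟨E, hE, fun φ ψ ρ σ hρ hσ hφ hψ => ?_⟩
    have h5 : productMap φ ψ (x + y) - productMap φ (eO ε Ω) (x + y) -
        productMap (eO ε Ω) ψ (x + y) + productMap (eO ε Ω) (eO ε Ω) (x + y) =
        (productMap φ ψ x - productMap φ (eO ε Ω) x - productMap (eO ε Ω) ψ x +
          productMap (eO ε Ω) (eO ε Ω) x) + (productMap φ ψ y - productMap φ (eO ε Ω) y -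
          productMap (eO ε Ω) ψ y + productMap (eO ε Ω) (eO ε Ω) y) := by
      simp only [map_add]; ring
    rw [h5]
    exact (v.map_add _ _).trans (max_le ((h1 φ ψ ρ σ hρ hσ hφ hψ).trans (mul_le_mul_left h3 _))
      ((h2 φ ψ ρ σ hρ hσ hφ hψ).trans (mul_le_mul_left h4 _)))

end

end Pool.H27.LG
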