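import Pool.Agent.H27.LG.Basic

/-! Affine charts of schemes over a field, in terms of algebra homomorphisms (MP_6b5a9a_nt). -/

open AlgebraicGeometry CategoryTheory MonObj

noncomputable section

namespace Pool.H27.LG

variable {F : Type} [Field F]

section
variable {A : Over (Spec (.of F))} {B : Type} [CommRing B] [Algebra F B] (j : SO F B ⟶ A)

lemma pt_inj [IsOpenImmersion j.left] {R : Type} [CommRing R] [Algebra F R] {φ ψ : B →ₐ[F] R}
    (h : SOm φ ≫ j = SOm ψ ≫ j) : φ = ψ := by
  apply SOm_inj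
  apply Over.OverMorphism.ext
  have h1 : (SOm φ).left ≫ j.left = (SOm ψ).left ≫ j.left := congrArg (fun m => m.left) h
  exact (cancel_mono j.left).mp h1

theorem exists_lift [IsOpenImmersion j.left] {R : Type} [CommRing R] [Algebra F R] (P : SO F R ⟶ A)
    (h : Set.range P.left ⊆ Set.range j.left) : ∃ φ : B →ₐ[F] R, SOm φ ≫ j = P := by
  let l : (SO F R).left ⟶ (SO F B).left := IsOpenImmersion.lift j.left P.left h
  have hl : l ≫ j.left = P.left := IsOpenImmersion.lift_fac j.left P.left h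
  let m : SO F R ⟶ SO F B := Over.homMk l (by
    have h1 : (SO F B).hom = j.left ≫ A.hom := (Over.w j).symm
    have h2 : (SO F R).hom = P.left ≫ A.hom := (Over.w P).symm
    rw [h1, h2, ← hl, Category.assoc])
  obtain ⟨φ, hφ⟩ := SOm_surj m
  refine ⟨φ, ?_⟩
  rw [hφ]
  apply Over.OverMorphism.ext
  exact hl

theorem exists_local [IsOpenImmersion j.left] {R : Type} [CommRing R] [Algebra F R]
    {Ω : Type} [Field Ω] [Algebra F Ω] (P : SO F R ⟶ A) (q : R →ₐ[F] Ω) (ψ : B →ₐ[F] Ω)
    (h : SOm q ≫ P = SOm ψ ≫ j) :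
    ∃ g : R, q g ≠ 0 ∧ ∃ φ : B →ₐ[F] Localization.Away g,
      SOm φ ≫ j = SOm (IsScalarTower.toAlgHom F R (Localization.Away g)) ≫ P := by
  let pt : (SO F Ω).left := (⊥ : PrimeSpectrum Ω)
  let x : (SO F R).left := (SOm q).left pt
  have hx : x ∈ P.left ⁻¹ᵁ j.left.opensRange := by
    change P.left ((SOm q).left pt) ∈ Set.range j.left
    have h1 : (SOm q).left ≫ P.left = (SOm ψ).left ≫ j.left := congrArg (fun m => m.left) h
    have h2 : P.left ((SOm q).left pt) = j.left ((SOm ψ).left pt) := by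
      rw [← Scheme.Hom.comp_apply, h1, Scheme.Hom.comp_apply]
    rw [h2]
    exact ⟨_, rfl⟩
  obtain ⟨_, ⟨_, ⟨g, rfl⟩, rfl⟩, hr, hr'⟩ :=
    (PrimeSpectrum.isBasis_basic_opens (R := R)).exists_subset_of_mem_open
      (a := (x : PrimeSpectrum R)) (u := (P.left ⁻¹ᵁ j.left.opensRange).1) hx
      (P.left ⁻¹ᵁ j.left.opensRange).2
  refine ⟨g, ?_, ?_⟩
  · intro hg
    apply hr
    change g ∈ (Ideal.comap q.toRingHom ⊥)
    rw [Ideal.mem_comap]
    exact hg
  · apply exists_lift
    rintro _ ⟨y, rfl⟩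
    have hy : PrimeSpectrum.comap (algebraMap R (Localization.Away g)) y ∈
        (PrimeSpectrum.basicOpen g : Set (PrimeSpectrum R)) := by
      rw [← PrimeSpectrum.localization_away_comap_range (Localization.Away g) g]
      exact ⟨y, rfl⟩
    exact hr' hy

end

theorem exists_chart (A : Over (Spec (.of F))) (a : A.left) :
    ∃ (B : Type) (_ : CommRing B) (_ : Algebra F B) (j : SO F B ⟶ A), IsOpenImmersion j.left ∧
      a ∈ Set.range j.left ∧ (LocallyOfFiniteType A.hom → Algebra.FiniteType F B) := by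
  obtain ⟨R, f, hf, ha, -⟩ := Scheme.exists_affine_mem_range_and_range_subset (X := A.left) (x := a)
    (U := ⊤) (by trivial)
  let φ : CommRingCat.of F ⟶ R := Spec.preimage (f ≫ A.hom)
  have hφ : Spec.map φ = f ≫ A.hom := Spec.map_preimage _
  let _ : Algebra F R := φ.hom.toAlgebra
  have hm : Spec.map (CommRingCat.ofHom (algebraMap F R)) = f ≫ A.hom := hφ
  refine ⟨R, inferInstance, inferInstance, Over.homMk f hm.symm, hf, ha, ?_⟩
  intro hA
  have h1 : LocallyOfFiniteType (f ≫ A.hom) := inferInstance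
  rw [← hm] at h1
  have h2 := (HasRingHomProperty.Spec_iff (P := @LocallyOfFiniteType)).mp h1
  exact h2

end Pool.H27.LG
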