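import Pool.Agent.H27.LG.Basic

/-! Morphisms from an integral affine scheme are determined on a basic open set (MP_6b5a9a_nt). -/

open AlgebraicGeometry CategoryTheory

noncomputable section

namespace Pool.H27.LG

variable {F : Type} [Field F]

theorem eq_of_away {A : Over (Spec (.of F))} [IsSeparated A.hom] {R : Type} [CommRing R] [IsDomain R]
    [Algebra F R] (g : R) (hg : g ≠ 0) (P Q : SO F R ⟶ A)
    (h : SOm (IsScalarTower.toAlgHom F R (Localization.Away g)) ≫ P =
      SOm (IsScalarTower.toAlgHom F R (Localization.Away g)) ≫ Q) : P = Q := by
  apply Over.OverMorphism.ext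
  have h1 : P.left ≫ A.hom = Q.left ≫ A.hom := by rw [Over.w P, Over.w Q]
  have hd : IsDominant (SOm (IsScalarTower.toAlgHom F R (Localization.Away g))).left := by
    constructor
    have h2 : Function.Injective (algebraMap R (Localization.Away g)) :=
      IsLocalization.injective _ (powers_le_nonZeroDivisors_of_noZeroDivisors hg)
    change DenseRange (PrimeSpectrum.comap (algebraMap R (Localization.Away g)))
    rw [PrimeSpectrum.denseRange_comap_iff_ker_le_nilRadical]
    rw [(RingHom.injective_iff_ker_eq_bot _).mp h2]
    exact bot_le
  have hr : IsReduced (SO F R).left := by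
    change IsReduced (Spec (.of R))
    infer_instance
  have h3 : (SOm (IsScalarTower.toAlgHom F R (Localization.Away g))).left ≫ P.left =
      (SOm (IsScalarTower.toAlgHom F R (Localization.Away g))).left ≫ Q.left :=
    congrArg (fun m => m.left) h
  exact ext_of_isDominant_of_isSeparated A.hom h1 _ h3

end Pool.H27.LG
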