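import Pool.Agent.H27.LG.Law

/-! Density and local charts on a localised affine scheme (MP_6b5a9a_nt). -/

open AlgebraicGeometry CategoryTheory

noncomputable section

namespace Pool.H27.LG

variable {F : Type} [Field F]

theorem eq_of_inj {A : Over (Spec (.of F))} [IsSeparated A.hom] {R S : Type} [CommRing R]
    [IsDomain R] [CommRing S] [Algebra F R] [Algebra F S] (ρ : R →ₐ[F] S)
    (hρ : Function.Injective ρ) (P Q : SO F R ⟶ A) (h : SOm ρ ≫ P = SOm ρ ≫ Q) : P = Q := by
  apply Over.OverMorphism.ext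
  have h1 : P.left ≫ A.hom = Q.left ≫ A.hom := by rw [Over.w P, Over.w Q]
  have hd : IsDominant (SOm ρ).left := by
    constructor
    change DenseRange (PrimeSpectrum.comap ρ.toRingHom)
    rw [PrimeSpectrum.denseRange_comap_iff_ker_le_nilRadical]
    rw [(RingHom.injective_iff_ker_eq_bot ρ.toRingHom).mp hρ]
    exact bot_le
  have hr : IsReduced (SO F R).left := by
    change IsReduced (Spec (.of R))
    infer_instance
  have h3 : (SOm ρ).left ≫ P.left = (SOm ρ).left ≫ Q.left := congrArg (fun m => m.left) h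
  exact ext_of_isDominant_of_isSeparated A.hom h1 _ h3

/-- a local chart of a morphism defined on a basic open set, in terms of the whole ring -/
theorem exists_local_away {A : Over (Spec (.of F))} {B : Type} [CommRing B] [Algebra F B]
    (j : SO F B ⟶ A) [IsOpenImmersion j.left] {R : Type} [CommRing R] [Algebra F R]
    {Ω : Type} [Field Ω] [Algebra F Ω] (g₀ : R) (P : SO F (Localization.Away g₀) ⟶ A)
    (q : R →ₐ[F] Ω) (q' : Localization.Away g₀ →ₐ[F] Ω)
    (hq' : q'.comp (IsScalarTower.toAlgHom F R (Localization.Away g₀)) = q) (ψ : B →ₐ[F] Ω)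
    (h : SOm q' ≫ P = SOm ψ ≫ j) :
    ∃ g : R, q g ≠ 0 ∧ ∃ ρ : Localization.Away g₀ →ₐ[F] Localization.Away g,
      ρ.comp (IsScalarTower.toAlgHom F R (Localization.Away g₀)) =
        IsScalarTower.toAlgHom F R (Localization.Away g) ∧
      ∃ φ : B →ₐ[F] Localization.Away g, SOm φ ≫ j = SOm ρ ≫ P := by
  obtain ⟨g', hg', φ', hφ'⟩ := exists_local j P q' ψ h
  obtain ⟨n, a, ha⟩ := IsLocalization.Away.surj g₀ g'
  have hqa : ∀ r : R, q' (algebraMap R (Localization.Away g₀) r) = q r := fun r =>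
    congrArg (fun t : R →ₐ[F] Ω => t r) hq'
  have hg₀ : q g₀ ≠ 0 := by
    rw [← hqa g₀]
    exact ((IsLocalization.Away.algebraMap_isUnit (S := Localization.Away g₀) g₀).map q').ne_zero
  have hqaa : q a ≠ 0 := by
    rw [← hqa a, ← ha, map_mul, map_pow, hqa]
    exact mul_ne_zero hg' (pow_ne_zero _ hg₀)
  have hu : IsUnit (algebraMap R (Localization.Away (g₀ * a)) (g₀ * a)) :=
    IsLocalization.Away.algebraMap_isUnit (g₀ * a)
  have hu0 : IsUnit (IsScalarTower.toAlgHom F R (Localization.Away (g₀ * a)) g₀) := by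
    change IsUnit (algebraMap R (Localization.Away (g₀ * a)) g₀)
    rw [map_mul] at hu
    exact isUnit_of_mul_isUnit_left hu
  have hua : IsUnit (algebraMap R (Localization.Away (g₀ * a)) a) := by
    rw [map_mul] at hu
    exact isUnit_of_mul_isUnit_right hu
  obtain ⟨ρ, hρ⟩ := ext_away g₀ (IsScalarTower.toAlgHom F R (Localization.Away (g₀ * a))) hu0
  have hρr : ∀ r : R, ρ (algebraMap R (Localization.Away g₀) r) =
      algebraMap R (Localization.Away (g₀ * a)) r := fun r =>
    congrArg (fun t : R →ₐ[F] Localization.Away (g₀ * a) => t r) hρ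
  have hug' : IsUnit (ρ g') := by
    have h1 := congrArg ρ ha
    rw [map_mul, hρr] at h1
    rw [← h1] at hua
    exact isUnit_of_mul_isUnit_left hua
  obtain ⟨ρ', hρ'⟩ := ext_away g' ρ hug'
  refine ⟨g₀ * a, ?_, ρ, hρ, ρ'.comp φ', ?_⟩
  · rw [map_mul]
    exact mul_ne_zero hg₀ hqaa
  · rw [← SOm_comp, Category.assoc, hφ', ← Category.assoc, SOm_comp, hρ']

end Pool.H27.LG
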