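import Pool.Agent.H27.LG.Law
import Pool.Agent.H27.LG.Descent
import Pool.Agent.H27.LG.Curve

/-! A morphism from a curve over the separable closure is defined over a finite extension, in the
form of equivariance on points (MP_6b5a9a_nt). -/

open AlgebraicGeometry CategoryTheory
open scoped MonObj TensorProduct

noncomputable section

namespace Pool.H27.LG

section
variable {F : Type} [Field F] {A : Over (Spec (.of F))} {B : Type} [CommRing B] [Algebra F B]
  (j : SO F B ⟶ A)

theorem exists_local_prime [IsOpenImmersion j.left] {R : Type} [CommRing R] [Algebra F R]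
    (P : SO F R ⟶ A) (z : PrimeSpectrum R) (hz : P.left z ∈ Set.range j.left) :
    ∃ g : R, g ∉ z.asIdeal ∧ ∃ φ : B →ₐ[F] Localization.Away g,
      SOm φ ≫ j = SOm (IsScalarTower.toAlgHom F R (Localization.Away g)) ≫ P := by
  obtain ⟨_, ⟨_, ⟨g, rfl⟩, rfl⟩, hr, hr'⟩ :=
    (PrimeSpectrum.isBasis_basic_opens (R := R)).exists_subset_of_mem_open
      (a := z) (u := (P.left ⁻¹ᵁ j.left.opensRange).1) hz
      (P.left ⁻¹ᵁ j.left.opensRange).2
  refine ⟨g, hr, ?_⟩
  apply exists_lift
  rintro _ ⟨y, rfl⟩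
  have hy : PrimeSpectrum.comap (algebraMap R (Localization.Away g)) y ∈
      (PrimeSpectrum.basicOpen g : Set (PrimeSpectrum R)) := by
    rw [← PrimeSpectrum.localization_away_comap_range (Localization.Away g) g]
    exact ⟨y, rfl⟩
  exact hr' hy

end

section
variable {F K : Type} [Field F] [Field K] [Algebra F K] [Algebra.IsAlgebraic F K]
  (f : Polynomial K) (l : ℕ)

omit [Algebra.IsAlgebraic F K] in
lemma fix_sup_left {L L' : IntermediateField F K} {τ : K ≃ₐ[F] K}
    (h : τ ∈ (L ⊔ L').fixingSubgroup) : τ ∈ L.fixingSubgroup :=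
  IntermediateField.fixingSubgroup_antitone le_sup_left h

omit [Algebra.IsAlgebraic F K] in
lemma fix_sup_right {L L' : IntermediateField F K} {τ : K ≃ₐ[F] K}
    (h : τ ∈ (L ⊔ L').fixingSubgroup) : τ ∈ L'.fixingSubgroup :=
  IntermediateField.fixingSubgroup_antitone le_sup_right h

/-- values of a function on the curve are equivariant over a finite extension -/
lemma exists_field_fun (w : CR f l) : ∃ L : IntermediateField F K, FiniteDimensional F L ∧
    ∀ τ ∈ L.fixingSubgroup, ∀ (x y : K) (h : y ^ l = f.eval x)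
      (h' : (τ y) ^ l = f.eval (τ x)), τ (evC x y h w) = evC (τ x) (τ y) h' w := by
  have hw : w ∈ Algebra.adjoin K (Set.range (uC f l 0)) := by rw [adjoin_uC]; trivial
  induction hw using Algebra.adjoin_induction with
  | mem w hw =>
    refine ⟨⊥, inferInstance, ?_⟩
    obtain ⟨b, rfl⟩ := hw
    intro τ _ x y h h'
    cases b
    · change τ (evC x y h (AdjoinRoot.root _)) = evC _ _ h' (AdjoinRoot.root _)
      rw [evC_root, evC_root]
    · change τ (evC x y h (AdjoinRoot.of _ _)) = evC _ _ h' (AdjoinRoot.of _ _)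
      rw [evC_of, evC_of]
      simp
  | algebraMap c =>
    refine ⟨IntermediateField.adjoin F {c}, ?_, ?_⟩
    · exact IntermediateField.adjoin.finiteDimensional
        (Algebra.IsAlgebraic.isAlgebraic (R := F) c).isIntegral
    · intro τ hτ x y h h'
      rw [AlgHom.commutes, AlgHom.commutes]
      exact (IntermediateField.mem_fixingSubgroup_iff _ τ).mp hτ c
        (IntermediateField.mem_adjoin_simple_self F c)
  | add a b _ _ iha ihb =>
    obtain ⟨L, hL, h1⟩ := iha
    obtain ⟨L', hL', h2⟩ := ihb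
    refine ⟨L ⊔ L', inferInstance, ?_⟩
    intro τ hτ x y h h'
    rw [map_add, map_add, map_add, h1 τ (fix_sup_left hτ) x y h h',
      h2 τ (fix_sup_right hτ) x y h h']
  | mul a b _ _ iha ihb =>
    obtain ⟨L, hL, h1⟩ := iha
    obtain ⟨L', hL', h2⟩ := ihb
    refine ⟨L ⊔ L', inferInstance, ?_⟩
    intro τ hτ x y h h'
    rw [map_mul, map_mul, map_mul, h1 τ (fix_sup_left hτ) x y h h',
      h2 τ (fix_sup_right hτ) x y h h']

/-- finitely many functions at once -/
lemma exists_field_finset (s : Finset (CR f l)) : ∃ L : IntermediateField F K,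
    FiniteDimensional F L ∧ ∀ w ∈ s, ∀ τ ∈ L.fixingSubgroup, ∀ (x y : K) (h : y ^ l = f.eval x)
      (h' : (τ y) ^ l = f.eval (τ x)), τ (evC x y h w) = evC (τ x) (τ y) h' w := by
  classical
  induction s using Finset.induction_on with
  | empty => exact ⟨⊥, inferInstance, by simp⟩
  | insert a s ha ih =>
    obtain ⟨L, hL, h1⟩ := ih
    obtain ⟨L', hL', h2⟩ := exists_field_fun (F := F) f l a
    refine ⟨L ⊔ L', inferInstance, ?_⟩
    intro w hw τ hτ x y h h'
    rcases Finset.mem_insert.mp hw with rfl | hw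
    · exact h2 τ (fix_sup_right hτ) x y h h'
    · exact h1 w hw τ (fix_sup_left hτ) x y h h'

variable {A : Over (Spec (.of F))} (δ : SO F (CR f l) ⟶ A)

/-- equivariance of the values of a morphism where a given function does not vanish -/
def Good (g : CR f l) : Prop :=
  ∃ L : IntermediateField F K, FiniteDimensional F L ∧
    ∀ τ ∈ L.fixingSubgroup, ∀ (x y : K) (h : y ^ l = f.eval x) (h' : (τ y) ^ l = f.eval (τ x)),
      evC x y h g ≠ 0 → SOm (τ : K →ₐ[F] K) ≫ SOm ((evC x y h).restrictScalars F) ≫ δ =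
        SOm ((evC (τ x) (τ y) h').restrictScalars F) ≫ δ

/-- the good functions form an ideal -/
def goodIdeal : Ideal (CR f l) where
  carrier := {g | Good f l δ g}
  zero_mem' := ⟨⊥, inferInstance, fun τ _ x y h h' h0 => absurd (map_zero _) h0⟩
  add_mem' := by
    rintro a b ⟨L, hL, h1⟩ ⟨L', hL', h2⟩
    refine ⟨L ⊔ L', inferInstance, ?_⟩
    intro τ hτ x y h h' h0
    by_cases ha : evC x y h a = 0
    · have hb : evC x y h b ≠ 0 := by
        intro hb
        rw [map_add, ha, hb, add_zero] at h0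
        exact h0 rfl
      exact h2 τ (fix_sup_right hτ) x y h h' hb
    · exact h1 τ (fix_sup_left hτ) x y h h' ha
  smul_mem' := by
    rintro a b ⟨L, hL, h1⟩
    refine ⟨L, hL, ?_⟩
    intro τ hτ x y h h' h0
    refine h1 τ hτ x y h h' ?_
    intro hb
    apply h0
    rw [smul_eq_mul, map_mul, hb, mul_zero]

theorem good_one [LocallyOfFiniteType A.hom] : Good f l δ 1 := by
  classical
  change (1 : CR f l) ∈ goodIdeal f l δ
  rw [← Ideal.eq_top_iff_one]
  by_contra hne
  obtain ⟨m, hm, hle⟩ := Ideal.exists_le_maximal _ hne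
  let z : PrimeSpectrum (CR f l) := ⟨m, hm.isPrime⟩
  obtain ⟨B, _, _, j, hj, ha, hft⟩ := exists_chart A (δ.left z)
  have hft' : Algebra.FiniteType F B := hft inferInstance
  obtain ⟨g, hg, Φ, hΦ⟩ := exists_local_prime j δ z ha
  apply hg
  apply hle
  obtain ⟨s, hs⟩ := hft'.out
  have hnum : ∀ b : B, ∃ (n : ℕ) (a : CR f l),
      Φ b * algebraMap (CR f l) (Localization.Away g) g ^ n = algebraMap _ _ a :=
    fun b => IsLocalization.Away.surj g (Φ b)
  choose n a ha using hnum
  obtain ⟨L, hL, hLw⟩ := exists_field_finset (F := F) f l (insert g (s.image a))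
  refine ⟨L, hL, ?_⟩
  intro τ hτ x y h h' h0
  have hg1 := hLw g (Finset.mem_insert_self _ _) τ hτ x y h h'
  have h0' : evC (τ x) (τ y) h' g ≠ 0 := by
    rw [← hg1]
    exact (map_ne_zero τ).mpr h0
  have hpt : ∀ (x y : K) (h : y ^ l = f.eval x), evC x y h g ≠ 0 →
      ∃ φ : B →ₐ[F] K, SOm φ ≫ j = SOm ((evC x y h).restrictScalars F) ≫ δ ∧
        ∀ b, φ b * evC x y h g ^ n b = evC x y h (a b) := by
    intro x y h hgx
    obtain ⟨π', hπ'⟩ := ext_away g ((evC x y h).restrictScalars F) (Ne.isUnit hgx)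
    refine ⟨π'.comp Φ, ?_, fun b => ?_⟩
    · rw [← SOm_comp, Category.assoc, hΦ, ← Category.assoc, SOm_comp, hπ']
    · have h2 := congrArg π' (ha b)
      have h3 : ∀ w : CR f l, π' (algebraMap (CR f l) (Localization.Away g) w) = evC x y h w :=
        fun w => congrArg (fun t : CR f l →ₐ[F] K => t w) hπ'
      rw [map_mul, map_pow, h3, h3] at h2
      exact h2
  obtain ⟨φ, hφ, hφa⟩ := hpt x y h h0
  obtain ⟨φ', hφ', hφa'⟩ := hpt (τ x) (τ y) h' h0'
  have hcomp : (τ : K →ₐ[F] K).comp φ = φ' := by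
    apply AlgHom.ext_of_adjoin_eq_top hs
    intro b hb
    have h1 := hLw (a b) (Finset.mem_insert_of_mem (Finset.mem_image_of_mem a hb)) τ hτ x y h h'
    rw [← hφa b, ← hφa' b, map_mul, map_pow, hg1] at h1
    exact mul_right_cancel₀ (pow_ne_zero _ h0') h1
  rw [← hφ, ← hφ', ← hcomp, ← Category.assoc, SOm_comp]

/-- the finite extension over which the curve and the morphism are defined -/
theorem exists_field [LocallyOfFiniteType A.hom] : ∃ L : IntermediateField F K,
    FiniteDimensional F L ∧ (∀ n, f.coeff n ∈ L) ∧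
    ∀ τ ∈ L.fixingSubgroup, ∀ (x y : K) (h : y ^ l = f.eval x) (h' : (τ y) ^ l = f.eval (τ x)),
      SOm (τ : K →ₐ[F] K) ≫ SOm ((evC x y h).restrictScalars F) ≫ δ =
        SOm ((evC (τ x) (τ y) h').restrictScalars F) ≫ δ := by
  classical
  obtain ⟨L, hL, h1⟩ := good_one f l δ
  have hfin : Finite ((f.coeff '' (f.support : Set ℕ)) : Set K) :=
    f.support.finite_toSet.image f.coeff
  have hL' : FiniteDimensional F (IntermediateField.adjoin F (f.coeff '' (f.support : Set ℕ))) :=
    IntermediateField.finiteDimensional_adjoin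
      (fun x _ => (Algebra.IsAlgebraic.isAlgebraic (R := F) x).isIntegral)
  refine ⟨L ⊔ IntermediateField.adjoin F (f.coeff '' (f.support : Set ℕ)), inferInstance, ?_, ?_⟩
  · intro n
    by_cases hn : f.coeff n = 0
    · rw [hn]; exact zero_mem _
    · exact (le_sup_right : IntermediateField.adjoin F (f.coeff '' (f.support : Set ℕ)) ≤ _)
        (IntermediateField.subset_adjoin F _ ⟨n, Polynomial.mem_support_iff.mpr hn, rfl⟩)
  · intro τ hτ x y h h'
    exact h1 τ (fix_sup_left hτ) x y h h' (by rw [map_one]; exact one_ne_zero)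

end

end Pool.H27.LG
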