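import Pool.Agent.H27.LG.NT
import Pool.Agent.H27.LG.Dense2

/-! Points of a group scheme on a curve near a zero are not torsion: the case of a morphism which is
defined on the curve minus finitely many fibres (MP_6b5a9a_nt). -/

open AlgebraicGeometry CategoryTheory
open scoped MonObj TensorProduct

noncomputable section

namespace Pool.H27.LG

section
variable {K : Type} [Field K] (f : Polynomial K) (l : ℕ) (h : Polynomial K)

/-- the coordinate ring of y^l = f(x), h(x) ≠ 0 -/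
abbrev CRh : Type :=
  Localization.Away (AdjoinRoot.of ((Polynomial.X : Polynomial (Polynomial K)) ^ l -
    Polynomial.C f) h)

variable {f l h} in
/-- evaluation at a point of the curve with h(x) ≠ 0 -/
def evH (x y : K) (hxy : y ^ l = f.eval x) (hx : h.eval x ≠ 0) : CRh f l h →ₐ[K] K :=
  IsLocalization.liftAlgHom (M := Submonoid.powers (AdjoinRoot.of ((Polynomial.X :
    Polynomial (Polynomial K)) ^ l - Polynomial.C f) h)) (f := evC x y hxy) (by
    rintro ⟨_, n, rfl⟩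
    change IsUnit (evC x y hxy (AdjoinRoot.of _ h ^ n))
    rw [map_pow, evC_of]
    exact (Ne.isUnit hx).pow n)

lemma evH_algebraMap (x y : K) (hxy : y ^ l = f.eval x) (hx : h.eval x ≠ 0) (w : CR f l) :
    evH x y hxy hx (algebraMap (CR f l) (CRh f l h) w) = evC x y hxy w := by
  rw [evH, IsLocalization.liftAlgHom_apply]
  exact IsLocalization.lift_eq _ _

lemma CRh_algHom_ext {R : Type} [CommRing R] [Algebra K R] {π π' : CRh f l h →ₐ[K] R}
    (h1 : ∀ w : CR f l, π (algebraMap _ _ w) = π' (algebraMap _ _ w)) : π = π' := by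
  have h2 : π.toRingHom = π'.toRingHom := by
    apply IsLocalization.ringHom_ext (Submonoid.powers (AdjoinRoot.of ((Polynomial.X :
      Polynomial (Polynomial K)) ^ l - Polynomial.C f) h))
    exact RingHom.ext fun w => h1 w
  exact AlgHom.ext fun x => congrArg (fun t : CRh f l h →+* R => t x) h2

end

section
variable {F Ω : Type} [Field F] [Field Ω] [Algebra F Ω] {Γ₀ : Type}
  [LinearOrderedCommGroupWithZero Γ₀] (v : Valuation Ω Γ₀)
variable {A : Over (Spec (.of F))} [GrpObj A]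

theorem nt_D2 [IsSeparated A.hom] [LocallyOfFiniteType A.hom]
    (hfin : ∀ p : ℕ, p.Prime → (p : Ω) = 0 → {P : SO F Ω ⟶ A | P ^ p = 1}.Finite)
    (f : Polynomial Ω) (l : ℕ) (hl : 0 < l) (h : Polynomial Ω) (x₀ : Ω)
    (hx₀ : (0 : Ω) ^ l = f.eval x₀) (hh₀ : h.eval x₀ ≠ 0)
    [IsDomain (CR f l)] (D : SO F (CRh f l h) ⟶ A)
    (h0 : SOm ((evH x₀ 0 hx₀ hh₀).restrictScalars F) ≫ D = 1) (h1 : D ≠ 1) :
    ∃ c : Ω, c ≠ 0 ∧ ∀ (x y : Ω) (hxy : y ^ l = f.eval x), x ≠ x₀ → v (x - x₀) < v c →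
      ∃ hx : h.eval x ≠ 0, ∀ N : ℕ, N ≠ 0 →
        (SOm ((evH x y hxy hx).restrictScalars F) ≫ D) ^ N ≠ 1 := by
  classical
  obtain ⟨B, _, _, j, ε, I, _, u, hji, hj, hu, hε⟩ := exists_chart_one A
  obtain ⟨d, hd, hnear⟩ := near_one v j ε hj u hu hε hfin
  have hx₀' : f.eval x₀ = 0 := by rw [← hx₀, zero_pow hl.ne']
  set g₁ : CR f l := AdjoinRoot.of _ h with hg₁
  have hq : ∀ (x y : Ω) (hxy : y ^ l = f.eval x) (hx : h.eval x ≠ 0),
      ((evH x y hxy hx).restrictScalars F).comp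
        (IsScalarTower.toAlgHom F (CR f l) (CRh f l h)) = (evC x y hxy).restrictScalars F := by
    intro x y hxy hx
    exact AlgHom.ext fun w => evH_algebraMap f l h x y hxy hx w
  -- the morphism in the chart
  obtain ⟨g, hg, ρ, hρ, Φ, hΦ⟩ := exists_local_away j g₁ D ((evC x₀ 0 hx₀).restrictScalars F)
    ((evH x₀ 0 hx₀ hh₀).restrictScalars F) (hq x₀ 0 hx₀ hh₀) (eO ε Ω) (by
    rw [h0]; exact (eO_point j ε hj Ω).symm)
  have hg' : evC x₀ 0 hx₀ g ≠ 0 := hg
  have hg0 : g ≠ 0 := by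
    rintro rfl
    exact hg' (map_zero _)
  have hg₁0 : g₁ ≠ 0 := by
    intro h2
    have h3 : evC x₀ 0 hx₀ g₁ = 0 := by rw [h2, map_zero]
    rw [hg₁, evC_of] at h3
    exact hh₀ h3
  have hdom : IsDomain (CRh f l h) :=
    IsLocalization.isDomain_localization (powers_le_nonZeroDivisors_of_noZeroDivisors hg₁0)
  have hinjg : Function.Injective (algebraMap (CR f l) (Localization.Away g)) :=
    IsLocalization.injective _ (powers_le_nonZeroDivisors_of_noZeroDivisors hg0)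
  have hρr : ∀ r : CR f l, ρ (algebraMap (CR f l) (CRh f l h) r) =
      algebraMap (CR f l) (Localization.Away g) r := fun r =>
    congrArg (fun t : CR f l →ₐ[F] Localization.Away g => t r) hρ
  have hinjρ : Function.Injective ρ := by
    rw [injective_iff_map_eq_zero]
    intro w hw
    obtain ⟨n, a, ha⟩ := IsLocalization.Away.surj g₁ w
    have h2 := congrArg ρ ha
    rw [map_mul, hw, zero_mul, hρr] at h2
    have h3 : a = 0 := hinjg (by rw [← h2, map_zero])
    rw [h3, map_zero] at ha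
    have h4 : IsUnit (algebraMap (CR f l) (CRh f l h) g₁ ^ n) :=
      (IsLocalization.Away.algebraMap_isUnit g₁).pow _
    exact (h4.mul_left_eq_zero).mp ha
  -- a coordinate which is not identically zero
  obtain ⟨i₀, hi₀⟩ : ∃ i₀, Φ (u i₀) ≠ 0 := by
    by_contra hall
    push Not at hall
    apply h1
    have h2 := eq_eO ε u hu hε _ Φ hall
    apply eq_of_inj ρ hinjρ D 1
    rw [← hΦ, h2, ← SOm_comp, Category.assoc, hj, MonObj.comp_one, MonObj.comp_one]
  -- numerators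
  have hnum : ∀ i, ∃ (n : ℕ) (a : CR f l),
      Φ (u i) * algebraMap (CR f l) (Localization.Away g) g ^ n = algebraMap _ _ a :=
    fun i => IsLocalization.Away.surj g (Φ (u i))
  choose n a ha using hnum
  have ha₀ : a i₀ ≠ 0 := by
    intro h2
    have h3 := ha i₀
    rw [h2, map_zero] at h3
    have h4 : IsUnit (algebraMap (CR f l) (Localization.Away g) g ^ n i₀) :=
      (IsLocalization.Away.algebraMap_isUnit g).pow _
    exact hi₀ ((h4.mul_left_eq_zero).mp h3)
  -- points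
  have hpt : ∀ (x y : Ω) (hxy : y ^ l = f.eval x) (hx : h.eval x ≠ 0), evC x y hxy g ≠ 0 →
      ∃ φ : B →ₐ[F] Ω, SOm φ ≫ j = SOm ((evH x y hxy hx).restrictScalars F) ≫ D ∧
        ∀ i, φ (u i) * evC x y hxy g ^ n i = evC x y hxy (a i) := by
    intro x y hxy hx hgx
    obtain ⟨π', hπ'⟩ := ext_away g ((evC x y hxy).restrictScalars F) (Ne.isUnit hgx)
    have h3 : ∀ w : CR f l, π' (algebraMap (CR f l) (Localization.Away g) w) = evC x y hxy w :=
      fun w => congrArg (fun t : CR f l →ₐ[F] Ω => t w) hπ'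
    have h5 : π'.comp ρ = (evH x y hxy hx).restrictScalars F := by
      have h6 : (π'.comp ρ).toRingHom = ((evH x y hxy hx).restrictScalars F).toRingHom := by
        apply IsLocalization.ringHom_ext (Submonoid.powers g₁)
        refine RingHom.ext fun w => ?_
        change π' (ρ (algebraMap (CR f l) (CRh f l h) w)) =
          evH x y hxy hx (algebraMap (CR f l) (CRh f l h) w)
        rw [hρr, h3, evH_algebraMap]
      exact AlgHom.ext fun w => congrArg (fun t : CRh f l h →+* Ω => t w) h6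
    refine ⟨π'.comp Φ, ?_, fun i => ?_⟩
    · rw [← SOm_comp, Category.assoc, hΦ, ← Category.assoc, SOm_comp, h5]
    · have h2 := congrArg π' (ha i)
      rw [map_mul, map_pow, h3, h3] at h2
      exact h2
  have ha0 : ∀ i, evC x₀ 0 hx₀ (a i) = 0 := by
    intro i
    obtain ⟨φ, hφ, hφa⟩ := hpt x₀ 0 hx₀ hh₀ hg'
    have h2 : φ = eO ε Ω := pt_inj j (by rw [hφ, h0]; exact (eO_point j ε hj Ω).symm)
    rw [← hφa i, h2]
    change algebraMap F Ω (ε (u i)) * _ = 0
    rw [hε i, map_zero, zero_mul]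
  -- bounds
  have hgenε : ∀ b, evC x₀ 0 hx₀ (uC f l x₀ b) = 0 := by
    intro b
    cases b
    · change evC x₀ 0 hx₀ (AdjoinRoot.root _) = 0
      rw [evC_root]
    · change evC x₀ 0 hx₀ (AdjoinRoot.of _ _) = 0
      rw [evC_of]
      simp
  have hbd : ∀ w : CR f l, ∃ C : Ω, C ≠ 0 ∧ ∀ (x y : Ω) (h : y ^ l = f.eval x) (ρ : Γ₀),
      ρ ≤ 1 → v (x - x₀) ≤ ρ → v y ≤ ρ →
      v (evC x y h w - evC x₀ 0 hx₀ w) ≤ v C * ρ := by
    intro w
    obtain ⟨C, hC, hb⟩ := bound v (evC x₀ 0 hx₀) (uC f l x₀) (adjoin_uC f l x₀) hgenε w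
    refine ⟨C, hC, fun x y h ρ hρ h2 h3 => ?_⟩
    refine (hb (evC x y h) ρ hρ ?_).1
    intro b
    cases b
    · change v (evC x y h (AdjoinRoot.root _)) ≤ ρ
      rw [evC_root]
      exact h3
    · change v (evC x y h (AdjoinRoot.of _ _)) ≤ ρ
      rw [evC_of]
      simpa using h2
  set g₀ : Ω := evC x₀ 0 hx₀ g with hg₀
  obtain ⟨G, hG, hGb⟩ := hbd g
  choose Cb hCb hCb' using fun i => hbd (a i)
  obtain ⟨E, hE, hEi⟩ := exists_max_fin v (fun i => Cb i / g₀ ^ n i)
    (fun i => div_ne_zero (hCb i) (pow_ne_zero _ hg'))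
  obtain ⟨δ, hδ, hδi⟩ := exists_min_fin v
    (fun i : Fin 3 => (![1, d / E, g₀ / G] : Fin 3 → Ω) i) (by
      intro i
      fin_cases i
      · exact one_ne_zero
      · exact div_ne_zero hd hE
      · exact div_ne_zero hg' hG)
  have hδ1 : v δ ≤ 1 := by simpa using hδi 0
  have hδ2 : v δ ≤ v (d / E) := by simpa using hδi 1
  have hδ3 : v δ ≤ v (g₀ / G) := by simpa using hδi 2
  have hEp : 0 < v E := (Valuation.pos_iff v).mpr hE
  have hGp : 0 < v G := (Valuation.pos_iff v).mpr hG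
  obtain ⟨c1, hc1, hclose⟩ := exists_close v f l hl x₀ hx₀' δ hδ
  obtain ⟨P, hP, hPz⟩ := exists_poly f l hl (a i₀) ha₀
  have hPh : P * h ≠ 0 := mul_ne_zero hP (by
    rintro rfl
    exact hh₀ (by simp))
  obtain ⟨c2, hc2, hPnear⟩ := exists_nonzero_near v (P * h) hPh x₀
  obtain ⟨c, hc, hcc1, hcc2⟩ := exists_min v hc1 hc2
  refine ⟨c, hc, ?_⟩
  intro x y hxy hx hlt
  have hPhx := hPnear x hx (hlt.trans_le hcc2)
  rw [Polynomial.eval_mul] at hPhx
  have hhx : h.eval x ≠ 0 := right_ne_zero_of_mul hPhx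
  refine ⟨hhx, ?_⟩
  intro N hN
  obtain ⟨h2, h3⟩ := hclose x y hxy (hlt.trans_le hcc1)
  set r := max (v (x - x₀)) (v y) with hr
  have hρδ : r < v δ := max_lt h2 h3
  have hρ1 : r ≤ 1 := (hρδ.trans_le hδ1).le
  have hgv : v (evC x y hxy g) = v g₀ := by
    apply Valuation.map_eq_of_sub_lt
    refine lt_of_le_of_lt (hGb x y hxy r hρ1 (le_max_left _ _) (le_max_right _ _)) ?_
    refine lt_of_lt_of_le (mul_lt_mul_of_pos_left (hρδ.trans_le hδ3) hGp) ?_
    rw [map_div₀, mul_div_cancel₀ _ hGp.ne']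
  have hgne : evC x y hxy g ≠ 0 := by
    rw [← Valuation.ne_zero_iff v, hgv]
    exact (Valuation.ne_zero_iff v).mpr hg'
  obtain ⟨φ, hφ, hφa⟩ := hpt x y hxy hhx hgne
  rw [← hφ]
  refine hnear φ (v E * r) ?_ ?_ ⟨i₀, ?_⟩ N hN
  · refine lt_of_lt_of_le (mul_lt_mul_of_pos_left (hρδ.trans_le hδ2) hEp) ?_
    rw [map_div₀, mul_div_cancel₀ _ hEp.ne']
  · intro i
    have h4 := hCb' i x y hxy r hρ1 (le_max_left _ _) (le_max_right _ _)
    rw [ha0 i, sub_zero, ← hφa i, map_mul, map_pow, hgv] at h4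
    have h5 := hEi i
    have hgp : 0 < v g₀ ^ n i := pow_pos ((Valuation.pos_iff v).mpr hg') _
    rw [map_div₀, map_pow, div_le_iff₀ hgp] at h5
    have h6 : v (φ (u i)) * v g₀ ^ n i ≤ (v E * r) * v g₀ ^ n i := by
      refine h4.trans ((mul_le_mul_left h5 r).trans (le_of_eq ?_))
      exact mul_right_comm _ _ _
    exact le_of_mul_le_mul_right h6 hgp
  · intro h4
    have h5 := hφa i₀
    rw [h4, zero_mul] at h5
    exact (left_ne_zero_of_mul hPhx) (hPz x y hxy h5.symm)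

end

end Pool.H27.LG
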