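import Pool.Agent.H27.LG.FieldL
import Pool.Agent.H27.LG.NT2

/-! A morphism from an open part of a curve over the separable closure is defined over a finite
extension, in the form of equivariance on points (MP_6b5a9a_nt). -/

open AlgebraicGeometry CategoryTheory
open scoped MonObj TensorProduct

noncomputable section

namespace Pool.H27.LG

section
variable {F K : Type} [Field F] [Field K] [Algebra F K] [Algebra.IsAlgebraic F K]
  (f : Polynomial K) (l : ℕ) (h : Polynomial K)

/-- values of a function on the open curve are equivariant over a finite extension -/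
lemma exists_field_fun2 (w : CRh f l h) : ∃ L : IntermediateField F K, FiniteDimensional F L ∧
    ∀ τ ∈ L.fixingSubgroup, ∀ (x y : K) (hxy : y ^ l = f.eval x) (hx : h.eval x ≠ 0)
      (hxy' : (τ y) ^ l = f.eval (τ x)) (hx' : h.eval (τ x) ≠ 0),
      τ (evH x y hxy hx w) = evH (τ x) (τ y) hxy' hx' w := by
  set g₁ : CR f l := AdjoinRoot.of _ h with hg₁
  obtain ⟨n, a, ha⟩ := IsLocalization.Away.surj g₁ w
  obtain ⟨L, hL, h1⟩ := exists_field_fun (F := F) f l a
  obtain ⟨L', hL', h2⟩ := exists_field_fun (F := F) f l g₁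
  refine ⟨L ⊔ L', inferInstance, ?_⟩
  intro τ hτ x y hxy hx hxy' hx'
  have h3 := h1 τ (fix_sup_left hτ) x y hxy hxy'
  have h4 := h2 τ (fix_sup_right hτ) x y hxy hxy'
  have h5 := congrArg (evH x y hxy hx) ha
  have h6 := congrArg (evH (τ x) (τ y) hxy' hx') ha
  rw [map_mul, map_pow, evH_algebraMap, evH_algebraMap] at h5 h6
  have h7 := congrArg τ h5
  rw [map_mul, map_pow, h3, h4, ← h6] at h7
  refine mul_right_cancel₀ (pow_ne_zero n ?_) h7
  rw [hg₁, evC_of]
  exact hx'

/-- finitely many functions at once -/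
lemma exists_field_finset2 (s : Finset (CRh f l h)) : ∃ L : IntermediateField F K,
    FiniteDimensional F L ∧ ∀ w ∈ s, ∀ τ ∈ L.fixingSubgroup, ∀ (x y : K)
      (hxy : y ^ l = f.eval x) (hx : h.eval x ≠ 0)
      (hxy' : (τ y) ^ l = f.eval (τ x)) (hx' : h.eval (τ x) ≠ 0),
      τ (evH x y hxy hx w) = evH (τ x) (τ y) hxy' hx' w := by
  classical
  induction s using Finset.induction_on with
  | empty => exact ⟨⊥, inferInstance, by simp⟩
  | insert a s ha ih =>
    obtain ⟨L, hL, h1⟩ := ih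
    obtain ⟨L', hL', h2⟩ := exists_field_fun2 (F := F) f l h a
    refine ⟨L ⊔ L', inferInstance, ?_⟩
    intro w hw τ hτ x y hxy hx hxy' hx'
    rcases Finset.mem_insert.mp hw with rfl | hw
    · exact h2 τ (fix_sup_right hτ) x y hxy hx hxy' hx'
    · exact h1 w hw τ (fix_sup_left hτ) x y hxy hx hxy' hx'

variable {A : Over (Spec (.of F))} (δ : SO F (CRh f l h) ⟶ A)

/-- equivariance of the values of a morphism where a given function does not vanish -/
def Good2 (g : CRh f l h) : Prop :=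
  ∃ L : IntermediateField F K, FiniteDimensional F L ∧
    ∀ τ ∈ L.fixingSubgroup, ∀ (x y : K) (hxy : y ^ l = f.eval x) (hx : h.eval x ≠ 0)
      (hxy' : (τ y) ^ l = f.eval (τ x)) (hx' : h.eval (τ x) ≠ 0),
      evH x y hxy hx g ≠ 0 →
      SOm (τ : K →ₐ[F] K) ≫ SOm ((evH x y hxy hx).restrictScalars F) ≫ δ =
        SOm ((evH (τ x) (τ y) hxy' hx').restrictScalars F) ≫ δ

/-- the good functions form an ideal -/
def goodIdeal2 : Ideal (CRh f l h) where
  carrier := {g | Good2 f l h δ g}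
  zero_mem' := ⟨⊥, inferInstance, fun τ _ x y hxy hx hxy' hx' h0 => absurd (map_zero _) h0⟩
  add_mem' := by
    rintro a b ⟨L, hL, h1⟩ ⟨L', hL', h2⟩
    refine ⟨L ⊔ L', inferInstance, ?_⟩
    intro τ hτ x y hxy hx hxy' hx' h0
    by_cases ha : evH x y hxy hx a = 0
    · have hb : evH x y hxy hx b ≠ 0 := by
        intro hb
        rw [map_add, ha, hb, add_zero] at h0
        exact h0 rfl
      exact h2 τ (fix_sup_right hτ) x y hxy hx hxy' hx' hb
    · exact h1 τ (fix_sup_left hτ) x y hxy hx hxy' hx' ha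
  smul_mem' := by
    rintro a b ⟨L, hL, h1⟩
    refine ⟨L, hL, ?_⟩
    intro τ hτ x y hxy hx hxy' hx' h0
    refine h1 τ hτ x y hxy hx hxy' hx' ?_
    intro hb
    apply h0
    rw [smul_eq_mul, map_mul, hb, mul_zero]

theorem good_one2 [LocallyOfFiniteType A.hom] : Good2 f l h δ 1 := by
  classical
  change (1 : CRh f l h) ∈ goodIdeal2 f l h δ
  rw [← Ideal.eq_top_iff_one]
  by_contra hne
  obtain ⟨m, hm, hle⟩ := Ideal.exists_le_maximal _ hne
  let z : PrimeSpectrum (CRh f l h) := ⟨m, hm.isPrime⟩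
  obtain ⟨B, _, _, j, hj, ha, hft⟩ := exists_chart A (δ.left z)
  have hft' : Algebra.FiniteType F B := hft inferInstance
  obtain ⟨g, hg, Φ, hΦ⟩ := exists_local_prime j δ z ha
  apply hg
  apply hle
  obtain ⟨s, hs⟩ := hft'.out
  have hnum : ∀ b : B, ∃ (n : ℕ) (a : CRh f l h),
      Φ b * algebraMap (CRh f l h) (Localization.Away g) g ^ n = algebraMap _ _ a :=
    fun b => IsLocalization.Away.surj g (Φ b)
  choose n a ha using hnum
  obtain ⟨L, hL, hLw⟩ := exists_field_finset2 (F := F) f l h (insert g (s.image a))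
  refine ⟨L, hL, ?_⟩
  intro τ hτ x y hxy hx hxy' hx' h0
  have hg1 := hLw g (Finset.mem_insert_self _ _) τ hτ x y hxy hx hxy' hx'
  have h0' : evH (τ x) (τ y) hxy' hx' g ≠ 0 := by
    rw [← hg1]
    exact (map_ne_zero τ).mpr h0
  have hpt : ∀ (x y : K) (hxy : y ^ l = f.eval x) (hx : h.eval x ≠ 0), evH x y hxy hx g ≠ 0 →
      ∃ φ : B →ₐ[F] K, SOm φ ≫ j = SOm ((evH x y hxy hx).restrictScalars F) ≫ δ ∧
        ∀ b, φ b * evH x y hxy hx g ^ n b = evH x y hxy hx (a b) := by
    intro x y hxy hx hgx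
    obtain ⟨π', hπ'⟩ := ext_away g ((evH x y hxy hx).restrictScalars F) (Ne.isUnit hgx)
    refine ⟨π'.comp Φ, ?_, fun b => ?_⟩
    · rw [← SOm_comp, Category.assoc, hΦ, ← Category.assoc, SOm_comp, hπ']
    · have h2 := congrArg π' (ha b)
      have h3 : ∀ w : CRh f l h, π' (algebraMap (CRh f l h) (Localization.Away g) w) =
          evH x y hxy hx w :=
        fun w => congrArg (fun t : CRh f l h →ₐ[F] K => t w) hπ'
      rw [map_mul, map_pow, h3, h3] at h2
      exact h2
  obtain ⟨φ, hφ, hφa⟩ := hpt x y hxy hx h0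
  obtain ⟨φ', hφ', hφa'⟩ := hpt (τ x) (τ y) hxy' hx' h0'
  have hcomp : (τ : K →ₐ[F] K).comp φ = φ' := by
    apply AlgHom.ext_of_adjoin_eq_top hs
    intro b hb
    have h1 := hLw (a b) (Finset.mem_insert_of_mem (Finset.mem_image_of_mem a hb)) τ hτ
      x y hxy hx hxy' hx'
    rw [← hφa b, ← hφa' b, map_mul, map_pow, hg1] at h1
    exact mul_right_cancel₀ (pow_ne_zero _ h0') h1
  rw [← hφ, ← hφ', ← hcomp, ← Category.assoc, SOm_comp]

omit [Algebra.IsAlgebraic F K] in
/-- the field of the coefficients of a polynomial -/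
lemma exists_field_coeff [Algebra.IsAlgebraic F K] (p : Polynomial K) :
    ∃ L : IntermediateField F K, FiniteDimensional F L ∧ ∀ n, p.coeff n ∈ L := by
  classical
  have hfin : Finite ((p.coeff '' (p.support : Set ℕ)) : Set K) :=
    p.support.finite_toSet.image p.coeff
  have hL' : FiniteDimensional F (IntermediateField.adjoin F (p.coeff '' (p.support : Set ℕ))) :=
    IntermediateField.finiteDimensional_adjoin
      (fun x _ => (Algebra.IsAlgebraic.isAlgebraic (R := F) x).isIntegral)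
  refine ⟨_, hL', ?_⟩
  intro n
  by_cases hn : p.coeff n = 0
  · rw [hn]; exact zero_mem _
  · exact IntermediateField.subset_adjoin F _ ⟨n, Polynomial.mem_support_iff.mpr hn, rfl⟩

/-- the finite extension over which the curve and the morphism are defined -/
theorem exists_field2 [LocallyOfFiniteType A.hom] : ∃ L : IntermediateField F K,
    FiniteDimensional F L ∧ (∀ n, f.coeff n ∈ L) ∧ (∀ n, h.coeff n ∈ L) ∧
    ∀ τ ∈ L.fixingSubgroup, ∀ (x y : K) (hxy : y ^ l = f.eval x) (hx : h.eval x ≠ 0)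
      (hxy' : (τ y) ^ l = f.eval (τ x)) (hx' : h.eval (τ x) ≠ 0),
      SOm (τ : K →ₐ[F] K) ≫ SOm ((evH x y hxy hx).restrictScalars F) ≫ δ =
        SOm ((evH (τ x) (τ y) hxy' hx').restrictScalars F) ≫ δ := by
  classical
  obtain ⟨L, hL, h1⟩ := good_one2 f l h δ
  obtain ⟨L1, hL1, h2⟩ := exists_field_coeff (F := F) f
  obtain ⟨L2, hL2, h3⟩ := exists_field_coeff (F := F) h
  refine ⟨L ⊔ (L1 ⊔ L2), inferInstance, ?_, ?_, ?_⟩
  · intro n
    exact (le_sup_right : (L1 ⊔ L2) ≤ L ⊔ (L1 ⊔ L2)) ((le_sup_left : L1 ≤ L1 ⊔ L2) (h2 n))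
  · intro n
    exact (le_sup_right : (L1 ⊔ L2) ≤ L ⊔ (L1 ⊔ L2)) ((le_sup_right : L2 ≤ L1 ⊔ L2) (h3 n))
  · intro τ hτ x y hxy hx hxy' hx'
    exact h1 τ (fix_sup_left hτ) x y hxy hx hxy' hx' (by rw [map_one]; exact one_ne_zero)

end

end Pool.H27.LG
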