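import Pool.Agent.H27.LG.NT
import Pool.Agent.H27.LG.FieldL
import Pool.Agent.H25.LS.Abstract
import Pool.Agent.H25.LS.Irred

/-! Larsen's conjecture for group schemes which receive a superelliptic curve (MP_6b5a9a_nt). -/

open AlgebraicGeometry CategoryTheory
open scoped MonObj TensorProduct

noncomputable section

namespace Pool.H27.LG

section
variable {F K : Type} [Field F] [Field K] [Algebra F K] (f : Polynomial K) (l : ℕ)

/-- multiplication of y by a root of unity -/
def sC (z : K) (hz : z ^ l = 1) : CR f l →ₐ[K] CR f l :=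
  AdjoinRoot.liftAlgHom _ (AdjoinRoot.ofAlgHom K _) (algebraMap K _ z * AdjoinRoot.root _) (by
    rw [Polynomial.eval₂_sub, Polynomial.eval₂_pow, Polynomial.eval₂_X, Polynomial.eval₂_C,
      mul_pow, ← map_pow, hz, map_one, one_mul]
    change AdjoinRoot.root _ ^ l - AdjoinRoot.of _ f = 0
    have h := AdjoinRoot.eval₂_root ((Polynomial.X : Polynomial (Polynomial K)) ^ l -
      Polynomial.C f)
    rw [Polynomial.eval₂_sub, Polynomial.eval₂_pow, Polynomial.eval₂_X, Polynomial.eval₂_C] at h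
    exact h)

lemma evC_sC (z : K) (hz : z ^ l = 1) (x y : K) (h : y ^ l = f.eval x)
    (h' : (z * y) ^ l = f.eval x) : (evC x y h).comp (sC f l z hz) = evC x (z * y) h' := by
  apply CR_algHom_ext
  · rw [AlgHom.comp_apply, sC, AdjoinRoot.liftAlgHom_of, evC_of]
    change evC x y h (AdjoinRoot.of _ _) = _
    rw [evC_of]
  · rw [AlgHom.comp_apply, sC, AdjoinRoot.liftAlgHom_root, evC_root, map_mul, AlgHom.commutes,
      evC_root]
    rfl

lemma eq_evC (p : CR f l →ₐ[K] K) : ∃ (x y : K) (h : y ^ l = f.eval x), p = evC x y h := by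
  have h : (p (AdjoinRoot.root _)) ^ l = f.eval (p (AdjoinRoot.of _ Polynomial.X)) := by
    have h1 := AdjoinRoot.eval₂_root ((Polynomial.X : Polynomial (Polynomial K)) ^ l -
      Polynomial.C f)
    rw [Polynomial.eval₂_sub, Polynomial.eval₂_pow, Polynomial.eval₂_X, Polynomial.eval₂_C,
      sub_eq_zero] at h1
    rw [← map_pow, h1]
    have h2 : (p.comp (AdjoinRoot.ofAlgHom K _)) = Polynomial.aeval
        (p (AdjoinRoot.of ((Polynomial.X : Polynomial (Polynomial K)) ^ l - Polynomial.C f)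
          Polynomial.X)) := by
      apply Polynomial.algHom_ext
      simp
    have h3 := congrArg (fun t : Polynomial K →ₐ[K] K => t f) h2
    rw [← Polynomial.coe_aeval_eq_eval]
    exact h3
  refine ⟨_, _, h, ?_⟩
  apply CR_algHom_ext
  · rw [evC_of, Polynomial.eval_X]
  · rw [evC_root]

end

theorem main (F : Type) [Field F] [Infinite F]
    (hfg : ∃ S : Finset F, Subfield.closure (S : Set F) = ⊤)
    (K : Type) [Field K] [Algebra F K] [IsSepClosed K] [IsGalois F K]
    (A : Over (Spec (.of F))) [GrpObj A] [IsCommMonObj A] [IsSeparated A.hom]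
    [LocallyOfFiniteType A.hom]
    (hA : ∀ p : ℕ, p.Prime → (p : F) = 0 → {P : SO F K ⟶ A | P ^ p = 1}.Finite)
    (l : ℕ) (hl : 1 < l) (hlF : (l : F) ≠ 0) (f : Polynomial K) (hf : f.Splits) (x₀ : K)
    (hx₀ : (f.rootMultiplicity x₀).Coprime l) (δ : SO F (CR f l) ⟶ A)
    (hδ : ∃ p q : CR f l →ₐ[K] K,
      p (AdjoinRoot.of _ Polynomial.X) = q (AdjoinRoot.of _ Polynomial.X) ∧
      SOm (p.restrictScalars F) ≫ δ ≠ SOm (q.restrictScalars F) ≫ δ)
    (G : Subgroup (K ≃ₐ[F] K)) (hG : G.FG) :
    ¬ FiniteDimensional ℚ (ℚ ⊗[ℤ] Additive (SO F (IntermediateField.fixedField G) ⟶ A)) := by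
  classical
  have hl0 : 0 < l := by omega
  have hlK : (l : K) ≠ 0 := by
    have h1 : (l : K) = algebraMap F K l := (map_natCast _ _).symm
    rw [h1]
    exact (_root_.map_ne_zero _).2 hlF
  have hfin : ∀ p : ℕ, p.Prime → (p : K) = 0 → {P : SO F K ⟶ A | P ^ p = 1}.Finite := by
    intro p hp hp0
    apply hA p hp
    have h1 : (p : K) = algebraMap F K p := (map_natCast _ _).symm
    rw [h1] at hp0
    exact (_root_.map_eq_zero _).1 hp0
  -- the primitive root of unity
  have : NeZero (l : K) := ⟨hlK⟩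
  obtain ⟨ζ, hζ⟩ := HasEnoughRootsOfUnity.exists_primitiveRoot K l
  have hζl : ζ ^ l = 1 := hζ.pow_eq_one
  -- f vanishes at x₀
  have hfx₀ : f.eval x₀ = 0 := by
    have h1 : f.rootMultiplicity x₀ ≠ 0 := by
      intro h0
      rw [h0, Nat.coprime_zero_left] at hx₀
      omega
    exact (Polynomial.rootMultiplicity_pos'.mp (Nat.pos_of_ne_zero h1)).2
  have hx₀' : (0 : K) ^ l = f.eval x₀ := by rw [zero_pow hl0.ne', hfx₀]
  have hdom : IsDomain (CR f l) :=
    AdjoinRoot.isDomain_of_prime (Pool.Agent.H25.LS.irred K f l hl x₀ hx₀).prime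
  -- the difference of δ and its conjugate
  have hmul : ∀ {x y : K}, y ^ l = f.eval x → (ζ * y) ^ l = f.eval x := by
    intro x y h
    rw [mul_pow, hζl, one_mul, h]
  let D : SO F (CR f l) ⟶ A := δ * (SOm ((sC f l ζ hζl).restrictScalars F) ≫ δ)⁻¹
  have hD : ∀ (x y : K) (h : y ^ l = f.eval x), SOm ((evC x y h).restrictScalars F) ≫ D =
      (SOm ((evC x y h).restrictScalars F) ≫ δ) *
        (SOm ((evC x (ζ * y) (hmul h)).restrictScalars F) ≫ δ)⁻¹ := by
    intro x y h
    have h1 : SOm ((evC x y h).restrictScalars F) ≫ SOm ((sC f l ζ hζl).restrictScalars F) =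
        SOm ((evC x (ζ * y) (hmul h)).restrictScalars F) := by
      rw [SOm_comp, ← evC_sC f l ζ hζl x y h (hmul h)]
      rfl
    rw [MonObj.comp_mul, GrpObj.comp_inv, ← Category.assoc, h1]
  have hD0 : SOm ((evC x₀ 0 hx₀').restrictScalars F) ≫ D = 1 := by
    rw [hD]
    have h1 : ∀ (y : K) (h : y ^ l = f.eval x₀), y = 0 →
        SOm ((evC x₀ y h).restrictScalars F) ≫ δ = SOm ((evC x₀ 0 hx₀').restrictScalars F) ≫ δ := by
      rintro y h rfl
      rfl
    rw [h1 (ζ * 0) (hmul hx₀') (mul_zero _)]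
    exact mul_inv_cancel _
  have hD1 : D ≠ 1 := by
    intro h1
    have h2 : ∀ (x y : K) (h : y ^ l = f.eval x) (y' : K) (h' : y' ^ l = f.eval x), y' = ζ * y →
        SOm ((evC x y h).restrictScalars F) ≫ δ = SOm ((evC x y' h').restrictScalars F) ≫ δ := by
      rintro x y h y' h' rfl
      have h3 := hD x y h
      rw [h1, MonObj.comp_one] at h3
      exact mul_inv_eq_one.mp h3.symm
    have h4 : ∀ (k : ℕ) (x y : K) (h : y ^ l = f.eval x) (y' : K) (h' : y' ^ l = f.eval x),
        y' = ζ ^ k * y →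
        SOm ((evC x y h).restrictScalars F) ≫ δ = SOm ((evC x y' h').restrictScalars F) ≫ δ := by
      intro k
      induction k with
      | zero =>
        rintro x y h y' h' hy'
        rw [pow_zero, one_mul] at hy'
        subst hy'
        rfl
      | succ k ih =>
        rintro x y h y' h' hy'
        have h5 : (ζ ^ k * y) ^ l = f.eval x := by
          rw [mul_pow, ← pow_mul, mul_comm k l, pow_mul, hζl, one_pow, one_mul, h]
        rw [ih x y h (ζ ^ k * y) h5 rfl]
        exact h2 x (ζ ^ k * y) h5 y' h' (by rw [hy', pow_succ']; ring)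
    obtain ⟨p, q, hpq, hne⟩ := hδ
    obtain ⟨x, y, h, rfl⟩ := eq_evC f l p
    obtain ⟨x', y', h', rfl⟩ := eq_evC f l q
    rw [evC_of, evC_of, Polynomial.eval_X, Polynomial.eval_X] at hpq
    subst hpq
    apply hne
    by_cases hy : y = 0
    · have hy' : y' = 0 := by
        rw [hy, zero_pow hl0.ne'] at h
        rw [← h] at h'
        exact pow_eq_zero_iff hl0.ne' |>.mp h'
      exact h4 0 x y h y' h' (by rw [hy', hy, mul_zero])
    · have h6 : (y' / y) ^ l = 1 := by
        rw [div_pow, h, h', div_self]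
        rw [← h]
        exact pow_ne_zero _ hy
      have : NeZero l := ⟨hl0.ne'⟩
      obtain ⟨k, -, hk⟩ := hζ.eq_pow_of_pow_eq_one h6
      exact h4 k x y h y' h' (by rw [hk, div_mul_cancel₀ _ hy])
  -- the finite extension
  obtain ⟨L, hL, hfL, hLδ⟩ := exists_field (F := F) f l δ
  obtain ⟨g, hg⟩ : ∃ g : Polynomial L, g.map (algebraMap L K) = f := by
    have h1 : f ∈ Polynomial.lifts (algebraMap L K) := by
      rw [Polynomial.lifts_iff_coeff_lifts]
      intro n
      exact ⟨⟨f.coeff n, hfL n⟩, rfl⟩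
    exact (Polynomial.mem_lifts f).mp h1
  subst hg
  -- the points
  let ψ : K → K → Pts A K := fun x y =>
    if h : y ^ l = (g.map (algebraMap L K)).eval x then
      Additive.ofMul (SOm ((evC x y h).restrictScalars F) ≫ δ) else 0
  have hψ1 : ∀ x y (h : y ^ l = (g.map (algebraMap L K)).eval x),
      ψ x y = Additive.ofMul (SOm ((evC x y h).restrictScalars F) ≫ δ) := by
    intro x y h
    exact dif_pos h
  have hψ : ∀ τ ∈ L.fixingSubgroup, ∀ x y : K, y ^ l = (g.map (algebraMap L K)).eval x →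
      ψ (τ x) (τ y) = τ • ψ x y := by
    intro τ hτ x y h
    have h1 : ∀ P : Polynomial L, τ ((P.map (algebraMap L K)).eval x) =
        (P.map (algebraMap L K)).eval (τ x) := by
      intro P
      induction P using Polynomial.induction_on' with
      | add P Q hP hQ =>
        rw [Polynomial.map_add, Polynomial.eval_add, Polynomial.eval_add, map_add, hP, hQ]
      | monomial n a =>
        rw [Polynomial.map_monomial, Polynomial.eval_monomial, Polynomial.eval_monomial, map_mul,
          map_pow]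
        congr 1
        exact (IntermediateField.mem_fixingSubgroup_iff _ τ).mp hτ _ a.2
    have h' : (τ y) ^ l = (g.map (algebraMap L K)).eval (τ x) := by
      rw [← map_pow, h, h1]
    rw [hψ1 x y h, hψ1 _ _ h', smul_def]
    exact congrArg Additive.ofMul (hLδ τ hτ x y h h').symm
  -- the valuation
  obtain ⟨V, hV⟩ := Pool.Agent.H25.LS.exists_nontrivial_valuation F K hfg
  obtain ⟨c, hc, hcnt⟩ := nt_D V.valuation hfin (g.map (algebraMap L K)) l hl0 x₀ hx₀' D hD0 hD1
  apply rank_transfer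
  refine Pool.Agent.H25.LS.abstract_infinite F K hfg l hl hlF L hL g hf x₀ hx₀ (Pts A K)
    (disc A K) ψ hψ V.valuation hV ζ hζ ⟨c, hc, ?_⟩ G hG
  intro x y h hx hlt N hN heq
  apply hcnt x y h hx hlt N hN
  rw [hψ1 x y h, hψ1 x (ζ * y) (hmul h)] at heq
  have h2 : (SOm ((evC x y h).restrictScalars F) ≫ δ) ^ N =
      (SOm ((evC x (ζ * y) (hmul h)).restrictScalars F) ≫ δ) ^ N := heq
  rw [hD x y h, mul_pow, inv_pow, h2]
  exact mul_inv_cancel _

end Pool.H27.LG
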