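import Pool.Agent.H27.LG.NT2
import Pool.Agent.H27.LG.FieldL2
import Pool.Agent.H27.LG.Final
import Pool.Agent.H25.LS.Abstract
import Pool.Agent.H25.LS.Irred

/-! Larsen's conjecture for group schemes which receive an open part of a superelliptic curve
(MP_6b5a9a_nt). -/

open AlgebraicGeometry CategoryTheory
open scoped MonObj TensorProduct

noncomputable section

namespace Pool.H27.LG

section
variable {F K : Type} [Field F] [Field K] [Algebra F K] (f : Polynomial K) (l : ℕ)
  (h : Polynomial K)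

/-- multiplication of y by a root of unity, on the open curve -/
def sH (z : K) (hz : z ^ l = 1) : CRh f l h →ₐ[K] CRh f l h :=
  IsLocalization.liftAlgHom (M := Submonoid.powers (AdjoinRoot.of ((Polynomial.X :
    Polynomial (Polynomial K)) ^ l - Polynomial.C f) h))
    (f := (IsScalarTower.toAlgHom K (CR f l) (CRh f l h)).comp (sC f l z hz)) (by
    rintro ⟨_, n, rfl⟩
    change IsUnit (algebraMap (CR f l) (CRh f l h) (sC f l z hz (AdjoinRoot.of _ h ^ n)))
    have h1 : sC f l z hz (AdjoinRoot.of _ h) = AdjoinRoot.of _ h := by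
      rw [sC, AdjoinRoot.liftAlgHom_of]
      rfl
    rw [map_pow, map_pow, h1]
    exact (IsLocalization.Away.algebraMap_isUnit (S := CRh f l h) (AdjoinRoot.of _ h)).pow n)

lemma sH_algebraMap (z : K) (hz : z ^ l = 1) (w : CR f l) :
    sH f l h z hz (algebraMap (CR f l) (CRh f l h) w) =
      algebraMap (CR f l) (CRh f l h) (sC f l z hz w) := by
  rw [sH, IsLocalization.liftAlgHom_apply]
  exact IsLocalization.lift_eq _ _

lemma evH_sH (z : K) (hz : z ^ l = 1) (x y : K) (hxy : y ^ l = f.eval x) (hx : h.eval x ≠ 0)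
    (hxy' : (z * y) ^ l = f.eval x) :
    (evH x y hxy hx).comp (sH f l h z hz) = evH x (z * y) hxy' hx := by
  apply CRh_algHom_ext
  intro w
  rw [AlgHom.comp_apply, sH_algebraMap, evH_algebraMap, evH_algebraMap]
  exact congrArg (fun t : CR f l →ₐ[K] K => t w) (evC_sC f l z hz x y hxy hxy')

lemma eq_evH (p : CRh f l h →ₐ[K] K) :
    ∃ (x y : K) (hxy : y ^ l = f.eval x) (hx : h.eval x ≠ 0), p = evH x y hxy hx := by
  obtain ⟨x, y, hxy, hp⟩ := eq_evC f l (p.comp (IsScalarTower.toAlgHom K (CR f l) (CRh f l h)))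
  have hpw : ∀ w : CR f l, p (algebraMap (CR f l) (CRh f l h) w) = evC x y hxy w := fun w =>
    congrArg (fun t : CR f l →ₐ[K] K => t w) hp
  have hx : h.eval x ≠ 0 := by
    have h1 : IsUnit (p (algebraMap (CR f l) (CRh f l h) (AdjoinRoot.of _ h))) :=
      (IsLocalization.Away.algebraMap_isUnit (S := CRh f l h) (AdjoinRoot.of _ h)).map p
    rw [hpw, evC_of] at h1
    exact h1.ne_zero
  refine ⟨x, y, hxy, hx, ?_⟩
  apply CRh_algHom_ext
  intro w
  rw [hpw, evH_algebraMap]

end

theorem main2 (F : Type) [Field F] [Infinite F]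
    (hfg : ∃ S : Finset F, Subfield.closure (S : Set F) = ⊤)
    (K : Type) [Field K] [Algebra F K] [IsSepClosed K] [IsGalois F K]
    (A : Over (Spec (.of F))) [GrpObj A] [IsCommMonObj A] [IsSeparated A.hom]
    [LocallyOfFiniteType A.hom]
    (hA : ∀ p : ℕ, p.Prime → (p : F) = 0 → {P : SO F K ⟶ A | P ^ p = 1}.Finite)
    (l : ℕ) (hl : 1 < l) (hlF : (l : F) ≠ 0) (f h : Polynomial K) (hf : f.Splits) (x₀ : K)
    (hx₀ : (f.rootMultiplicity x₀).Coprime l) (hh₀ : h.eval x₀ ≠ 0) (δ : SO F (CRh f l h) ⟶ A)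
    (hδ : ∃ p q : CRh f l h →ₐ[K] K,
      p (algebraMap (CR f l) (CRh f l h) (AdjoinRoot.of _ Polynomial.X)) =
        q (algebraMap (CR f l) (CRh f l h) (AdjoinRoot.of _ Polynomial.X)) ∧
      SOm (p.restrictScalars F) ≫ δ ≠ SOm (q.restrictScalars F) ≫ δ)
    (G : Subgroup (K ≃ₐ[F] K)) (hG : G.FG) :
    ¬ FiniteDimensional ℚ (ℚ ⊗[ℤ] Additive (SO F (IntermediateField.fixedField G) ⟶ A)) := by
  classical
  have hl0 : 0 < l := by omega
  have hlK : (l : K) ≠ 0 := by
    have h1 : (l : K) = algebraMap F K l := (map_natCast _ _).symm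
    rw [h1]
    exact (_root_.map_ne_zero _).2 hlF
  have hfin : ∀ p : ℕ, p.Prime → (p : K) = 0 → {P : SO F K ⟶ A | P ^ p = 1}.Finite := by
    intro p hp hp0
    apply hA p hp
    have h1 : (p : K) = algebraMap F K p := (map_natCast _ _).symm
    rw [h1] at hp0
    exact (_root_.map_eq_zero _).1 hp0
  -- the primitive root of unity
  have : NeZero (l : K) := ⟨hlK⟩
  obtain ⟨ζ, hζ⟩ := HasEnoughRootsOfUnity.exists_primitiveRoot K l
  have hζl : ζ ^ l = 1 := hζ.pow_eq_one
  -- f vanishes at x₀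
  have hfx₀ : f.eval x₀ = 0 := by
    have h1 : f.rootMultiplicity x₀ ≠ 0 := by
      intro h0
      rw [h0, Nat.coprime_zero_left] at hx₀
      omega
    exact (Polynomial.rootMultiplicity_pos'.mp (Nat.pos_of_ne_zero h1)).2
  have hx₀' : (0 : K) ^ l = f.eval x₀ := by rw [zero_pow hl0.ne', hfx₀]
  have hdom : IsDomain (CR f l) :=
    AdjoinRoot.isDomain_of_prime (Pool.Agent.H25.LS.irred K f l hl x₀ hx₀).prime
  -- the difference of δ and its conjugate
  have hmul : ∀ {x y : K}, y ^ l = f.eval x → (ζ * y) ^ l = f.eval x := by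
    intro x y hxy
    rw [mul_pow, hζl, one_mul, hxy]
  let D : SO F (CRh f l h) ⟶ A := δ * (SOm ((sH f l h ζ hζl).restrictScalars F) ≫ δ)⁻¹
  have hD : ∀ (x y : K) (hxy : y ^ l = f.eval x) (hx : h.eval x ≠ 0),
      SOm ((evH x y hxy hx).restrictScalars F) ≫ D =
      (SOm ((evH x y hxy hx).restrictScalars F) ≫ δ) *
        (SOm ((evH x (ζ * y) (hmul hxy) hx).restrictScalars F) ≫ δ)⁻¹ := by
    intro x y hxy hx
    have h1 : SOm ((evH x y hxy hx).restrictScalars F) ≫
        SOm ((sH f l h ζ hζl).restrictScalars F) =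
        SOm ((evH x (ζ * y) (hmul hxy) hx).restrictScalars F) := by
      rw [SOm_comp, ← evH_sH f l h ζ hζl x y hxy hx (hmul hxy)]
      rfl
    rw [MonObj.comp_mul, GrpObj.comp_inv, ← Category.assoc, h1]
  have hD0 : SOm ((evH x₀ 0 hx₀' hh₀).restrictScalars F) ≫ D = 1 := by
    rw [hD]
    have h1 : ∀ (y : K) (hxy : y ^ l = f.eval x₀), y = 0 →
        SOm ((evH x₀ y hxy hh₀).restrictScalars F) ≫ δ =
          SOm ((evH x₀ 0 hx₀' hh₀).restrictScalars F) ≫ δ := by
      rintro y hxy rfl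
      rfl
    rw [h1 (ζ * 0) (hmul hx₀') (mul_zero _)]
    exact mul_inv_cancel _
  have hD1 : D ≠ 1 := by
    intro h1
    have h2 : ∀ (x y : K) (hxy : y ^ l = f.eval x) (hx : h.eval x ≠ 0) (y' : K)
        (hxy' : y' ^ l = f.eval x), y' = ζ * y →
        SOm ((evH x y hxy hx).restrictScalars F) ≫ δ =
          SOm ((evH x y' hxy' hx).restrictScalars F) ≫ δ := by
      rintro x y hxy hx y' hxy' rfl
      have h3 := hD x y hxy hx
      rw [h1, MonObj.comp_one] at h3
      exact mul_inv_eq_one.mp h3.symm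
    have h4 : ∀ (k : ℕ) (x y : K) (hxy : y ^ l = f.eval x) (hx : h.eval x ≠ 0) (y' : K)
        (hxy' : y' ^ l = f.eval x), y' = ζ ^ k * y →
        SOm ((evH x y hxy hx).restrictScalars F) ≫ δ =
          SOm ((evH x y' hxy' hx).restrictScalars F) ≫ δ := by
      intro k
      induction k with
      | zero =>
        rintro x y hxy hx y' hxy' hy'
        rw [pow_zero, one_mul] at hy'
        subst hy'
        rfl
      | succ k ih =>
        rintro x y hxy hx y' hxy' hy'
        have h5 : (ζ ^ k * y) ^ l = f.eval x := by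
          rw [mul_pow, ← pow_mul, mul_comm k l, pow_mul, hζl, one_pow, one_mul, hxy]
        rw [ih x y hxy hx (ζ ^ k * y) h5 rfl]
        exact h2 x (ζ ^ k * y) h5 hx y' hxy' (by rw [hy', pow_succ']; ring)
    obtain ⟨p, q, hpq, hne⟩ := hδ
    obtain ⟨x, y, hxy, hx, rfl⟩ := eq_evH f l h p
    obtain ⟨x', y', hxy', hx', rfl⟩ := eq_evH f l h q
    rw [evH_algebraMap, evH_algebraMap, evC_of, evC_of, Polynomial.eval_X,
      Polynomial.eval_X] at hpq
    subst hpq
    apply hne
    by_cases hy : y = 0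
    · have hy' : y' = 0 := by
        rw [hy, zero_pow hl0.ne'] at hxy
        rw [← hxy] at hxy'
        exact pow_eq_zero_iff hl0.ne' |>.mp hxy'
      exact h4 0 x y hxy hx y' hxy' (by rw [hy', hy, mul_zero])
    · have h6 : (y' / y) ^ l = 1 := by
        rw [div_pow, hxy, hxy', div_self]
        rw [← hxy]
        exact pow_ne_zero _ hy
      have : NeZero l := ⟨hl0.ne'⟩
      obtain ⟨k, -, hk⟩ := hζ.eq_pow_of_pow_eq_one h6
      exact h4 k x y hxy hx y' hxy' (by rw [hk, div_mul_cancel₀ _ hy])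
  -- the finite extension
  obtain ⟨L, hL, hfL, hhL, hLδ⟩ := exists_field2 (F := F) f l h δ
  have hlift : ∀ q : Polynomial K, (∀ n, q.coeff n ∈ L) →
      ∃ g : Polynomial L, g.map (algebraMap L K) = q := by
    intro q hq
    have h1 : q ∈ Polynomial.lifts (algebraMap L K) := by
      rw [Polynomial.lifts_iff_coeff_lifts]
      intro n
      exact ⟨⟨q.coeff n, hq n⟩, rfl⟩
    exact (Polynomial.mem_lifts q).mp h1
  obtain ⟨g, hg⟩ := hlift f hfL
  obtain ⟨k, hk⟩ := hlift h hhL
  subst hg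
  subst hk
  have hτev : ∀ τ ∈ L.fixingSubgroup, ∀ (P : Polynomial L) (x : K),
      τ ((P.map (algebraMap L K)).eval x) = (P.map (algebraMap L K)).eval (τ x) := by
    intro τ hτ P x
    induction P using Polynomial.induction_on' with
    | add P Q hP hQ =>
      rw [Polynomial.map_add, Polynomial.eval_add, Polynomial.eval_add, map_add, hP, hQ]
    | monomial n a =>
      rw [Polynomial.map_monomial, Polynomial.eval_monomial, Polynomial.eval_monomial, map_mul,
        map_pow]
      congr 1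
      exact (IntermediateField.mem_fixingSubgroup_iff _ τ).mp hτ _ a.2
  -- the points
  let ψ : K → K → Pts A K := fun x y =>
    if hh : y ^ l = (g.map (algebraMap L K)).eval x ∧ (k.map (algebraMap L K)).eval x ≠ 0 then
      Additive.ofMul (SOm ((evH x y hh.1 hh.2).restrictScalars F) ≫ δ) else 0
  have hψ1 : ∀ x y (hxy : y ^ l = (g.map (algebraMap L K)).eval x)
      (hx : (k.map (algebraMap L K)).eval x ≠ 0),
      ψ x y = Additive.ofMul (SOm ((evH x y hxy hx).restrictScalars F) ≫ δ) := by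
    intro x y hxy hx
    exact dif_pos ⟨hxy, hx⟩
  have hψ : ∀ τ ∈ L.fixingSubgroup, ∀ x y : K, y ^ l = (g.map (algebraMap L K)).eval x →
      ψ (τ x) (τ y) = τ • ψ x y := by
    intro τ hτ x y hxy
    have hxy' : (τ y) ^ l = (g.map (algebraMap L K)).eval (τ x) := by
      rw [← map_pow, hxy, hτev τ hτ]
    have hk1 := hτev τ hτ k x
    by_cases hx : (k.map (algebraMap L K)).eval x = 0
    · have hx' : (k.map (algebraMap L K)).eval (τ x) = 0 := by rw [← hk1, hx, map_zero]
      have e1 : ψ x y = 0 := dif_neg (fun hh => hh.2 hx)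
      have e2 : ψ (τ x) (τ y) = 0 := dif_neg (fun hh => hh.2 hx')
      rw [e1, e2, smul_zero]
    · have hx' : (k.map (algebraMap L K)).eval (τ x) ≠ 0 := by
        rw [← hk1]
        exact (map_ne_zero τ).mpr hx
      rw [hψ1 x y hxy hx, hψ1 _ _ hxy' hx', smul_def]
      exact congrArg Additive.ofMul (hLδ τ hτ x y hxy hx hxy' hx').symm
  -- the valuation
  obtain ⟨V, hV⟩ := Pool.Agent.H25.LS.exists_nontrivial_valuation F K hfg
  obtain ⟨c, hc, hcnt⟩ := nt_D2 V.valuation hfin (g.map (algebraMap L K)) l hl0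
    (k.map (algebraMap L K)) x₀ hx₀' hh₀ D hD0 hD1
  apply rank_transfer
  refine Pool.Agent.H25.LS.abstract_infinite F K hfg l hl hlF L hL g hf x₀ hx₀ (Pts A K)
    (disc A K) ψ hψ V.valuation hV ζ hζ ⟨c, hc, ?_⟩ G hG
  intro x y hxy hx hlt N hN heq
  obtain ⟨hhx, hcnt'⟩ := hcnt x y hxy hx hlt
  apply hcnt' N hN
  rw [hψ1 x y hxy hhx, hψ1 x (ζ * y) (hmul hxy) hhx] at heq
  have h2 : (SOm ((evH x y hxy hhx).restrictScalars F) ≫ δ) ^ N =
      (SOm ((evH x (ζ * y) (hmul hxy) hhx).restrictScalars F) ≫ δ) ^ N := heq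
  rw [hD x y hxy hhx, mul_pow, inv_pow, h2]
  exact mul_inv_cancel _

end Pool.H27.LG
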