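import Pool.Agent.H27.LG.Chart

/-! The group law in an affine chart at the identity (MP_6b5a9a_nt). -/

open AlgebraicGeometry CategoryTheory MonObj
open scoped TensorProduct
open Algebra.TensorProduct

noncomputable section

namespace Pool.H27.LG

variable {F : Type} [Field F]

lemma ext_away {S R : Type} [CommRing S] [CommRing R] [Algebra F S] [Algebra F R] (g : S)
    (π : S →ₐ[F] R) (h : IsUnit (π g)) : ∃ π' : Localization.Away g →ₐ[F] R,
      π'.comp (IsScalarTower.toAlgHom F S (Localization.Away g)) = π := by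
  have h1 : ∀ y : Submonoid.powers g, IsUnit (π y) := by
    rintro ⟨_, n, rfl⟩
    change IsUnit (π (g ^ n))
    rw [map_pow]
    exact h.pow n
  refine ⟨IsLocalization.liftAlgHom (M := Submonoid.powers g) (S := Localization.Away g)
    (f := π) h1, ?_⟩
  ext x
  simp

section
variable {A : Over (Spec (.of F))} [GrpObj A] {B : Type} [CommRing B] [Algebra F B]
  (j : SO F B ⟶ A)

/-- the sum of the two projections, as a point with values in the tensor square -/
def PP : SO F (B ⊗[F] B) ⟶ A :=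
  (SOm (includeLeft (R := F) (S := F) (A := B) (B := B)) ≫ j) *
    (SOm (includeRight (R := F) (A := B) (B := B)) ≫ j)

lemma SOm_PP {R : Type} [CommRing R] [Algebra F R] (φ ψ : B →ₐ[F] R) :
    SOm (productMap φ ψ) ≫ PP j = (SOm φ ≫ j) * (SOm ψ ≫ j) := by
  rw [PP, comp_mul, ← Category.assoc, ← Category.assoc, SOm_comp, SOm_comp]
  congr 3
  · ext x
    simp
  · ext x
    simp

variable [IsOpenImmersion j.left] (ε : B →ₐ[F] F) (hε : SOm ε ≫ j = 1)

include hε in
theorem exists_law : ∃ g : B ⊗[F] B, productMap ε ε g ≠ 0 ∧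
    (∀ (R : Type) [Field R] [Algebra F R] (φ ψ : B →ₐ[F] R), productMap φ ψ g ≠ 0 →
      ∃ χ : B →ₐ[F] R, SOm χ ≫ j = (SOm φ ≫ j) * (SOm ψ ≫ j)) ∧
    ∀ b : B, ∃ (k : ℕ) (w : B ⊗[F] B),
      productMap (AlgHom.id F B) ((Algebra.ofId F B).comp ε) w = 0 ∧
      productMap ((Algebra.ofId F B).comp ε) (AlgHom.id F B) w = 0 ∧
      ∀ (R : Type) [Field R] [Algebra F R] (φ ψ χ : B →ₐ[F] R), productMap φ ψ g ≠ 0 →
        SOm χ ≫ j = (SOm φ ≫ j) * (SOm ψ ≫ j) →
        (productMap φ ψ g) ^ k * (χ b - φ b - ψ b + algebraMap F R (ε b)) =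
          productMap φ ψ w := by
  have h0 : SOm (productMap ε ε) ≫ PP j = SOm ε ≫ j := by
    rw [SOm_PP, hε, _root_.mul_one]
  obtain ⟨g, hg, Φ, hΦ⟩ := exists_local j (PP j) (productMap ε ε) ε h0
  have hkey : ∀ (R : Type) [CommRing R] [Algebra F R] (φ ψ : B →ₐ[F] R)
      (π' : Localization.Away g →ₐ[F] R),
      π'.comp (IsScalarTower.toAlgHom F (B ⊗[F] B) (Localization.Away g)) = productMap φ ψ →
      SOm (π'.comp Φ) ≫ j = (SOm φ ≫ j) * (SOm ψ ≫ j) := by
    intro R _ _ φ ψ π' h
    rw [← SOm_comp, Category.assoc, hΦ, ← Category.assoc, SOm_comp, h, SOm_PP]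
  have hone : ∀ (R : Type) [CommRing R] [Algebra F R],
      SOm ((Algebra.ofId F R).comp ε) ≫ j = 1 := by
    intro R _ _
    rw [← SOm_comp, Category.assoc, hε, comp_one]
  refine ⟨g, hg, ?_, ?_⟩
  · intro R _ _ φ ψ hgR
    obtain ⟨π', hπ'⟩ := ext_away g (productMap φ ψ) (Ne.isUnit hgR)
    exact ⟨π'.comp Φ, hkey R φ ψ π' hπ'⟩
  · intro b
    obtain ⟨n, a, ha⟩ := IsLocalization.Away.surj g (Φ b)
    set w₀ : B ⊗[F] B := a - g ^ n * (b ⊗ₜ[F] 1 + 1 ⊗ₜ[F] b - algebraMap F _ (ε b)) with hw₀
    have hside : ∀ (φ ψ : B →ₐ[F] B), (SOm φ ≫ j) * (SOm ψ ≫ j) = j →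
        φ b + ψ b = b + algebraMap F B (ε b) →
        ∃ m : ℕ, (productMap φ ψ g) ^ m * productMap φ ψ w₀ = 0 := by
      intro φ ψ h1 h2
      set r := productMap φ ψ with hr
      let loc := IsScalarTower.toAlgHom F B (Localization.Away (r g))
      obtain ⟨r', hr'⟩ := ext_away g (loc.comp r) (by
        change IsUnit (algebraMap B (Localization.Away (r g)) (r g))
        exact IsLocalization.Away.algebraMap_isUnit (r g))
      have h3 : loc.comp r = productMap (loc.comp φ) (loc.comp ψ) := by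
        apply Algebra.TensorProduct.ext'
        intro x y
        change loc (productMap φ ψ (x ⊗ₜ[F] y)) = _
        rw [productMap_apply_tmul, productMap_apply_tmul, map_mul]
        rfl
      have h4 := hkey _ (loc.comp φ) (loc.comp ψ) r' (hr'.trans h3)
      have h5 : SOm (r'.comp Φ) ≫ j = SOm loc ≫ j := by
        rw [h4, ← SOm_comp, ← SOm_comp, Category.assoc, Category.assoc, ← comp_mul, h1]
      have h6 := pt_inj j h5
      have h7 : r' (Φ b) = algebraMap B (Localization.Away (r g)) b := by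
        exact congrArg (fun t : B →ₐ[F] Localization.Away (r g) => t b) h6
      have h8 : ∀ s : B ⊗[F] B, r' (algebraMap (B ⊗[F] B) (Localization.Away g) s) =
          algebraMap B (Localization.Away (r g)) (r s) := by
        intro s
        exact congrArg (fun t : B ⊗[F] B →ₐ[F] Localization.Away (r g) => t s) hr'
      have h9 : algebraMap B (Localization.Away (r g)) (r w₀) = 0 := by
        have h10 := congrArg r' ha
        rw [map_mul, map_pow, h7, h8, h8] at h10
        rw [hw₀, map_sub, map_sub, ← h10, map_mul, map_pow, map_mul, map_pow, map_sub, map_add]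
        have h11 : r (b ⊗ₜ[F] 1) = φ b := by simp [hr]
        have h12 : r (1 ⊗ₜ[F] b) = ψ b := by simp [hr]
        have h13 : r (algebraMap F _ (ε b)) = algebraMap F B (ε b) := AlgHom.commutes r _
        rw [h11, h12, h13, h2]
        rw [add_sub_cancel_right]
        ring
      obtain ⟨⟨_, m, rfl⟩, hm⟩ := (IsLocalization.map_eq_zero_iff (Submonoid.powers (r g))
        (Localization.Away (r g)) (r w₀)).mp h9
      exact ⟨m, hm⟩
    obtain ⟨m1, hm1⟩ := hside (AlgHom.id F B) ((Algebra.ofId F B).comp ε) (by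
      rw [hone, _root_.mul_one, SOm_id, Category.id_comp]) rfl
    obtain ⟨m2, hm2⟩ := hside ((Algebra.ofId F B).comp ε) (AlgHom.id F B) (by
      rw [hone, _root_.one_mul, SOm_id, Category.id_comp]) (add_comm _ _)
    refine ⟨n + (m1 + m2), g ^ (m1 + m2) * w₀, ?_, ?_, ?_⟩
    · rw [map_mul, map_pow, pow_add, mul_right_comm, hm1, zero_mul]
    · rw [map_mul, map_pow, pow_add, _root_.mul_assoc, hm2, mul_zero]
    · intro R _ _ φ ψ χ hgR hχ
      obtain ⟨π', hπ'⟩ := ext_away g (productMap φ ψ) (Ne.isUnit hgR)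
      have h1 : χ = π'.comp Φ := pt_inj j (hχ.trans (hkey R φ ψ π' hπ').symm)
      have h2 : ∀ s : B ⊗[F] B, π' (algebraMap (B ⊗[F] B) (Localization.Away g) s) =
          productMap φ ψ s := by
        intro s
        have := congrArg (fun t : B ⊗[F] B →ₐ[F] R => t s) hπ'
        simpa using this
      have h3 := congrArg π' ha
      rw [map_mul, map_pow, h2, h2] at h3
      have h4 : χ b = π' (Φ b) := by rw [h1]; rfl
      rw [← h4] at h3
      rw [map_mul, map_pow, hw₀, map_sub, ← h3, map_mul, map_pow, map_sub, map_add]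
      have h11 : productMap φ ψ (b ⊗ₜ[F] 1) = φ b := by simp
      have h12 : productMap φ ψ (1 ⊗ₜ[F] b) = ψ b := by simp
      have h13 : productMap φ ψ (algebraMap F _ (ε b)) = algebraMap F R (ε b) :=
        AlgHom.commutes _ _
      rw [h11, h12, h13]
      ring

end

end Pool.H27.LG
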