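import Pool.Agent.H27.LG.Law
import Pool.Agent.H27.LG.Bound

/-! The addition law near the identity, with estimates (MP_6b5a9a_nt). -/

open AlgebraicGeometry CategoryTheory
open scoped TensorProduct
open scoped MonObj
open Algebra.TensorProduct

noncomputable section

namespace Pool.H27.LG

section
variable {F Ω : Type} [Field F] [Field Ω] [Algebra F Ω] {Γ₀ : Type}
  [LinearOrderedCommGroupWithZero Γ₀] (v : Valuation Ω Γ₀)

lemma exists_min {C D : Ω} (hC : C ≠ 0) (hD : D ≠ 0) : ∃ E : Ω, E ≠ 0 ∧ v E ≤ v C ∧ v E ≤ v D := by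
  rcases le_total (v C) (v D) with h | h
  · exact ⟨C, hC, le_refl _, h⟩
  · exact ⟨D, hD, h, le_refl _⟩

variable {A : Over (Spec (.of F))} [GrpObj A] {B : Type} [CommRing B] [Algebra F B]
  (j : SO F B ⟶ A) [IsOpenImmersion j.left] (ε : B →ₐ[F] F)
  (hj : SOm ε ≫ j = 1)
  {I : Type} [Finite I] (u : I → B)
  (hu : Algebra.adjoin F (Set.range u) = ⊤) (hε : ∀ i, ε (u i) = 0)

include hu hε hj in
theorem law_est : ∃ c : Ω, c ≠ 0 ∧ ∃ C : Ω, C ≠ 0 ∧ ∀ (φ ψ : B →ₐ[F] Ω) (ρ σ : Γ₀),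
    ρ < v c → σ < v c → Sm v u φ ρ → Sm v u ψ σ →
    ∃ χ : B →ₐ[F] Ω, SOm χ ≫ j = (SOm φ ≫ j) * (SOm ψ ≫ j) ∧
      ∀ i, v (χ (u i) - φ (u i) - ψ (u i)) ≤ v C * (ρ * σ) := by
  obtain ⟨g, hg, hex, hform⟩ := exists_law j ε hj
  set κ : Ω := algebraMap F Ω (productMap ε ε g) with hκ
  have hκ0 : κ ≠ 0 := by
    rw [hκ]
    exact (map_ne_zero_iff _ (algebraMap F Ω).injective).mpr hg
  obtain ⟨G, hG, hGb⟩ := bound_tmul v ε u hu hε g
  have hgood : ∀ (φ ψ : B →ₐ[F] Ω) (ρ σ : Γ₀), ρ ≤ 1 → σ ≤ 1 → ρ < v (κ / G) → σ < v (κ / G) →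
      Sm v u φ ρ → Sm v u ψ σ → v (productMap φ ψ g) = v κ := by
    intro φ ψ ρ σ hρ1 hσ1 hρ hσ hφ hψ
    have hm1 : max ρ σ ≤ 1 := max_le hρ1 hσ1
    have hm : max ρ σ < v (κ / G) := max_lt hρ hσ
    have h1 := hGb φ ψ (max ρ σ) hm1 (fun i => (hφ i).trans (le_max_left _ _))
      (fun i => (hψ i).trans (le_max_right _ _))
    have hvG : 0 < v G := (Valuation.pos_iff v).mpr hG
    have h2 : v G * max ρ σ < v κ := by
      rw [map_div₀] at hm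
      rwa [lt_div_iff₀ hvG, mul_comm] at hm
    have h3 : v (productMap φ ψ g - κ) < v κ := lt_of_le_of_lt h1 h2
    exact Valuation.map_eq_of_sub_lt v h3
  choose k w hw1 hw2 hw using hform
  have hbil : ∀ i, ∃ C : Ω, C ≠ 0 ∧ ∀ (φ ψ : B →ₐ[F] Ω) (ρ σ : Γ₀), ρ ≤ 1 →
    σ ≤ 1 → Sm v u φ ρ → Sm v u ψ σ → v (productMap φ ψ (w (u i))) ≤ v C * (ρ * σ) := by
    intro i
    obtain ⟨C, hC, h⟩ := bound_bil v ε u hu hε (w (u i))
    refine ⟨C, hC, fun φ ψ ρ σ hρ hσ hφ hψ => ?_⟩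
    have h1 := h φ ψ ρ σ hρ hσ hφ hψ
    have e1 : ∀ φ : B →ₐ[F] Ω, productMap φ (eO ε Ω) (w (u i)) = 0 := by
      intro φ
      have : productMap φ (eO ε Ω) =
          φ.comp (productMap (AlgHom.id F B) ((Algebra.ofId F B).comp ε)) := by
        apply Algebra.TensorProduct.ext'
        intro x y
        simp [productMap_apply_tmul, Algebra.ofId_apply]
      rw [this, AlgHom.comp_apply, hw1, map_zero]
    have e2 : ∀ φ : B →ₐ[F] Ω, productMap (eO ε Ω) φ (w (u i)) = 0 := by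
      intro φ
      have : productMap (eO ε Ω) φ =
          φ.comp (productMap ((Algebra.ofId F B).comp ε) (AlgHom.id F B)) := by
        apply Algebra.TensorProduct.ext'
        intro x y
        simp [productMap_apply_tmul, Algebra.ofId_apply]
      rw [this, AlgHom.comp_apply, hw2, map_zero]
    rw [e1, e2, e1] at h1
    simpa using h1
  choose Cb hCb hCb' using hbil
  obtain ⟨E, hE, hEi⟩ := exists_max_fin v (fun i => Cb i / κ ^ (k (u i)))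
    (fun i => div_ne_zero (hCb i) (pow_ne_zero _ hκ0))
  obtain ⟨c, hc, hc1, hc2⟩ := exists_min v (div_ne_zero hκ0 hG) (one_ne_zero (α := Ω))
  rw [map_one] at hc2
  refine ⟨c, hc, E, hE, ?_⟩
  intro φ ψ ρ σ hρ hσ hφ hψ
  have hρ1 : ρ ≤ 1 := (hρ.trans_le hc2).le
  have hσ1 : σ ≤ 1 := (hσ.trans_le hc2).le
  have hgv := hgood φ ψ ρ σ hρ1 hσ1 (hρ.trans_le hc1) (hσ.trans_le hc1) hφ hψ
  have hg0 : productMap φ ψ g ≠ 0 := by
    rw [← Valuation.ne_zero_iff v, hgv]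
    exact (Valuation.ne_zero_iff v).mpr hκ0
  obtain ⟨χ, hχ⟩ := hex Ω φ ψ hg0
  refine ⟨χ, hχ, fun i => ?_⟩
  have h1 := hw (u i) Ω φ ψ χ hg0 hχ
  rw [hε i, map_zero, add_zero] at h1
  have h2 := hCb' i φ ψ ρ σ hρ1 hσ1 hφ hψ
  rw [← h1, map_mul, map_pow, hgv] at h2
  have h3 := hEi i
  rw [map_div₀, map_pow] at h3
  have hκv : 0 < v κ ^ (k (u i)) := pow_pos ((Valuation.pos_iff v).mpr hκ0) _
  rw [div_le_iff₀ hκv] at h3
  have h4 : v κ ^ (k (u i)) * v (χ (u i) - φ (u i) - ψ (u i)) ≤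
      v κ ^ (k (u i)) * (v E * (ρ * σ)) := by
    refine h2.trans ?_
    rw [← mul_assoc (v κ ^ (k (u i))), mul_comm (v κ ^ (k (u i))) (v E)]
    exact mul_le_mul_left h3 _
  exact le_of_mul_le_mul_left h4 hκv

end

end Pool.H27.LG
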