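import Mathlib

/-! Points near the identity are not torsion, in abstract form (MP_6b5a9a_nt). -/

namespace Pool.H27.LG

section ints
variable {Ω : Type} [Field Ω] {Γ₀ : Type} [LinearOrderedCommGroupWithZero Γ₀] (v : Valuation Ω Γ₀)

lemma v_nat_le (n : ℕ) : v (n : Ω) ≤ 1 := by
  induction n with
  | zero => simp
  | succ n ih =>
    rw [Nat.cast_succ]
    exact (v.map_add _ _).trans (max_le ih (by rw [map_one]))

lemma v_int_le (n : ℤ) : v (n : Ω) ≤ 1 := by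
  rcases Int.eq_nat_or_neg n with ⟨m, rfl | rfl⟩
  · exact_mod_cast v_nat_le v m
  · rw [Int.cast_neg, Valuation.map_neg]
    exact_mod_cast v_nat_le v m

lemma v_coprime {p m : ℕ} (hp : v (p : Ω) < 1) (hm : Nat.Coprime p m) : v (m : Ω) = 1 := by
  apply le_antisymm (v_nat_le v m)
  by_contra h
  push Not at h
  have h1 : (p : ℤ) * (p.gcdA m) + (m : ℤ) * (p.gcdB m) = 1 := by
    have := Nat.gcd_eq_gcd_ab p m
    rw [Nat.Coprime] at hm
    rw [hm] at this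
    exact_mod_cast this.symm
  have h2 : ((p : Ω) * ((p.gcdA m : ℤ) : Ω) + (m : Ω) * ((p.gcdB m : ℤ) : Ω)) = 1 := by
    exact_mod_cast congrArg (fun t : ℤ => (t : Ω)) h1
  have h3 : v ((p : Ω) * ((p.gcdA m : ℤ) : Ω) + (m : Ω) * ((p.gcdB m : ℤ) : Ω)) < 1 := by
    refine v.map_add_lt ?_ ?_
    · rw [map_mul]
      exact mul_lt_one_of_lt_of_le hp (v_int_le v _)
    · rw [map_mul]
      exact mul_lt_one_of_lt_of_le h (v_int_le v _)
  rw [h2, map_one] at h3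
  exact lt_irrefl _ h3

end ints

section
variable {Ω : Type} [Field Ω] {Γ₀ : Type} [LinearOrderedCommGroupWithZero Γ₀] (v : Valuation Ω Γ₀)
  {G : Type} [Monoid G] {I : Type} (R : G → (I → Ω) → Prop)
  (c C : Ω)
  (hadd : ∀ (P Q : G) (z w : I → Ω) (ρ σ : Γ₀), ρ < v c → σ < v c → R P z → R Q w →
    (∀ i, v (z i) ≤ ρ) → (∀ i, v (w i) ≤ σ) →
    ∃ y, R (P * Q) y ∧ ∀ i, v (y i - z i - w i) ≤ v C * (ρ * σ))

include hadd in
lemma mult_est {P : G} {z : I → Ω} {ρ : Γ₀} (hρ : ρ < v c) (hCρ : v C * ρ ≤ 1) (hz : R P z)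
    (hzρ : ∀ i, v (z i) ≤ ρ) (N : ℕ) : ∃ y, R (P ^ (N + 1)) y ∧ (∀ i, v (y i) ≤ ρ) ∧
      ∀ i, v (y i - ((N + 1 : ℕ) : Ω) * z i) ≤ v C * (ρ * ρ) := by
  induction N with
  | zero =>
    refine ⟨z, by simpa using hz, hzρ, fun i => ?_⟩
    simp
  | succ N ih =>
    obtain ⟨y, hy, hyρ, hyz⟩ := ih
    obtain ⟨x, hx, hxy⟩ := hadd (P ^ (N + 1)) P y z ρ ρ hρ hρ hy hz hyρ hzρ
    have h1 : ∀ i, v (x i - ((N + 1 + 1 : ℕ) : Ω) * z i) ≤ v C * (ρ * ρ) := by
      intro i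
      have : x i - ((N + 1 + 1 : ℕ) : Ω) * z i =
          (x i - y i - z i) + (y i - ((N + 1 : ℕ) : Ω) * z i) := by
        push_cast
        ring
      rw [this]
      exact (v.map_add _ _).trans (max_le (hxy i) (hyz i))
    have h2 : v C * (ρ * ρ) ≤ ρ := by
      rw [← mul_assoc]
      exact mul_le_of_le_one_left' hCρ
    refine ⟨x, by rw [pow_succ]; exact hx, fun i => ?_, h1⟩
    have : x i = (x i - ((N + 1 + 1 : ℕ) : Ω) * z i) + ((N + 1 + 1 : ℕ) : Ω) * z i := by ring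
    rw [this]
    refine (v.map_add _ _).trans (max_le ((h1 i).trans h2) ?_)
    rw [map_mul]
    exact (mul_le_of_le_one_left' (v_nat_le v _)).trans (hzρ i)

include hadd in
lemma mult_unit {P : G} {z : I → Ω} {ρ : Γ₀} (hρ : ρ < v c) (hCρ : v C * ρ < 1) (hz : R P z)
    (hzρ : ∀ i, v (z i) ≤ ρ) (i₀ : I) (h0 : v (z i₀) = ρ) (hρ0 : ρ ≠ 0) (N : ℕ)
    (hN : v (N : Ω) = 1) : ∃ y, R (P ^ N) y ∧ (∀ i, v (y i) ≤ ρ) ∧ v (y i₀) = ρ := by
  have hN0 : N ≠ 0 := by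
    rintro rfl
    simp at hN
  obtain ⟨M, rfl⟩ := Nat.exists_eq_succ_of_ne_zero hN0
  obtain ⟨y, hy, hyρ, hyz⟩ := mult_est v R c C hadd hρ hCρ.le hz hzρ M
  refine ⟨y, hy, hyρ, ?_⟩
  have h1 : v (((M + 1 : ℕ) : Ω) * z i₀) = ρ := by
    rw [map_mul, h0]
    rw [Nat.succ_eq_add_one] at hN
    rw [hN, one_mul]
  have h2 : v (y i₀ - ((M + 1 : ℕ) : Ω) * z i₀) < v (((M + 1 : ℕ) : Ω) * z i₀) := by
    rw [h1]
    refine lt_of_le_of_lt (hyz i₀) ?_
    rw [← mul_assoc]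
    exact mul_lt_of_lt_one_left (zero_lt_iff.mpr hρ0) hCρ
  rw [Valuation.map_eq_of_sub_lt v h2, h1]

include hadd in
lemma mult_p {P : G} {z : I → Ω} {ρ : Γ₀} (hρ : ρ < v c) {p : ℕ} (hp : v (p : Ω) < 1)
    (hp0 : (p : Ω) ≠ 0) (hCρ : v C * ρ < v (p : Ω)) (hz : R P z)
    (hzρ : ∀ i, v (z i) ≤ ρ) (i₀ : I) (h0 : v (z i₀) = ρ) (hρ0 : ρ ≠ 0) :
    ∃ y, R (P ^ p) y ∧ (∀ i, v (y i) ≤ v (p : Ω) * ρ) ∧ v (y i₀) = v (p : Ω) * ρ := by
  have hpn : p ≠ 0 := by
    rintro rfl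
    simp at hp0
  obtain ⟨M, rfl⟩ := Nat.exists_eq_succ_of_ne_zero hpn
  rw [Nat.succ_eq_add_one] at *
  obtain ⟨y, hy, hyρ, hyz⟩ := mult_est v R c C hadd hρ (hCρ.le.trans hp.le) hz hzρ M
  have h3 : v C * (ρ * ρ) < v ((M + 1 : ℕ) : Ω) * ρ := by
    rw [← mul_assoc]
    exact mul_lt_mul_of_pos_right hCρ (zero_lt_iff.mpr hρ0)
  refine ⟨y, hy, fun i => ?_, ?_⟩
  · have : y i = (y i - ((M + 1 : ℕ) : Ω) * z i) + ((M + 1 : ℕ) : Ω) * z i := by ring
    rw [this]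
    refine (v.map_add _ _).trans (max_le ((hyz i).trans h3.le) ?_)
    rw [map_mul]
    exact mul_le_mul_right (hzρ i) _
  · have h1 : v (((M + 1 : ℕ) : Ω) * z i₀) = v ((M + 1 : ℕ) : Ω) * ρ := by
      rw [map_mul, h0]
    have h2 : v (y i₀ - ((M + 1 : ℕ) : Ω) * z i₀) < v (((M + 1 : ℕ) : Ω) * z i₀) := by
      rw [h1]
      exact lt_of_le_of_lt (hyz i₀) h3
    rw [Valuation.map_eq_of_sub_lt v h2, h1]

include hadd in
lemma mult_ppow {P : G} {z : I → Ω} {ρ : Γ₀} (hρ : ρ < v c) {p : ℕ} (hp : v (p : Ω) < 1)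
    (hp0 : (p : Ω) ≠ 0) (hCρ : v C * ρ < v (p : Ω)) (hz : R P z)
    (hzρ : ∀ i, v (z i) ≤ ρ) (i₀ : I) (h0 : v (z i₀) = ρ) (hρ0 : ρ ≠ 0) (k : ℕ) :
    ∃ y, R (P ^ (p ^ k)) y ∧ (∀ i, v (y i) ≤ v (p : Ω) ^ k * ρ) ∧
      v (y i₀) = v (p : Ω) ^ k * ρ := by
  induction k with
  | zero => exact ⟨z, by simpa using hz, by simpa using hzρ, by simpa using h0⟩
  | succ k ih =>
    obtain ⟨y, hy, hyρ, hy0⟩ := ih
    have hpk : v (p : Ω) ^ k ≤ 1 := pow_le_one₀ zero_le hp.le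
    have hle : v (p : Ω) ^ k * ρ ≤ ρ := mul_le_of_le_one_left' hpk
    have hvp0 : v (p : Ω) ≠ 0 := (Valuation.ne_zero_iff v).mpr hp0
    obtain ⟨x, hx, hxρ, hx0⟩ := mult_p v R c C hadd (lt_of_le_of_lt hle hρ) hp hp0
      (lt_of_le_of_lt (mul_le_mul_right hle (v C)) hCρ) hy hyρ i₀ hy0
      (mul_ne_zero (pow_ne_zero _ hvp0) hρ0)
    refine ⟨x, ?_, fun i => ?_, ?_⟩
    · rw [pow_succ, pow_mul]; exact hx
    · rw [pow_succ', mul_assoc]; exact hxρ i
    · rw [pow_succ', mul_assoc]; exact hx0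

end

section
variable {Ω : Type} [Field Ω] {Γ₀ : Type} [LinearOrderedCommGroupWithZero Γ₀] (v : Valuation Ω Γ₀)
  {G : Type} [Monoid G] {I : Type} [Finite I] (R : G → (I → Ω) → Prop)
  (hR1 : ∀ z, R 1 z → z = 0) (hR0 : ∀ P, R P 0 → P = 1) (hRu : ∀ P z w, R P z → R P w → z = w)
  (c C : Ω) (hc : c ≠ 0) (hC : C ≠ 0)
  (hadd : ∀ (P Q : G) (z w : I → Ω) (ρ σ : Γ₀), ρ < v c → σ < v c → R P z → R Q w →
    (∀ i, v (z i) ≤ ρ) → (∀ i, v (w i) ≤ σ) →
    ∃ y, R (P * Q) y ∧ ∀ i, v (y i - z i - w i) ≤ v C * (ρ * σ))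
  (hfin : ∀ p : ℕ, p.Prime → (p : Ω) = 0 → {P : G | P ^ p = 1}.Finite)

/-- in a finite nonzero family one entry has the largest value -/
lemma exists_largest (z : I → Ω) (hz : z ≠ 0) : ∃ i₀, z i₀ ≠ 0 ∧ ∀ i, v (z i) ≤ v (z i₀) := by
  have hne : Nonempty I := by
    by_contra h
    rw [not_nonempty_iff] at h
    exact hz (Subsingleton.elim _ _)
  obtain ⟨i₀, hi₀⟩ := Finite.exists_max (fun i => v (z i))
  refine ⟨i₀, ?_, hi₀⟩
  intro h0
  apply hz
  funext i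
  have := hi₀ i
  simp only [h0, map_zero, le_zero_iff, map_eq_zero] at this
  exact this

include hR1 hR0 hRu hc hC hadd hfin in
theorem nontorsion : ∃ d : Ω, d ≠ 0 ∧ ∀ (P : G) (z : I → Ω) (ρ : Γ₀), ρ < v d → R P z →
    (∀ i, v (z i) ≤ ρ) → z ≠ 0 → ∀ N : ℕ, N ≠ 0 → P ^ N ≠ 1 := by
  classical
  -- choose the bound
  have hC0 : v C ≠ 0 := (Valuation.ne_zero_iff v).mpr hC
  have hCp : 0 < v C := zero_lt_iff.mpr hC0
  obtain ⟨d1, hd1, hd1c, hd1C⟩ : ∃ d1 : Ω, d1 ≠ 0 ∧ v d1 ≤ v c ∧ v C * v d1 ≤ 1 := by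
    rcases le_total (v c) (v (1 / C)) with h | h
    · refine ⟨c, hc, le_refl _, ?_⟩
      rw [map_div₀, map_one] at h
      rw [mul_comm]
      exact (le_div_iff₀ hCp).mp h
    · refine ⟨1 / C, one_div_ne_zero hC, h, ?_⟩
      rw [map_div₀, map_one, mul_one_div_cancel hC0]
  -- the case without a small prime
  by_cases hex : ∃ p : ℕ, p.Prime ∧ v (p : Ω) < 1
  · obtain ⟨p, hp, hp1⟩ := hex
    have hcop : ∀ m : ℕ, ¬ p ∣ m → v (m : Ω) = 1 := fun m hm =>
      v_coprime v hp1 ((Nat.Prime.coprime_iff_not_dvd hp).mpr hm)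
    by_cases hp0 : (p : Ω) = 0
    · -- characteristic p
      have hS := hfin p hp hp0
      obtain ⟨d2, hd2, hd2S⟩ : ∃ d2 : Ω, d2 ≠ 0 ∧ ∀ Q ∈ hS.toFinset, Q ≠ 1 → ∀ z, R Q z →
          ¬ ∀ i, v (z i) < v d2 := by
        have key : ∀ s : Finset G, ∃ d2 : Ω, d2 ≠ 0 ∧ ∀ Q ∈ s, Q ≠ 1 → ∀ z, R Q z →
            ¬ ∀ i, v (z i) < v d2 := by
          intro s
          induction s using Finset.induction_on with
          | empty => exact ⟨1, one_ne_zero, by simp⟩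
          | insert a s ha ih =>
            obtain ⟨d, hd, h⟩ := ih
            by_cases h1 : a ≠ 1 ∧ ∃ z, R a z
            · obtain ⟨ha1, z, hz⟩ := h1
              have hz0 : z ≠ 0 := by
                rintro rfl
                exact ha1 (hR0 a hz)
              obtain ⟨i₀, hi₀, -⟩ := exists_largest v z hz0
              rcases le_total (v d) (v (z i₀)) with h2 | h2
              · refine ⟨d, hd, ?_⟩
                intro Q hQ hQ1 w hw hlt
                rcases Finset.mem_insert.mp hQ with rfl | hQ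
                · rw [hRu _ _ _ hw hz] at hlt
                  exact absurd (hlt i₀) (not_lt.mpr h2)
                · exact h Q hQ hQ1 w hw hlt
              · refine ⟨z i₀, hi₀, ?_⟩
                intro Q hQ hQ1 w hw hlt
                rcases Finset.mem_insert.mp hQ with rfl | hQ
                · rw [hRu _ _ _ hw hz] at hlt
                  exact lt_irrefl _ (hlt i₀)
                · exact h Q hQ hQ1 w hw (fun i => (hlt i).trans_le h2)
            · refine ⟨d, hd, ?_⟩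
              intro Q hQ hQ1 w hw hlt
              rcases Finset.mem_insert.mp hQ with rfl | hQ
              · exact h1 ⟨hQ1, w, hw⟩
              · exact h Q hQ hQ1 w hw hlt
        exact key _
      obtain ⟨d, hd, hdd1, hdd2⟩ : ∃ d : Ω, d ≠ 0 ∧ v d ≤ v d1 ∧ v d ≤ v d2 := by
        rcases le_total (v d1) (v d2) with h | h
        · exact ⟨d1, hd1, le_refl _, h⟩
        · exact ⟨d2, hd2, h, le_refl _⟩
      refine ⟨d, hd, ?_⟩
      intro P z ρ hρ hz hzρ hz0 N hN hPN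
      have hρc : ρ < v c := hρ.trans_le (hdd1.trans hd1c)
      have hCρ : v C * ρ < 1 := lt_of_lt_of_le
        (mul_lt_mul_of_pos_left (hρ.trans_le hdd1) hCp) hd1C
      obtain ⟨k, m, hm, rfl⟩ := Nat.exists_eq_pow_mul_and_not_dvd hN p hp.ne_one
      have hpk : p ^ k ≠ 0 := pow_ne_zero _ hp.ne_zero
      -- P ^ (p ^ k) = 1
      have h1 : P ^ (p ^ k) = 1 := by
        obtain ⟨M, hM⟩ := Nat.exists_eq_succ_of_ne_zero hpk
        obtain ⟨y, hy, hyρ, -⟩ := mult_est v R c C hadd hρc hCρ.le hz hzρ M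
        rw [← Nat.succ_eq_add_one, ← hM] at hy
        by_contra hne
        have hy0 : y ≠ 0 := by
          rintro rfl
          exact hne (hR0 _ hy)
        obtain ⟨i₀, hi₀, hmax⟩ := exists_largest v y hy0
        have hle : v (y i₀) ≤ ρ := hyρ i₀
        obtain ⟨x, hx, -, hx0⟩ := mult_unit v R c C hadd (lt_of_le_of_lt hle hρc)
          (lt_of_le_of_lt (mul_le_mul_right hle (v C)) hCρ) hy hmax i₀ rfl
          ((Valuation.ne_zero_iff v).mpr hi₀) m (hcop m hm)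
        rw [← pow_mul, hPN] at hx
        have := hR1 _ hx
        rw [this] at hx0
        simp only [Pi.zero_apply, map_zero] at hx0
        exact hi₀ ((Valuation.zero_iff v).mp hx0.symm)
      have hex2 : ∃ k, P ^ (p ^ k) = 1 := ⟨k, h1⟩
      set t := Nat.find hex2 with ht
      have ht1 : P ^ (p ^ t) = 1 := Nat.find_spec hex2
      have ht0 : t ≠ 0 := by
        intro h0
        rw [h0, pow_zero, pow_one] at ht1
        rw [ht1] at hz
        exact hz0 (hR1 z hz)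
      obtain ⟨s, hs⟩ := Nat.exists_eq_succ_of_ne_zero ht0
      have hs1 : P ^ (p ^ s) ≠ 1 := Nat.find_min hex2 (by omega)
      have hs2 : (P ^ (p ^ s)) ^ p = 1 := by
        rw [← pow_mul, ← pow_succ, ← Nat.succ_eq_add_one, ← hs]
        exact ht1
      have hps : p ^ s ≠ 0 := pow_ne_zero _ hp.ne_zero
      obtain ⟨M, hM⟩ := Nat.exists_eq_succ_of_ne_zero hps
      obtain ⟨y, hy, hyρ, -⟩ := mult_est v R c C hadd hρc hCρ.le hz hzρ M
      rw [← Nat.succ_eq_add_one, ← hM] at hy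
      exact hd2S _ (by rw [Set.Finite.mem_toFinset]; exact hs2) hs1 y hy
        (fun i => lt_of_le_of_lt (hyρ i) (hρ.trans_le hdd2))
    · -- a small prime, different from the characteristic
      have hvp0 : v (p : Ω) ≠ 0 := (Valuation.ne_zero_iff v).mpr hp0
      refine ⟨d1 * p, mul_ne_zero hd1 hp0, ?_⟩
      intro P z ρ hρ hz hzρ hz0 N hN hPN
      rw [map_mul] at hρ
      obtain ⟨i₀, hi₀, hmax⟩ := exists_largest v z hz0
      have hle : v (z i₀) ≤ ρ := hzρ i₀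
      have hρd : ρ < v d1 := hρ.trans_le (mul_le_of_le_one_right' hp1.le)
      have hρc : v (z i₀) < v c := lt_of_le_of_lt hle (hρd.trans_le hd1c)
      have hCρ : v C * v (z i₀) < v (p : Ω) := by
        refine lt_of_le_of_lt (mul_le_mul_right hle (v C)) ?_
        refine lt_of_lt_of_le (mul_lt_mul_of_pos_left hρ hCp) ?_
        rw [← mul_assoc]
        exact mul_le_of_le_one_left' hd1C
      have hzi : v (z i₀) ≠ 0 := (Valuation.ne_zero_iff v).mpr hi₀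
      obtain ⟨k, m, hm, rfl⟩ := Nat.exists_eq_pow_mul_and_not_dvd hN p hp.ne_one
      obtain ⟨y, hy, hyρ, hy0⟩ := mult_ppow v R c C hadd hρc hp1 hp0 hCρ hz hmax i₀ rfl hzi k
      have hpk : v (p : Ω) ^ k ≤ 1 := pow_le_one₀ zero_le hp1.le
      have hle2 : v (p : Ω) ^ k * v (z i₀) ≤ v (z i₀) := mul_le_of_le_one_left' hpk
      obtain ⟨x, hx, -, hx0⟩ := mult_unit v R c C hadd (lt_of_le_of_lt hle2 hρc)
        (lt_of_le_of_lt (mul_le_mul_right hle2 (v C)) (hCρ.trans hp1)) hy hyρ i₀ hy0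
        (mul_ne_zero (pow_ne_zero _ hvp0) hzi) m (hcop m hm)
      rw [← pow_mul, hPN] at hx
      have := hR1 _ hx
      rw [this] at hx0
      simp only [Pi.zero_apply, map_zero] at hx0
      exact (mul_ne_zero (pow_ne_zero _ hvp0) hzi) hx0.symm
  · -- all integers are units or zero
    push Not at hex
    have hall : ∀ N : ℕ, N ≠ 0 → v (N : Ω) = 1 := by
      intro N
      induction N using Nat.recOnMul with
      | zero => intro h; exact absurd rfl h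
      | one => intro _; simp
      | prime p hp => intro _; exact le_antisymm (v_nat_le v p) (hex p hp)
      | mul a b iha ihb =>
        intro hab
        rw [Nat.cast_mul, map_mul, iha (left_ne_zero_of_mul hab), ihb (right_ne_zero_of_mul hab),
          mul_one]
    refine ⟨d1, hd1, ?_⟩
    intro P z ρ hρ hz hzρ hz0 N hN hPN
    obtain ⟨i₀, hi₀, hmax⟩ := exists_largest v z hz0
    have hle : v (z i₀) ≤ ρ := hzρ i₀
    have hρc : v (z i₀) < v c := lt_of_le_of_lt hle (hρ.trans_le hd1c)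
    have hCρ : v C * v (z i₀) < 1 := lt_of_le_of_lt (mul_le_mul_right hle (v C))
      (lt_of_lt_of_le (mul_lt_mul_of_pos_left hρ hCp) hd1C)
    have hzi : v (z i₀) ≠ 0 := (Valuation.ne_zero_iff v).mpr hi₀
    obtain ⟨x, hx, -, hx0⟩ := mult_unit v R c C hadd hρc hCρ hz hmax i₀ rfl hzi N (hall N hN)
    rw [hPN] at hx
    have := hR1 _ hx
    rw [this] at hx0
    simp only [Pi.zero_apply, map_zero] at hx0
    exact hzi hx0.symm

end

end Pool.H27.LG
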