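import Pool.Agent.H27.LG.LawEst
import Pool.Agent.H27.LG.NTA
import Pool.Agent.H27.LG.Descent
import Pool.Agent.H27.LG.Dense
import Pool.Agent.H27.LG.Curve

/-! Points of a group scheme on a curve near a zero are not torsion (MP_6b5a9a_nt). -/

open AlgebraicGeometry CategoryTheory
open scoped MonObj TensorProduct

noncomputable section

namespace Pool.H27.LG

section
variable {F Ω : Type} [Field F] [Field Ω] [Algebra F Ω] {Γ₀ : Type}
  [LinearOrderedCommGroupWithZero Γ₀] (v : Valuation Ω Γ₀)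
variable {A : Over (Spec (.of F))} [GrpObj A] {B : Type} [CommRing B] [Algebra F B]
  (j : SO F B ⟶ A) [IsOpenImmersion j.left] (ε : B →ₐ[F] F)
  (hj : SOm ε ≫ j = 1)
  {I : Type} [Finite I] (u : I → B)
  (hu : Algebra.adjoin F (Set.range u) = ⊤) (hε : ∀ i, ε (u i) = 0)

include hj in
lemma eO_point (R : Type) [Field R] [Algebra F R] : SOm (eO ε R) ≫ j = 1 := by
  rw [← SOm_comp, Category.assoc, hj, MonObj.comp_one]

include hu hε in
lemma eq_eO (R : Type) [CommRing R] [Algebra F R] (φ : B →ₐ[F] R) (h : ∀ i, φ (u i) = 0) :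
    φ = (Algebra.ofId F R).comp ε := by
  apply AlgHom.ext_of_adjoin_eq_top hu
  rintro _ ⟨i, rfl⟩
  rw [h i, AlgHom.comp_apply, hε i, map_zero]

include hu hε hj in
theorem near_one (hfin : ∀ p : ℕ, p.Prime → (p : Ω) = 0 → {P : SO F Ω ⟶ A | P ^ p = 1}.Finite) :
    ∃ d : Ω, d ≠ 0 ∧ ∀ (φ : B →ₐ[F] Ω) (ρ : Γ₀), ρ < v d → Sm v u φ ρ →
      (∃ i, φ (u i) ≠ 0) → ∀ N : ℕ, N ≠ 0 → (SOm φ ≫ j) ^ N ≠ 1 := by
  obtain ⟨c, hc, C, hC, hlaw⟩ := law_est v j ε hj u hu hε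
  obtain ⟨d, hd, hnt⟩ := nontorsion (G := (SO F Ω ⟶ A)) v
    (fun P z => ∃ φ : B →ₐ[F] Ω, SOm φ ≫ j = P ∧ ∀ i, z i = φ (u i))
    (by
      rintro z ⟨φ, h1, h2⟩
      have h3 : φ = eO ε Ω := pt_inj j (h1.trans (eO_point j ε hj Ω).symm)
      funext i
      rw [h2 i, h3]
      change algebraMap F Ω (ε (u i)) = 0
      rw [hε i, map_zero])
    (by
      rintro P ⟨φ, h1, h2⟩
      rw [← h1, eq_eO ε u hu hε Ω φ (fun i => (h2 i).symm)]
      exact eO_point j ε hj Ω)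
    (by
      rintro P z w ⟨φ, h1, h2⟩ ⟨ψ, h3, h4⟩
      have h5 : φ = ψ := pt_inj j (h1.trans h3.symm)
      funext i
      rw [h2 i, h4 i, h5])
    c C hc hC
    (by
      rintro P Q z w ρ σ hρ hσ ⟨φ, h1, h2⟩ ⟨ψ, h3, h4⟩ hz hw
      obtain ⟨χ, hχ, hest⟩ := hlaw φ ψ ρ σ hρ hσ (fun i => by rw [← h2 i]; exact hz i)
        (fun i => by rw [← h4 i]; exact hw i)
      refine ⟨fun i => χ (u i), ⟨χ, ?_, fun i => rfl⟩, fun i => ?_⟩
      · rw [hχ, h1, h3]
      · rw [h2 i, h4 i]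
        exact hest i)
    hfin
  refine ⟨d, hd, ?_⟩
  intro φ ρ hρ hφ hi N hN
  obtain ⟨i, hi⟩ := hi
  exact hnt (SOm φ ≫ j) (fun i => φ (u i)) ρ hρ ⟨φ, rfl, fun i => rfl⟩ hφ
    (fun h => hi (congrFun h i)) N hN

end

section
variable {F Ω : Type} [Field F] [Field Ω] [Algebra F Ω] {Γ₀ : Type}
  [LinearOrderedCommGroupWithZero Γ₀] (v : Valuation Ω Γ₀)
variable {A : Over (Spec (.of F))} [GrpObj A]

/-- a chart at the identity with coordinates -/
theorem exists_chart_one (A : Over (Spec (.of F))) [GrpObj A] [LocallyOfFiniteType A.hom] :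
    ∃ (B : Type) (_ : CommRing B) (_ : Algebra F B) (j : SO F B ⟶ A) (ε : B →ₐ[F] F) (I : Type)
      (_ : Finite I) (u : I → B), IsOpenImmersion j.left ∧ SOm ε ≫ j = 1 ∧
      Algebra.adjoin F (Set.range u) = ⊤ ∧ ∀ i, ε (u i) = 0 := by
  obtain ⟨B, _, _, j, hj, hft, ε, hε⟩ := exists_chart_point A (1 : SO F F ⟶ A)
  obtain ⟨s, hs⟩ := hft.out
  refine ⟨B, inferInstance, inferInstance, j, ε, s, inferInstance,
    fun b => (b : B) - algebraMap F B (ε b), hj, hε, ?_, ?_⟩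
  · rw [eq_top_iff, ← hs, Algebra.adjoin_le_iff]
    intro b hb
    set S := Algebra.adjoin F (Set.range fun b : s => (b : B) - algebraMap F B (ε b)) with hS
    have h1 : b - algebraMap F B (ε b) ∈ S := Algebra.subset_adjoin ⟨⟨b, hb⟩, rfl⟩
    have h2 := S.add_mem h1 (S.algebraMap_mem (ε b))
    rwa [sub_add_cancel] at h2
  · intro i
    rw [map_sub, AlgHom.commutes]
    exact sub_self _

theorem nt_D [IsSeparated A.hom] [LocallyOfFiniteType A.hom]
    (hfin : ∀ p : ℕ, p.Prime → (p : Ω) = 0 → {P : SO F Ω ⟶ A | P ^ p = 1}.Finite)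
    (f : Polynomial Ω) (l : ℕ) (hl : 0 < l) (x₀ : Ω) (hx₀ : (0 : Ω) ^ l = f.eval x₀)
    [IsDomain (CR f l)] (D : SO F (CR f l) ⟶ A)
    (h0 : SOm ((evC x₀ 0 hx₀).restrictScalars F) ≫ D = 1) (h1 : D ≠ 1) :
    ∃ c : Ω, c ≠ 0 ∧ ∀ (x y : Ω) (h : y ^ l = f.eval x), x ≠ x₀ → v (x - x₀) < v c →
      ∀ N : ℕ, N ≠ 0 → (SOm ((evC x y h).restrictScalars F) ≫ D) ^ N ≠ 1 := by
  classical
  obtain ⟨B, _, _, j, ε, I, _, u, hji, hj, hu, hε⟩ := exists_chart_one A
  obtain ⟨d, hd, hnear⟩ := near_one v j ε hj u hu hε hfin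
  have hx₀' : f.eval x₀ = 0 := by rw [← hx₀, zero_pow hl.ne']
  -- the morphism in the chart
  obtain ⟨g, hg, Φ, hΦ⟩ := exists_local j D ((evC x₀ 0 hx₀).restrictScalars F) (eO ε Ω) (by
    rw [h0]; exact (eO_point j ε hj Ω).symm)
  have hg' : evC x₀ 0 hx₀ g ≠ 0 := hg
  have hg0 : g ≠ 0 := by
    rintro rfl
    exact hg' (map_zero _)
  have hdom : ∀ w : CR f l, algebraMap (CR f l) (Localization.Away g) w = 0 → w = 0 := by
    intro w hw
    have h2 : Function.Injective (algebraMap (CR f l) (Localization.Away g)) :=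
      IsLocalization.injective _ (powers_le_nonZeroDivisors_of_noZeroDivisors hg0)
    exact h2 (by rw [hw, map_zero])
  -- a coordinate which is not identically zero
  obtain ⟨i₀, hi₀⟩ : ∃ i₀, Φ (u i₀) ≠ 0 := by
    by_contra hall
    push Not at hall
    apply h1
    have h2 := eq_eO ε u hu hε _ Φ hall
    apply eq_of_away g hg0 D 1
    rw [← hΦ, h2, ← SOm_comp, Category.assoc, hj, MonObj.comp_one, MonObj.comp_one]
  -- numerators
  have hnum : ∀ i, ∃ (n : ℕ) (a : CR f l),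
      Φ (u i) * algebraMap (CR f l) (Localization.Away g) g ^ n = algebraMap _ _ a :=
    fun i => IsLocalization.Away.surj g (Φ (u i))
  choose n a ha using hnum
  have ha₀ : a i₀ ≠ 0 := by
    intro h2
    have h3 := ha i₀
    rw [h2, map_zero] at h3
    have h4 : IsUnit (algebraMap (CR f l) (Localization.Away g) g ^ n i₀) :=
      (IsLocalization.Away.algebraMap_isUnit g).pow _
    exact hi₀ ((h4.mul_left_eq_zero).mp h3)
  -- points
  have hpt : ∀ (x y : Ω) (h : y ^ l = f.eval x), evC x y h g ≠ 0 →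
      ∃ φ : B →ₐ[F] Ω, SOm φ ≫ j = SOm ((evC x y h).restrictScalars F) ≫ D ∧
        ∀ i, φ (u i) * evC x y h g ^ n i = evC x y h (a i) := by
    intro x y h hgx
    obtain ⟨π', hπ'⟩ := ext_away g ((evC x y h).restrictScalars F) (Ne.isUnit hgx)
    refine ⟨π'.comp Φ, ?_, fun i => ?_⟩
    · rw [← SOm_comp, Category.assoc, hΦ, ← Category.assoc, SOm_comp, hπ']
    · have h2 := congrArg π' (ha i)
      have h3 : ∀ w : CR f l, π' (algebraMap (CR f l) (Localization.Away g) w) = evC x y h w :=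
        fun w => congrArg (fun t : CR f l →ₐ[F] Ω => t w) hπ'
      rw [map_mul, map_pow, h3, h3] at h2
      exact h2
  have ha0 : ∀ i, evC x₀ 0 hx₀ (a i) = 0 := by
    intro i
    obtain ⟨φ, hφ, hφa⟩ := hpt x₀ 0 hx₀ hg'
    have h2 : φ = eO ε Ω := pt_inj j (by rw [hφ, h0]; exact (eO_point j ε hj Ω).symm)
    rw [← hφa i, h2]
    change algebraMap F Ω (ε (u i)) * _ = 0
    rw [hε i, map_zero, zero_mul]
  -- bounds
  have hgenε : ∀ b, evC x₀ 0 hx₀ (uC f l x₀ b) = 0 := by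
    intro b
    cases b
    · change evC x₀ 0 hx₀ (AdjoinRoot.root _) = 0
      rw [evC_root]
    · change evC x₀ 0 hx₀ (AdjoinRoot.of _ _) = 0
      rw [evC_of]
      simp
  have hbd : ∀ w : CR f l, ∃ C : Ω, C ≠ 0 ∧ ∀ (x y : Ω) (h : y ^ l = f.eval x) (ρ : Γ₀),
      ρ ≤ 1 → v (x - x₀) ≤ ρ → v y ≤ ρ →
      v (evC x y h w - evC x₀ 0 hx₀ w) ≤ v C * ρ := by
    intro w
    obtain ⟨C, hC, hb⟩ := bound v (evC x₀ 0 hx₀) (uC f l x₀) (adjoin_uC f l x₀) hgenε w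
    refine ⟨C, hC, fun x y h ρ hρ h2 h3 => ?_⟩
    refine (hb (evC x y h) ρ hρ ?_).1
    intro b
    cases b
    · change v (evC x y h (AdjoinRoot.root _)) ≤ ρ
      rw [evC_root]
      exact h3
    · change v (evC x y h (AdjoinRoot.of _ _)) ≤ ρ
      rw [evC_of]
      simpa using h2
  set g₀ : Ω := evC x₀ 0 hx₀ g with hg₀
  obtain ⟨G, hG, hGb⟩ := hbd g
  choose Cb hCb hCb' using fun i => hbd (a i)
  obtain ⟨E, hE, hEi⟩ := exists_max_fin v (fun i => Cb i / g₀ ^ n i)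
    (fun i => div_ne_zero (hCb i) (pow_ne_zero _ hg'))
  obtain ⟨δ, hδ, hδi⟩ := exists_min_fin v
    (fun i : Fin 3 => (![1, d / E, g₀ / G] : Fin 3 → Ω) i) (by
      intro i
      fin_cases i
      · exact one_ne_zero
      · exact div_ne_zero hd hE
      · exact div_ne_zero hg' hG)
  have hδ1 : v δ ≤ 1 := by simpa using hδi 0
  have hδ2 : v δ ≤ v (d / E) := by simpa using hδi 1
  have hδ3 : v δ ≤ v (g₀ / G) := by simpa using hδi 2
  have hEp : 0 < v E := (Valuation.pos_iff v).mpr hE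
  have hGp : 0 < v G := (Valuation.pos_iff v).mpr hG
  obtain ⟨c1, hc1, hclose⟩ := exists_close v f l hl x₀ hx₀' δ hδ
  obtain ⟨P, hP, hPz⟩ := exists_poly f l hl (a i₀) ha₀
  obtain ⟨c2, hc2, hPnear⟩ := exists_nonzero_near v P hP x₀
  obtain ⟨c, hc, hcc1, hcc2⟩ := exists_min v hc1 hc2
  refine ⟨c, hc, ?_⟩
  intro x y h hx hlt N hN
  obtain ⟨h2, h3⟩ := hclose x y h (hlt.trans_le hcc1)
  set ρ := max (v (x - x₀)) (v y) with hρ
  have hρδ : ρ < v δ := max_lt h2 h3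
  have hρ1 : ρ ≤ 1 := (hρδ.trans_le hδ1).le
  have hgv : v (evC x y h g) = v g₀ := by
    apply Valuation.map_eq_of_sub_lt
    refine lt_of_le_of_lt (hGb x y h ρ hρ1 (le_max_left _ _) (le_max_right _ _)) ?_
    refine lt_of_lt_of_le (mul_lt_mul_of_pos_left (hρδ.trans_le hδ3) hGp) ?_
    rw [map_div₀, mul_div_cancel₀ _ hGp.ne']
  have hgne : evC x y h g ≠ 0 := by
    rw [← Valuation.ne_zero_iff v, hgv]
    exact (Valuation.ne_zero_iff v).mpr hg'
  obtain ⟨φ, hφ, hφa⟩ := hpt x y h hgne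
  rw [← hφ]
  refine hnear φ (v E * ρ) ?_ ?_ ⟨i₀, ?_⟩ N hN
  · refine lt_of_lt_of_le (mul_lt_mul_of_pos_left (hρδ.trans_le hδ2) hEp) ?_
    rw [map_div₀, mul_div_cancel₀ _ hEp.ne']
  · intro i
    have h4 := hCb' i x y h ρ hρ1 (le_max_left _ _) (le_max_right _ _)
    rw [ha0 i, sub_zero, ← hφa i, map_mul, map_pow, hgv] at h4
    have h5 := hEi i
    have hgp : 0 < v g₀ ^ n i := pow_pos ((Valuation.pos_iff v).mpr hg') _
    rw [map_div₀, map_pow, div_le_iff₀ hgp] at h5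
    have h6 : v (φ (u i)) * v g₀ ^ n i ≤ (v E * ρ) * v g₀ ^ n i := by
      refine h4.trans ((mul_le_mul_left h5 ρ).trans (le_of_eq ?_))
      exact mul_right_comm _ _ _
    exact le_of_mul_le_mul_right h6 hgp
  · intro h4
    have h5 := hφa i₀
    rw [h4, zero_mul] at h5
    exact hPnear x hx (hlt.trans_le hcc2) (hPz x y h h5.symm)

end

end Pool.H27.LG
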