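import Mathlib

/-! The definitions used in the statement about superelliptic curves in group schemes
(MP_6b5a9a_nt). -/

open AlgebraicGeometry CategoryTheory Polynomial

open scoped MonObj TensorProduct

noncomputable section

namespace Pool.H27.LG2

variable {F : Type} [Field F]

/-- `Spec R` as a scheme over the field `F`, for an `F`-algebra `R` -/
abbrev SpecOver (F R : Type) [Field F] [CommRing R] [Algebra F R] : Over (Spec (.of F)) :=
  Over.mk (Spec.map (CommRingCat.ofHom (algebraMap F R)))

/-- `X(R)`: the morphisms over `F` from `Spec R` to the `F`-scheme `X`; for a group scheme `X` this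
is a group, written multiplicatively -/
abbrev PointsOf (X : Over (Spec (.of F))) (R : Type) [CommRing R] [Algebra F R] : Type :=
  SpecOver F R ⟶ X

/-- the rank `dim_ℚ (ℚ ⊗ A(R))` of the group `A(R)` is infinite -/
def HasInfiniteRank (A : Over (Spec (.of F))) [GrpObj A] [IsCommMonObj A] (R : Type) [CommRing R]
    [Algebra F R] : Prop :=
  ¬ FiniteDimensional ℚ (ℚ ⊗[ℤ] Additive (PointsOf A R))

/-- if `F` has prime characteristic `p`, the group `A(R)` has only finitely many elements killed by
`p` (no condition in characteristic zero) -/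
def FiniteCharTorsion (A : Over (Spec (.of F))) [GrpObj A] (R : Type) [CommRing R]
    [Algebra F R] : Prop :=
  ∀ p : ℕ, p.Prime → (p : F) = 0 → {P : PointsOf A R | P ^ p = 1}.Finite

/-- the coordinate ring `K[x, y, 1 / h(x)] / (y ^ l - f(x))` of the open part `h(x) ≠ 0` of a
superelliptic curve over `K` -/
abbrev CurveRing {K : Type} [Field K] (f h : K[X]) (l : ℕ) : Type :=
  Localization.Away (AdjoinRoot.of ((X : K[X][X]) ^ l - C f) h)

/-- the morphism `δ` from the open part `h(x) ≠ 0` of the curve `y ^ l = f(x)` to `A` takes
different values at some two `K`-points `P`, `Q` with the same coordinate `x` -/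
def SeparatesFibre {K : Type} [Field K] [Algebra F K] {f h : K[X]} {l : ℕ}
    {A : Over (Spec (.of F))} (δ : PointsOf A (CurveRing f h l)) : Prop :=
  ∃ P Q : CurveRing f h l →ₐ[K] K,
    P (algebraMap K[X] (CurveRing f h l) X) = Q (algebraMap K[X] (CurveRing f h l) X) ∧
    Spec.map (CommRingCat.ofHom P.toRingHom) ≫ δ.left ≠
      Spec.map (CommRingCat.ofHom Q.toRingHom) ≫ δ.left

end Pool.H27.LG2
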